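import Pool.Agent.TH728.PL.Up

/-!
The lower bound.
-/

open Polynomial

namespace Pool.Agent.TH728.PL

open Pool.Agent.TH728.FX

/-- real form of the lower bound at one point -/
lemma Sv_lower_real {H e x y : ℕ} (hy : 2 ≤ y) (hxy : x ≤ y) (hyH : 4 * y ≤ H) (N : ℤ)
    (hN : 4 * |N| ≤ H * (y : ℤ) ^ e) :
    (1 / (4 * ((Jx (e + 1)).card : ℝ))) ^ ((Jx (e + 1)).card - (e + 1)) * (1 / 2) ^ e *
      ((H : ℝ) ^ ((Jx (e + 1)).card - 1) * (1 / (y : ℝ)) ^ e) ≤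
      ((Sv (Jx (e + 1)) H x y N).card : ℝ) := by
  obtain ⟨n, hn⟩ : ∃ n, n = (Jx (e + 1)).card := ⟨_, rfl⟩
  have hn1 : e + 1 ≤ n := by rw [hn]; exact card_ge e
  have hy0 : (0 : ℝ) < y := by exact_mod_cast (by omega : 0 < y)
  have h1 := Sv_lower (H := H) (u := x) (w := y) (by exact_mod_cast hy)
    (by rw [Nat.abs_cast]; exact_mod_cast hxy) (by exact_mod_cast hyH) (m := H / (2 * y)) (by
      have : 2 * y * (H / (2 * y)) ≤ H := Nat.mul_div_le _ _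
      exact_mod_cast this) (by
      rw [Nat.one_le_div_iff (by omega)]
      omega) e (H / (4 * (Jx (e + 1)).card)) (Nat.mul_div_le _ _) N hN
  rw [← hn] at h1 ⊢
  have h2 : (((2 * (H / (4 * n)) + 1) ^ (n - (e + 1)) * (H / (2 * y) + 1) ^ e : ℕ) : ℝ) ≤
      ((Sv (Jx (e + 1)) H x y N).card : ℝ) := by exact_mod_cast h1
  refine le_trans ?_ h2
  push_cast
  have hn0 : (0 : ℝ) < n := by exact_mod_cast (by omega : 0 < n)
  have k1 : (H : ℝ) / (4 * n) ≤ 2 * ((H / (4 * n) : ℕ) : ℝ) + 1 := by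
    have h3 := (Nat.lt_div_mul_add (a := H) (b := 4 * n) (by omega)).le
    have h4 : (H : ℝ) ≤ ((H / (4 * n) : ℕ) : ℝ) * (4 * n) + 4 * n := by exact_mod_cast h3
    rw [div_le_iff₀ (by positivity)]
    have h5 : (0 : ℝ) ≤ ((H / (4 * n) : ℕ) : ℝ) * (4 * n) := by positivity
    linarith
  have k2 : (H : ℝ) / (2 * y) ≤ ((H / (2 * y) : ℕ) : ℝ) + 1 := by
    have h3 := (Nat.lt_div_mul_add (a := H) (b := 2 * y) (by omega)).le
    have h4 : (H : ℝ) ≤ ((H / (2 * y) : ℕ) : ℝ) * (2 * y) + 2 * y := by exact_mod_cast h3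
    rw [div_le_iff₀ (by positivity)]
    linarith
  have e1 : (1 / (4 * (n : ℝ))) ^ (n - (e + 1)) * (1 / 2) ^ e * ((H : ℝ) ^ (n - 1) * (1 / (y : ℝ)) ^ e) =
      (H / (4 * n)) ^ (n - (e + 1)) * (H / (2 * y)) ^ e := by
    have e2 : (H : ℝ) ^ (n - 1) = H ^ (n - (e + 1)) * H ^ e := by
      rw [← pow_add]
      congr 1
      omega
    have e3 : (1 / (2 * (y : ℝ))) ^ e = (1 / 2) ^ e * (1 / (y : ℝ)) ^ e := by
      rw [← mul_pow]
      congr 1
      field_simp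
    rw [e2, div_eq_mul_one_div (H : ℝ) (4 * n), div_eq_mul_one_div (H : ℝ) (2 * y), mul_pow, mul_pow,
      e3]
    ring
  rw [e1]
  exact mul_le_mul (pow_le_pow_left₀ (by positivity) k1 _) (pow_le_pow_left₀ (by positivity) k2 _)
    (by positivity) (by positivity)

/-- size of the fixed polynomial -/
lemma Vl_size (A : ℤ[X]) {d : ℕ} {b : ℕ × ℕ → ℤ} {H₀ : ℕ} (hb : b ∈ Bo (Jx d) H₀) :
    ∃ C : ℕ, 1 ≤ C ∧ ∀ x y : ℕ, 1 ≤ y → x ≤ y → |Vl A d b x y| ≤ C * (y : ℤ) ^ d := by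
  refine ⟨1 + ∑ j ∈ Finset.range (d + 1), (A.coeff j).natAbs + (Jx d).card * H₀, by omega, ?_⟩
  intro x y hy hxy
  have hy1 : (1 : ℤ) ≤ y := by exact_mod_cast hy
  have hxy' : (x : ℤ) ≤ y := by exact_mod_cast hxy
  have hmon : ∀ i k : ℕ, i + k ≤ d → |((y : ℤ) ^ i * (x : ℤ) ^ k)| ≤ (y : ℤ) ^ d := by
    intro i k hik
    rw [abs_mul, abs_pow, abs_pow, Nat.abs_cast, Nat.abs_cast]
    calc (y : ℤ) ^ i * (x : ℤ) ^ k ≤ (y : ℤ) ^ i * (y : ℤ) ^ k :=
          mul_le_mul_of_nonneg_left (pow_le_pow_left₀ (by positivity) hxy' _) (by positivity)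
      _ = (y : ℤ) ^ (i + k) := by rw [pow_add]
      _ ≤ _ := pow_le_pow_right₀ hy1 hik
  unfold Vl
  refine (abs_add_le _ _).trans ?_
  have h1 : |∑ j ∈ Finset.range (d + 1), A.coeff j * (y : ℤ) ^ j * (x : ℤ) ^ (d - j)| ≤
      (∑ j ∈ Finset.range (d + 1), ((A.coeff j).natAbs : ℤ)) * (y : ℤ) ^ d := by
    rw [Finset.sum_mul]
    refine (Finset.abs_sum_le_sum_abs _ _).trans (Finset.sum_le_sum ?_)
    intro j hj
    rw [Finset.mem_range] at hj
    rw [mul_assoc, abs_mul, Int.natCast_natAbs]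
    exact mul_le_mul_of_nonneg_left (hmon j (d - j) (by omega)) (abs_nonneg _)
  have h2 : |∑ p ∈ Jx d, b p * (y : ℤ) ^ p.1 * (x : ℤ) ^ p.2| ≤ (Jx d).card * H₀ * (y : ℤ) ^ d := by
    refine (Finset.abs_sum_le_sum_abs _ _).trans ?_
    have h3 : ∀ p ∈ Jx d, |b p * (y : ℤ) ^ p.1 * (x : ℤ) ^ p.2| ≤ H₀ * (y : ℤ) ^ d := by
      intro p hp
      rw [mem_Jx] at hp
      rw [mul_assoc, abs_mul]
      exact mul_le_mul ((mem_Bo.1 hb).1 p) (hmon p.1 p.2 (by omega)) (abs_nonneg _) (by positivity)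
    refine (Finset.sum_le_sum h3).trans (le_of_eq ?_)
    rw [Finset.sum_const, nsmul_eq_mul]
    ring
  have h3 : (0 : ℤ) ≤ (y : ℤ) ^ d := by positivity
  simp only [Int.natCast_natAbs] at h1
  push_cast
  linarith

open Classical in
lemma low_zero {H e : ℕ} {N : ℤ} (hN : |N| ≤ H) :
    (2 * H + 1) ^ ((Jx (e + 1)).card - 1) ≤ (Sv (Jx (e + 1)) H 0 0 N).card := by
  have h00 : ((0, 0) : ℕ × ℕ) ∈ Jx (e + 1) := by rw [mem_Jx]; simp only; omega
  have hc : (Jx (e + 1) \ {(0, 0)}).card = (Jx (e + 1)).card - 1 := by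
    rw [Finset.card_sdiff_of_subset (Finset.singleton_subset_iff.2 h00), Finset.card_singleton]
  rw [← hc, ← card_Bo]
  apply Finset.card_le_card_of_injOn (fun c => Function.update c (0, 0) N)
  · intro c hc'
    rw [Finset.mem_coe, mem_Bo] at hc'
    rw [Finset.mem_coe, mem_Sv, mem_Bo]
    beta_reduce
    refine ⟨⟨?_, ?_⟩, ?_⟩
    · intro q
      by_cases hq : q = (0, 0)
      · rw [hq, Function.update_self]; exact hN
      · rw [Function.update_of_ne hq]; exact hc'.1 q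
    · intro q hq
      have hq0 : q ≠ (0, 0) := by
        rintro rfl
        exact hq h00
      rw [Function.update_of_ne hq0]
      apply hc'.2
      rw [Finset.mem_sdiff]
      tauto
    · unfold vl
      rw [Finset.sum_eq_single (0, 0)]
      · rw [Function.update_self]
        simp
      · intro p _ hp
        rcases Nat.eq_zero_or_pos p.1 with h4 | h4
        · rcases Nat.eq_zero_or_pos p.2 with h5 | h5
          · exact absurd (Prod.ext h4 h5) hp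
          · rw [zero_pow (by omega : p.2 ≠ 0), mul_zero]
        · rw [zero_pow (by omega : p.1 ≠ 0), mul_zero, zero_mul]
      · intro h
        exact absurd h00 h
  · intro c hc c' hc' h
    rw [Finset.mem_coe, mem_Bo] at hc hc'
    funext q
    by_cases hq : q = (0, 0)
    · rw [hq, hc.2 _ (by simp), hc'.2 _ (by simp)]
    · have := congrFun h q
      simp only at this
      rwa [Function.update_of_ne hq, Function.update_of_ne hq] at this

/-- the index set -/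
def Ix2 (T : ℕ) : Finset (Σ _ : ℕ, ℕ) := (Finset.Icc 2 T).sigma (fun y => Finset.range y)

lemma Ix2_card (T : ℕ) : (Ix2 T).card ≤ T ^ 2 := by
  unfold Ix2
  rw [Finset.card_sigma]
  have h1 : ∀ y ∈ Finset.Icc 2 T, (Finset.range y).card ≤ T := by
    intro y hy
    rw [Finset.card_range]
    exact (Finset.mem_Icc.1 hy).2
  refine (Finset.sum_le_sum h1).trans ?_
  rw [Finset.sum_const, Nat.card_Icc, smul_eq_mul, pow_two]
  exact Nat.mul_le_mul_right _ (by omega)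

open Classical in
/-- the lower bound from points of norm at most `T` -/
lemma bonf_lower {e H T : ℕ} (he : 1 ≤ e) (hTH : 4 * T ≤ H) (g : ℤ → ℤ → ℤ)
    (hg : ∀ x y : ℕ, 2 ≤ y → y ≤ T → x ≤ y → 4 * |g x y| ≤ H * (y : ℤ) ^ e)
    (S : Finset (ℕ × ℕ → ℤ)) (hS : ∀ u w : ℤ, Sv (Jx (e + 1)) H u w (g u w) ⊆ S) :
    (1 / (4 * ((Jx (e + 1)).card : ℝ))) ^ ((Jx (e + 1)).card - (e + 1)) * (1 / 2) ^ e *
      ((H : ℝ) ^ ((Jx (e + 1)).card - 1) * ∑ y ∈ Finset.Icc 2 T, (y : ℝ) * (1 / (y : ℝ)) ^ e) ≤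
      (S.card : ℝ) + (T : ℝ) ^ 4 * (2 * H + 1) ^ ((Jx (e + 1)).card - 2) := by
  obtain ⟨E, hE⟩ : ∃ E : (Σ _ : ℕ, ℕ) → Finset (ℕ × ℕ → ℤ), E = fun i =>
    Sv (Jx (e + 1)) H i.2 i.1 (g i.2 i.1) := ⟨_, rfl⟩
  have h1 := bonf (Ix2 T) E ((2 * H + 1) ^ ((Jx (e + 1)).card - 2)) (by
    rintro ⟨y, x⟩ _ ⟨y', x'⟩ _ hne
    rw [hE]
    apply Sv_pair he
    intro h
    apply hne
    rw [Prod.mk.injEq] at h
    have e1 : x = x' := by exact_mod_cast h.1
    have e2 : y = y' := by exact_mod_cast h.2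
    rw [e1, e2])
  have h2 : ((Ix2 T).biUnion E).card ≤ S.card := by
    apply Finset.card_le_card
    rw [Finset.biUnion_subset]
    intro i _
    rw [hE]
    exact hS _ _
  have h3 : (Ix2 T).card ^ 2 * (2 * H + 1) ^ ((Jx (e + 1)).card - 2) ≤
      T ^ 4 * (2 * H + 1) ^ ((Jx (e + 1)).card - 2) := by
    apply Nat.mul_le_mul_right
    calc (Ix2 T).card ^ 2 ≤ (T ^ 2) ^ 2 := Nat.pow_le_pow_left (Ix2_card T) 2
      _ = T ^ 4 := by ring
  have h4 : ∑ i ∈ Ix2 T, (E i).card ≤ S.card + T ^ 4 * (2 * H + 1) ^ ((Jx (e + 1)).card - 2) := by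
    omega
  have h5 : ∑ i ∈ Ix2 T, ((E i).card : ℝ) ≤
      (S.card : ℝ) + (T : ℝ) ^ 4 * (2 * H + 1) ^ ((Jx (e + 1)).card - 2) := by exact_mod_cast h4
  refine le_trans ?_ h5
  unfold Ix2
  rw [Finset.sum_sigma, Finset.mul_sum, Finset.mul_sum]
  apply Finset.sum_le_sum
  intro y hy
  rw [Finset.mem_Icc] at hy
  have h6 : ∀ x ∈ Finset.range y, (1 / (4 * ((Jx (e + 1)).card : ℝ))) ^ ((Jx (e + 1)).card - (e + 1)) *
      (1 / 2) ^ e * ((H : ℝ) ^ ((Jx (e + 1)).card - 1) * (1 / (y : ℝ)) ^ e) ≤ ((E ⟨y, x⟩).card : ℝ) := by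
    intro x hx
    rw [Finset.mem_range] at hx
    rw [hE]
    exact Sv_lower_real hy.1 hx.le (by omega) _ (hg x y hy.1 hy.2 hx.le)
  refine le_trans (le_of_eq ?_) (Finset.sum_le_sum h6)
  rw [Finset.sum_const, Finset.card_range, nsmul_eq_mul]
  ring

end Pool.Agent.TH728.PL
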