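import Pool.Agent.TH728.FX.Pair

/-!
Integer points at which a fixed polynomial is small are near asymptotes.
-/

open Polynomial

namespace Pool.Agent.TH728.PL

open Pool.Agent.TH728.FX

lemma Tv_eval (A : ℤ[X]) (u w : ℤ) (hu : u ≠ 0) :
    (Tv A A.natDegree u w : ℝ) = (u : ℝ) ^ A.natDegree * (Ar A).eval ((w : ℝ) / u) := by
  have hu' : (u : ℝ) ≠ 0 := by exact_mod_cast hu
  have hnd : (Ar A).natDegree = A.natDegree :=
    natDegree_map_eq_of_injective (RingHom.injective_int _) _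
  unfold Tv
  rw [eval_eq_sum_range, hnd, Finset.mul_sum]
  push_cast
  apply Finset.sum_congr rfl
  intro j hj
  rw [Finset.mem_range] at hj
  rw [coeff_map]
  simp only [eq_intCast]
  have e : (u : ℝ) ^ A.natDegree = u ^ (A.natDegree - j) * u ^ j := by
    rw [← pow_add]
    congr 1
    omega
  rw [e, div_pow]
  field_simp

lemma low_bound {d : ℕ} {b : ℕ × ℕ → ℤ} {H₀ : ℕ} (hb : b ∈ Bo (Jx d) H₀) {u w : ℤ} {T : ℕ}
    (hT : 1 ≤ T) (hu : u.natAbs ≤ T) (hw : w.natAbs ≤ T) {k : ℕ} (J : Finset (ℕ × ℕ))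
    (hJ : ∀ p ∈ J, p.1 + p.2 ≤ k) :
    |((∑ p ∈ J, b p * w ^ p.1 * u ^ p.2 : ℤ) : ℝ)| ≤ J.card * H₀ * (T : ℝ) ^ k := by
  have hT1 : (1 : ℝ) ≤ T := by exact_mod_cast hT
  have hu' : |(u : ℝ)| ≤ T := by
    rw [← Int.cast_abs, Int.abs_eq_natAbs]
    exact_mod_cast hu
  have hw' : |(w : ℝ)| ≤ T := by
    rw [← Int.cast_abs, Int.abs_eq_natAbs]
    exact_mod_cast hw
  push_cast
  refine (Finset.abs_sum_le_sum_abs _ _).trans ?_
  have h1 : ∀ p ∈ J, |(b p : ℝ) * (w : ℝ) ^ p.1 * (u : ℝ) ^ p.2| ≤ H₀ * (T : ℝ) ^ k := by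
    intro p hp
    rw [abs_mul, abs_mul, abs_pow, abs_pow, mul_assoc]
    have h2 : |(b p : ℝ)| ≤ H₀ := by
      have := (mem_Bo.1 hb).1 p
      exact_mod_cast this
    apply mul_le_mul h2 _ (by positivity) (by positivity)
    calc |(w : ℝ)| ^ p.1 * |(u : ℝ)| ^ p.2 ≤ (T : ℝ) ^ p.1 * (T : ℝ) ^ p.2 :=
          mul_le_mul (pow_le_pow_left₀ (abs_nonneg _) hw' _)
            (pow_le_pow_left₀ (abs_nonneg _) hu' _) (by positivity) (by positivity)
      _ = (T : ℝ) ^ (p.1 + p.2) := by rw [pow_add]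
      _ ≤ (T : ℝ) ^ k := pow_le_pow_right₀ hT1 (hJ p hp)
  refine (Finset.sum_le_sum h1).trans (le_of_eq ?_)
  rw [Finset.sum_const, nsmul_eq_mul]
  ring

/-- small values imply closeness to an asymptote -/
lemma near_pt {A : ℤ[X]} (hA : Irreducible (A.map (Int.castRingHom ℚ))) (hd : 2 ≤ A.natDegree)
    {b : ℕ × ℕ → ℤ} {H₀ : ℕ} (hb : b ∈ Bo (Jx A.natDegree) H₀) {e : ℕ} (he : e < A.natDegree)
    (n : ℕ) : ∃ C₁ K₀ : ℝ, ∃ B : ℕ, 1 ≤ C₁ ∧ 1 ≤ K₀ ∧ 1 ≤ B ∧ ∀ (H : ℝ) (u w : ℤ) (T : ℕ),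
      0 ≤ H → T = max u.natAbs w.natAbs → C₁ ≤ T → C₁ * (H * (T : ℝ) ^ e) ≤ (T : ℝ) ^ A.natDegree →
      |(Vl A A.natDegree b u w : ℝ)| ≤ n * (H * (T : ℝ) ^ e) →
      T ≤ B * u.natAbs ∧ ∃ θ ∈ Rt A, |(w : ℝ) - θ * u| ≤
        K₀ * (1 + H / (u.natAbs : ℝ) ^ (A.natDegree - 1 - e)) := by
  obtain ⟨d, hdd⟩ : ∃ d, d = A.natDegree := ⟨_, rfl⟩
  have hA0 := ne_zero_of_irr hA
  obtain ⟨c, C, hc, hC, hnear⟩ := near_root hA
  obtain ⟨G, hG1, hG⟩ := growth hA0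
  rw [← hdd] at hG hb he hd ⊢
  obtain ⟨B, hB⟩ : ∃ B : ℕ, B = ⌈G⌉₊ + 1 := ⟨_, rfl⟩
  have hBG : G ≤ B := by
    rw [hB]
    push_cast
    have := Nat.le_ceil G
    linarith
  have hB1 : 1 ≤ B := by omega
  have hB1' : (1 : ℝ) ≤ B := by exact_mod_cast hB1
  obtain ⟨Z, hZ⟩ : ∃ Z : ℝ, Z = n + (Jx d).card * H₀ := ⟨_, rfl⟩
  have hZ0 : 0 ≤ Z := by rw [hZ]; positivity
  obtain ⟨C₁, hC1⟩ : ∃ C₁ : ℝ, C₁ = 1 + 8 * Z + Z * B ^ d * 2 / c := ⟨_, rfl⟩
  have hC1a : 0 ≤ Z * B ^ d * 2 / c := by positivity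
  refine ⟨C₁, 1 + C * B ^ d * Z, B, by linarith, ?_, hB1, ?_⟩
  · have : 0 ≤ C * B ^ d * Z := by positivity
    linarith
  intro H u w T hH hT hCT hCH hV
  have hT1' : (1 : ℝ) ≤ T := by linarith
  have hT1 : 1 ≤ T := by exact_mod_cast hT1'
  have hT0 : (0 : ℝ) < T := by linarith
  have hu : u.natAbs ≤ T := by rw [hT]; exact le_max_left _ _
  have hw : w.natAbs ≤ T := by rw [hT]; exact le_max_right _ _
  have hu' : |(u : ℝ)| ≤ T := by
    rw [← Int.cast_abs, Int.abs_eq_natAbs]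
    exact_mod_cast hu
  -- the top form
  have hTv : |(Tv A d u w : ℝ)| ≤ Z * (H * (T : ℝ) ^ e + (T : ℝ) ^ (d - 1)) := by
    have h1 : (Vl A d b u w : ℝ) = (Tv A d u w : ℝ) + ((∑ p ∈ Jx d, b p * w ^ p.1 * u ^ p.2 : ℤ) : ℝ) := by
      unfold Vl Tv
      push_cast
      rfl
    have h2 := low_bound hb hT1 hu hw (k := d - 1) (Jx d) (by
      intro p hp
      rw [mem_Jx] at hp
      omega)
    have h3 : (Tv A d u w : ℝ) = (Vl A d b u w : ℝ) - ((∑ p ∈ Jx d, b p * w ^ p.1 * u ^ p.2 : ℤ) : ℝ) := by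
      rw [h1]; ring
    rw [h3]
    refine (abs_sub _ _).trans ?_
    have h4 : (0 : ℝ) ≤ n * (T : ℝ) ^ (d - 1) := by positivity
    have h5 : 0 ≤ ((Jx d).card : ℝ) * H₀ * (H * (T : ℝ) ^ e) :=
      mul_nonneg (mul_nonneg (Nat.cast_nonneg _) (Nat.cast_nonneg _))
        (mul_nonneg hH (pow_nonneg hT0.le _))
    rw [hZ]
    calc _ ≤ n * (H * (T : ℝ) ^ e) + (Jx d).card * H₀ * (T : ℝ) ^ (d - 1) := add_le_add hV h2
      _ ≤ _ := by
        have : (n + (Jx d).card * H₀ : ℝ) * (H * (T : ℝ) ^ e + (T : ℝ) ^ (d - 1)) =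
          n * (H * (T : ℝ) ^ e) + (Jx d).card * H₀ * (T : ℝ) ^ (d - 1) +
          (n * (T : ℝ) ^ (d - 1) + (Jx d).card * H₀ * (H * (T : ℝ) ^ e)) := by ring
        rw [this]
        linarith
  have hTd : (T : ℝ) ^ d = T ^ (d - 1) * T := by
    rw [← pow_succ]
    congr 1
    omega
  have hTd1 : C₁ * (T : ℝ) ^ (d - 1) ≤ (T : ℝ) ^ d := by
    rw [hTd, mul_comm]
    exact mul_le_mul_of_nonneg_left hCT (by positivity)
  have hsum : C₁ * (H * (T : ℝ) ^ e + (T : ℝ) ^ (d - 1)) ≤ 2 * (T : ℝ) ^ d := by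
    rw [mul_add]
    linarith
  have hTd0 : (0 : ℝ) < (T : ℝ) ^ d := by positivity
  have hS0 : 0 ≤ H * (T : ℝ) ^ e + (T : ℝ) ^ (d - 1) := by positivity
  have hTvs : |(Tv A d u w : ℝ)| < (T : ℝ) ^ d / 2 := by
    refine lt_of_le_of_lt hTv ?_
    have h1 : (1 + 8 * Z) * (H * (T : ℝ) ^ e + (T : ℝ) ^ (d - 1)) ≤ 2 * (T : ℝ) ^ d := by
      refine le_trans ?_ hsum
      apply mul_le_mul_of_nonneg_right _ hS0
      rw [hC1]
      linarith
    have h2 : 0 < H * (T : ℝ) ^ e + (T : ℝ) ^ (d - 1) :=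
      add_pos_of_nonneg_of_pos (mul_nonneg hH (pow_nonneg hT0.le _)) (pow_pos hT0 _)
    nlinarith
  -- `u` is not small
  have hTu : (T : ℝ) ≤ B * |(u : ℝ)| := by
    by_contra hcon
    push Not at hcon
    have hwT : w.natAbs = T := by
      have h1 : u.natAbs ≠ T := by
        intro h1
        have h2 : |(u : ℝ)| = T := by
          rw [← Int.cast_abs, Int.abs_eq_natAbs, h1]
          rfl
        rw [h2] at hcon
        have : (T : ℝ) ≤ B * T := le_mul_of_one_le_left hT0.le hB1'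
        linarith
      rcases max_choice u.natAbs w.natAbs with h | h
      · rw [h] at hT; exact absurd hT.symm h1
      · rw [h] at hT; exact hT.symm
    have hwT' : |(w : ℝ)| = T := by
      rw [← Int.cast_abs, Int.abs_eq_natAbs, hwT]
      rfl
    by_cases hu0 : u = 0
    · have h1 : |(Tv A d u w : ℝ)| ≥ (T : ℝ) ^ d := by
        have h2 : (Tv A d u w : ℝ) = (A.coeff d : ℝ) * (w : ℝ) ^ d := by
          unfold Tv
          rw [Finset.sum_range_succ, Finset.sum_eq_zero]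
          · rw [Nat.sub_self, pow_zero]
            push_cast
            ring
          · intro j hj
            rw [Finset.mem_range] at hj
            rw [hu0, zero_pow (by omega), mul_zero]
        rw [h2, abs_mul, abs_pow, hwT']
        have h3 : (1 : ℝ) ≤ |(A.coeff d : ℝ)| := by
          rw [hdd]
          exact_mod_cast Int.one_le_abs (leadingCoeff_ne_zero.2 hA0)
        exact le_mul_of_one_le_left hTd0.le h3
      linarith
    · have hu0' : 0 < |(u : ℝ)| := abs_pos.2 (by exact_mod_cast hu0)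
      have h1 : G ≤ |(w : ℝ) / u| := by
        rw [abs_div, le_div_iff₀ hu0', hwT']
        have : G * |(u : ℝ)| ≤ B * |(u : ℝ)| := mul_le_mul_of_nonneg_right hBG hu0'.le
        linarith
      have h2 := hG _ h1
      have h3 := Tv_eval A u w hu0
      rw [← hdd] at h3
      rw [h3, abs_mul, abs_pow] at hTvs
      rw [abs_div, div_pow, hwT'] at h2
      have h4 : |(u : ℝ)| ^ d * ((T : ℝ) ^ d / |(u : ℝ)| ^ d / 2) ≤
          |(u : ℝ)| ^ d * |(Ar A).eval ((w : ℝ) / u)| := mul_le_mul_of_nonneg_left h2 (by positivity)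
      have h5 : |(u : ℝ)| ^ d * ((T : ℝ) ^ d / |(u : ℝ)| ^ d / 2) = (T : ℝ) ^ d / 2 := by
        field_simp
      linarith
  have hupos : 0 < |(u : ℝ)| := by
    by_contra hcon
    push Not at hcon
    have : |(u : ℝ)| = 0 := le_antisymm hcon (abs_nonneg _)
    rw [this, mul_zero] at hTu
    linarith
  have hu0 : u ≠ 0 := by
    have := abs_pos.1 hupos
    exact_mod_cast this
  have hua : (u.natAbs : ℝ) = |(u : ℝ)| := by
    rw [← Int.cast_abs, Int.abs_eq_natAbs]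
    rfl
  constructor
  · have : (T : ℝ) ≤ ((B * u.natAbs : ℕ) : ℝ) := by
      push_cast
      rw [hua]
      exact hTu
    exact_mod_cast this
  -- closeness
  have h3 := Tv_eval A u w hu0
  rw [← hdd] at h3
  have hupow : (T : ℝ) ^ d ≤ B ^ d * |(u : ℝ)| ^ d := by
    rw [← mul_pow]
    exact pow_le_pow_left₀ hT0.le hTu _
  have hAt : |(Ar A).eval ((w : ℝ) / u)| * (T : ℝ) ^ d ≤
      B ^ d * Z * (H * (T : ℝ) ^ e + (T : ℝ) ^ (d - 1)) := by
    rw [h3, abs_mul, abs_pow] at hTv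
    calc |(Ar A).eval ((w : ℝ) / u)| * (T : ℝ) ^ d ≤
        |(Ar A).eval ((w : ℝ) / u)| * (B ^ d * |(u : ℝ)| ^ d) :=
          mul_le_mul_of_nonneg_left hupow (abs_nonneg _)
      _ = B ^ d * (|(u : ℝ)| ^ d * |(Ar A).eval ((w : ℝ) / u)|) := by ring
      _ ≤ B ^ d * (Z * (H * (T : ℝ) ^ e + (T : ℝ) ^ (d - 1))) :=
          mul_le_mul_of_nonneg_left hTv (by positivity)
      _ = _ := by ring
  have hAc : |(Ar A).eval ((w : ℝ) / u)| ≤ c := by
    have h4 : Z * B ^ d * 2 / c * (H * (T : ℝ) ^ e + (T : ℝ) ^ (d - 1)) ≤ 2 * (T : ℝ) ^ d := by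
      refine le_trans ?_ hsum
      apply mul_le_mul_of_nonneg_right _ hS0
      rw [hC1]
      linarith
    have h5 : Z * B ^ d * 2 / c * (H * (T : ℝ) ^ e + (T : ℝ) ^ (d - 1)) * c =
        2 * (B ^ d * Z * (H * (T : ℝ) ^ e + (T : ℝ) ^ (d - 1))) := by
      field_simp
    have h6 : |(Ar A).eval ((w : ℝ) / u)| * (T : ℝ) ^ d ≤ c * (T : ℝ) ^ d := by
      nlinarith
    exact le_of_mul_le_mul_right h6 hTd0
  obtain ⟨θ, hθ, hclose⟩ := hnear _ hAc
  refine ⟨θ, hθ, ?_⟩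
  have e1 : |(w : ℝ) - θ * u| = |(u : ℝ)| * |(w : ℝ) / u - θ| := by
    rw [← abs_mul]
    congr 1
    have : (u : ℝ) ≠ 0 := abs_pos.1 hupos
    field_simp
  rw [e1]
  have h5 : |(u : ℝ)| * |(w : ℝ) / u - θ| * (T : ℝ) ^ d ≤
      C * (B ^ d * Z * (H * (T : ℝ) ^ e + (T : ℝ) ^ (d - 1))) * |(u : ℝ)| := by
    calc _ ≤ |(u : ℝ)| * (C * |(Ar A).eval ((w : ℝ) / u)|) * (T : ℝ) ^ d := by
          apply mul_le_mul_of_nonneg_right _ hTd0.le
          exact mul_le_mul_of_nonneg_left hclose hupos.le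
      _ = C * (|(Ar A).eval ((w : ℝ) / u)| * (T : ℝ) ^ d) * |(u : ℝ)| := by ring
      _ ≤ _ := by
        apply mul_le_mul_of_nonneg_right _ hupos.le
        exact mul_le_mul_of_nonneg_left hAt (by linarith)
  have h6 : |(u : ℝ)| * |(w : ℝ) / u - θ| ≤
      C * B ^ d * Z * ((H * (T : ℝ) ^ e + (T : ℝ) ^ (d - 1)) * |(u : ℝ)| / (T : ℝ) ^ d) := by
    rw [← mul_div_assoc, le_div_iff₀ hTd0]
    refine h5.trans (le_of_eq ?_)
    ring
  have h7 : (H * (T : ℝ) ^ e + (T : ℝ) ^ (d - 1)) * |(u : ℝ)| / (T : ℝ) ^ d ≤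
      1 + H / (u.natAbs : ℝ) ^ (d - 1 - e) := by
    rw [add_mul, add_div, add_comm]
    apply add_le_add
    · rw [div_le_one hTd0, hTd]
      exact mul_le_mul_of_nonneg_left hu' (by positivity)
    · have h8 : (T : ℝ) ^ d = T ^ e * T * T ^ (d - 1 - e) := by
        rw [← pow_succ, ← pow_add]
        congr 1
        omega
      have h9 : H * (T : ℝ) ^ e * |(u : ℝ)| / (T : ℝ) ^ d ≤ H / (T : ℝ) ^ (d - 1 - e) := by
        rw [div_le_div_iff₀ hTd0 (by positivity), h8]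
        have : H * (T : ℝ) ^ e * |(u : ℝ)| * T ^ (d - 1 - e) ≤ H * (T : ℝ) ^ e * T * T ^ (d - 1 - e) := by
          apply mul_le_mul_of_nonneg_right _ (by positivity)
          exact mul_le_mul_of_nonneg_left hu' (by positivity)
        linarith
      refine h9.trans ?_
      apply div_le_div_of_nonneg_left hH
      · rw [hua]; positivity
      · apply pow_le_pow_left₀ (by positivity)
        exact_mod_cast hu
  refine h6.trans ?_
  have h10 : 0 ≤ C * B ^ d * Z := by positivity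
  have h11 : 0 ≤ H / (u.natAbs : ℝ) ^ (d - 1 - e) := by positivity
  calc _ ≤ C * B ^ d * Z * (1 + H / (u.natAbs : ℝ) ^ (d - 1 - e)) :=
        mul_le_mul_of_nonneg_left h7 h10
    _ ≤ _ := by
      apply mul_le_mul_of_nonneg_right _ (by linarith)
      linarith

end Pool.Agent.TH728.PL
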