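import Pool.Agent.TH728.PL.Fib
import Pool.Agent.TH728.PL.Near
import Pool.Agent.TH728.PL.Low
import Pool.Agent.TH728.FX.Pair

/-!
The number of polynomials of degree at most `e` with a given value at a given point.
-/

open Polynomial

namespace Pool.Agent.TH728.PL

open Pool.Agent.TH728.FX

lemma vl_Lc {e : ℕ} (c : ℕ × ℕ → ℤ) (u w : ℤ) :
    vl (Jx (e + 1)) c u w = c (0, 0) + Lc (e + 1) u w c := by
  unfold vl Lc Jy
  have h : ((0, 0) : ℕ × ℕ) ∈ Jx (e + 1) := by
    rw [mem_Jx]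
    simp only
    omega
  rw [← Finset.add_sum_erase _ _ h]
  simp only [pow_zero, mul_one]

lemma Sv_MP {e : ℕ} (u w N : ℤ) (H : ℕ) :
    (Sv (Jx (e + 1)) H u w N).card = MP (e + 1) u w (-N) H := by
  classical
  unfold MP
  have h0 : ((0, 0) : ℕ × ℕ) ∉ Jy (e + 1) := by
    rw [mem_Jy]
    simp
  have hL : ∀ b b' : ℕ × ℕ → ℤ, (∀ p, p ≠ (0, 0) → b p = b' p) →
      Lc (e + 1) u w b = Lc (e + 1) u w b' := by
    intro b b' h
    unfold Lc
    apply Finset.sum_congr rfl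
    intro p hp
    rw [mem_Jy] at hp
    rw [h p hp.1]
  apply Finset.card_nbij' (fun b => Function.update b (0, 0) 0)
    (fun c => Function.update c (0, 0) (-(-N + Lc (e + 1) u w c)))
  · intro b hb
    rw [Finset.mem_coe, mem_Sv, mem_Bo, vl_Lc] at hb
    obtain ⟨⟨h1, h2⟩, h3⟩ := hb
    rw [Finset.mem_coe, Finset.mem_filter, mem_Bo]
    beta_reduce
    refine ⟨⟨?_, ?_⟩, ?_⟩
    · intro p
      by_cases hp : p = (0, 0)
      · rw [hp, Function.update_self]; simp
      · rw [Function.update_of_ne hp]; exact h1 p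
    · intro p hp
      by_cases hp0 : p = (0, 0)
      · rw [hp0, Function.update_self]
      · rw [Function.update_of_ne hp0]
        apply h2
        intro h4
        exact hp (Finset.mem_erase.2 ⟨hp0, h4⟩)
    · rw [hL (Function.update b (0, 0) 0) b (fun p hp => Function.update_of_ne hp _ _)]
      have e : -N + Lc (e + 1) u w b = -(b (0, 0)) := by linarith
      rw [e, abs_neg]
      exact h1 _
  · intro c hc
    rw [Finset.mem_coe, Finset.mem_filter, mem_Bo] at hc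
    obtain ⟨⟨h1, h2⟩, h3⟩ := hc
    rw [Finset.mem_coe, mem_Sv, mem_Bo, vl_Lc]
    beta_reduce
    refine ⟨⟨?_, ?_⟩, ?_⟩
    · intro p
      by_cases hp : p = (0, 0)
      · rw [hp, Function.update_self, abs_neg]; exact h3
      · rw [Function.update_of_ne hp]; exact h1 p
    · intro p hp
      have hp0 : p ≠ (0, 0) := by
        rintro rfl
        apply hp
        rw [mem_Jx]
        simp only
        omega
      rw [Function.update_of_ne hp0]
      apply h2
      intro h4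
      exact hp (Finset.mem_of_mem_erase h4)
    · rw [Function.update_self, hL (Function.update c (0, 0) _) c
        (fun p hp => Function.update_of_ne hp _ _)]
      ring
  · intro b hb
    rw [Finset.mem_coe, mem_Sv, vl_Lc] at hb
    simp only
    rw [hL (Function.update b (0, 0) 0) b (fun p hp => Function.update_of_ne hp _ _),
      Function.update_idem]
    have e : -(-N + Lc (e + 1) u w b) = b (0, 0) := by linarith [hb.2]
    rw [e, Function.update_eq_self]
  · intro c hc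
    rw [Finset.mem_coe, Finset.mem_filter, mem_Bo] at hc
    simp only
    rw [Function.update_idem]
    have e : (0 : ℤ) = c (0, 0) := (hc.1.2 _ h0).symm
    rw [e, Function.update_eq_self]

lemma Sv_close {e : ℕ} (he : 3 ≤ e) {u w N : ℤ} {T : ℕ} (hT : 1 ≤ T)
    (h : T = max u.natAbs w.natAbs) (H : ℕ) :
    |((Sv (Jx (e + 1)) H u w N).card : ℝ) / (2 * H + 1) ^ ((Jx (e + 1)).card - 1) -
      rho (e + 1) u w| ≤
      (2 * (2 * |(N : ℝ)| / T ^ e + 1) + 2 * (2 * (Jx (e + 1)).card + 1)) / (2 * H + 1) := by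
  obtain ⟨n, hn⟩ : ∃ n, n = (Jx (e + 1)).card := ⟨_, rfl⟩
  have hn2 : 2 ≤ n := by
    have h1 : (Jy (e + 1)).card = (Jx (e + 1)).card - 1 := card_Jy (by omega)
    have h2 : ((1, 0) : ℕ × ℕ) ∈ Jy (e + 1) := by
      rw [mem_Jy]
      refine ⟨by simp, ?_⟩
      simp only; omega
    have h3 := Finset.card_pos.2 ⟨_, h2⟩
    omega
  have h1 := MP_shift (d := e + 1) (by omega) hT h (-N) H
  have h2 := rho_close (d := e + 1) (by omega) hT h H
  rw [Sv_MP]
  rw [← hn] at h1 h2 ⊢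
  rw [show e + 1 - 1 = e by omega] at h1
  push_cast at h1
  rw [abs_neg (N : ℝ)] at h1
  obtain ⟨X, hX⟩ : ∃ X : ℝ, X = (2 * (H : ℝ) + 1) ^ (n - 1) := ⟨_, rfl⟩
  have hX0 : 0 < X := by rw [hX]; positivity
  rw [← hX] at h2 ⊢
  have e5 : X = (2 * (H : ℝ) + 1) * (2 * H + 1) ^ (n - 2) := by
    rw [hX, ← pow_succ']
    congr 1
    omega
  have h4 : |(MP (e + 1) u w (-N) H : ℝ) / X - (MP (e + 1) u w 0 H : ℝ) / X| ≤
      2 * (2 * |(N : ℝ)| / T ^ e + 1) / (2 * H + 1) := by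
    rw [← sub_div, abs_div, abs_of_pos hX0, div_le_iff₀ hX0]
    refine h1.trans (le_of_eq ?_)
    rw [e5]
    have hpos : (2 * (H : ℝ) + 1) ≠ 0 := by positivity
    field_simp
  have h5 := abs_sub_le ((MP (e + 1) u w (-N) H : ℝ) / X) ((MP (e + 1) u w 0 H : ℝ) / X)
    (rho (e + 1) u w)
  rw [abs_sub_comm (rho (e + 1) u w)] at h2
  rw [add_div]
  linarith

lemma Sv_zero {e : ℕ} (he : 3 ≤ e) {N : ℤ} {H : ℕ} (hN : |N| ≤ H) :
    ((Sv (Jx (e + 1)) H 0 0 N).card : ℝ) / (2 * H + 1) ^ ((Jx (e + 1)).card - 1) -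
      rho (e + 1) 0 0 = 0 := by
  have h1 := low_zero (H := H) (e := e) hN
  have h2 := Sv_trivial (H := H) e 0 0 N
  have h3 : (Sv (Jx (e + 1)) H 0 0 N).card = (2 * H + 1) ^ ((Jx (e + 1)).card - 1) := le_antisymm h2 h1
  rw [h3, rho_zero (by omega)]
  push_cast
  rw [div_self (by positivity), sub_self]

lemma Vl_bound (A : ℤ[X]) {d : ℕ} {b : ℕ × ℕ → ℤ} {H₀ : ℕ} (hb : b ∈ Bo (Jx d) H₀) :
    ∃ C : ℝ, 0 ≤ C ∧ ∀ (u w : ℤ) (T : ℕ), 1 ≤ T → T = max u.natAbs w.natAbs →
      |(Vl A d b u w : ℝ)| ≤ C * (T : ℝ) ^ d := by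
  refine ⟨∑ j ∈ Finset.range (d + 1), |(A.coeff j : ℝ)| + (Jx d).card * H₀, by positivity, ?_⟩
  intro u w T hT h
  have hT1 : (1 : ℝ) ≤ T := by exact_mod_cast hT
  have e1 : |(w : ℝ)| ≤ T := by
    have : |w| ≤ T := by rw [Int.abs_eq_natAbs]; omega
    exact_mod_cast this
  have e2 : |(u : ℝ)| ≤ T := by
    have : |u| ≤ T := by rw [Int.abs_eq_natAbs]; omega
    exact_mod_cast this
  have h1 : |((∑ j ∈ Finset.range (d + 1), A.coeff j * w ^ j * u ^ (d - j) : ℤ) : ℝ)| ≤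
      (∑ j ∈ Finset.range (d + 1), |(A.coeff j : ℝ)|) * (T : ℝ) ^ d := by
    push_cast
    refine (Finset.abs_sum_le_sum_abs _ _).trans ?_
    rw [Finset.sum_mul]
    apply Finset.sum_le_sum
    intro j hj
    rw [Finset.mem_range] at hj
    rw [abs_mul, abs_mul, abs_pow, abs_pow, mul_assoc]
    apply mul_le_mul_of_nonneg_left _ (abs_nonneg _)
    calc |(w : ℝ)| ^ j * |(u : ℝ)| ^ (d - j) ≤ (T : ℝ) ^ j * (T : ℝ) ^ (d - j) :=
          mul_le_mul (pow_le_pow_left₀ (abs_nonneg _) e1 _)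
            (pow_le_pow_left₀ (abs_nonneg _) e2 _) (by positivity) (by positivity)
      _ = (T : ℝ) ^ d := by rw [← pow_add]; congr 1; omega
  have h2 := low_bound hb hT (u := u) (w := w) (by omega) (by omega) (k := d) (Jx d) (by
    intro p hp
    rw [mem_Jx] at hp
    omega)
  have h3 : (Vl A d b u w : ℝ) = ((∑ j ∈ Finset.range (d + 1), A.coeff j * w ^ j * u ^ (d - j) : ℤ) : ℝ) +
      ((∑ p ∈ Jx d, b p * w ^ p.1 * u ^ p.2 : ℤ) : ℝ) := by
    unfold Vl
    push_cast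
    ring
  rw [h3, add_mul]
  exact (abs_add_le _ _).trans (add_le_add h1 h2)

end Pool.Agent.TH728.PL
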