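import Pool.Agent.TH728.PL.TailU
import Pool.Agent.TH728.PL.Pts
import Pool.Agent.TH728.FX.Asym

/-!
The asymptotic formula for `e ≥ 3`.
-/

open Polynomial

namespace Pool.Agent.TH728.PL

open Pool.Agent.TH728.FX

/-- one point, uniformly -/
lemma Sv_unif {A : ℤ[X]} {d e : ℕ} (he : 3 ≤ e) (hed : e + 4 ≤ d) {H₀ : ℕ} {b : ℕ × ℕ → ℤ}
    (hb : b ∈ Bo (Jx d) H₀) : ∃ C : ℝ, 0 ≤ C ∧ ∀ (H B : ℕ), H₀ ≤ H → 1 ≤ B → ∀ P ∈ Qb B,
      |((Sv (Jx (e + 1)) H P.1 P.2 (-Vl A d b P.1 P.2)).card : ℝ) /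
        (2 * H + 1) ^ ((Jx (e + 1)).card - 1) - rho (e + 1) P.1 P.2| ≤
        C * (B : ℝ) ^ (d - e) / (2 * H + 1) := by
  obtain ⟨CV, hCV, hV⟩ := Vl_bound A hb
  refine ⟨2 * (2 * CV + 1) + 2 * (2 * (Jx (e + 1)).card + 1), by positivity, ?_⟩
  intro H B hH hB P hP
  rw [mem_Qb] at hP
  have hB1 : (1 : ℝ) ≤ B := by exact_mod_cast hB
  have hBd : (1 : ℝ) ≤ (B : ℝ) ^ (d - e) := one_le_pow₀ hB1
  obtain ⟨T, hT⟩ : ∃ T, T = max P.1.natAbs P.2.natAbs := ⟨_, rfl⟩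
  rcases Nat.eq_zero_or_pos T with h0 | hpos
  · have hu : P.1 = 0 := by omega
    have hw : P.2 = 0 := by omega
    have h1 : Vl A d b 0 0 = b (0, 0) := by
      have hJ : ((0, 0) : ℕ × ℕ) ∈ Jx d := by
        rw [mem_Jx]
        simp only
        omega
      unfold Vl
      rw [Finset.sum_eq_zero, zero_add, Finset.sum_eq_single_of_mem _ hJ]
      · simp
      · intro p _ hp
        rcases Nat.eq_zero_or_pos p.1 with h4 | h4
        · rcases Nat.eq_zero_or_pos p.2 with h5 | h5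
          · exact absurd (Prod.ext h4 h5) hp
          · rw [zero_pow (by omega : p.2 ≠ 0), mul_zero]
        · rw [zero_pow (by omega : p.1 ≠ 0), mul_zero, zero_mul]
      · intro j hj
        rw [Finset.mem_range] at hj
        rcases Nat.eq_zero_or_pos j with rfl | hj0
        · rw [Nat.sub_zero, zero_pow (by omega : d ≠ 0), mul_zero]
        · rw [zero_pow (by omega : j ≠ 0), mul_zero, zero_mul]
    rw [hu, hw]
    have h2 : |-Vl A d b 0 0| ≤ (H : ℤ) := by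
      rw [h1, abs_neg]
      have := (mem_Bo.1 hb).1 (0, 0)
      have h3 : (H₀ : ℤ) ≤ H := by exact_mod_cast hH
      linarith
    rw [Sv_zero he h2, abs_zero]
    positivity
  · have h1 := Sv_close he (N := -Vl A d b P.1 P.2) hpos hT H
    refine h1.trans ?_
    apply div_le_div_of_nonneg_right _ (by positivity)
    have hT1 : (1 : ℝ) ≤ T := by exact_mod_cast hpos
    have h2 := hV P.1 P.2 T hpos hT
    have h3 : |((-Vl A d b P.1 P.2 : ℤ) : ℝ)| / (T : ℝ) ^ e ≤ CV * (B : ℝ) ^ (d - e) := by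
      push_cast
      rw [abs_neg, div_le_iff₀ (by positivity)]
      refine h2.trans ?_
      have e1 : (T : ℝ) ^ d = T ^ (d - e) * T ^ e := by
        rw [← pow_add]
        congr 1
        omega
      rw [e1, ← mul_assoc]
      apply mul_le_mul_of_nonneg_right _ (by positivity)
      apply mul_le_mul_of_nonneg_left _ hCV
      apply pow_le_pow_left₀ (by positivity)
      have : T ≤ B := by rw [hT]; exact hP
      exact_mod_cast this
    have h4 : 2 * |((-Vl A d b P.1 P.2 : ℤ) : ℝ)| / (T : ℝ) ^ e =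
        2 * (|((-Vl A d b P.1 P.2 : ℤ) : ℝ)| / (T : ℝ) ^ e) := by ring
    rw [h4]
    have h5 : (0 : ℝ) ≤ (Jx (e + 1)).card := Nat.cast_nonneg _
    nlinarith

set_option maxHeartbeats 2000000 in
theorem asym3 {A : ℤ[X]} (hA : Irreducible (A.map (Int.castRingHom ℚ))) {e : ℕ} (he : 3 ≤ e)
    (hed : e + 4 ≤ A.natDegree) {H₀ : ℕ} (hH0 : 1 ≤ H₀) {b : ℕ × ℕ → ℤ}
    (hb : b ∈ Bo (Jx A.natDegree) H₀)
    (hg : ∀ θ ∈ Rt A, gam A A.natDegree (nb A.natDegree b H₀) θ ≠ 0)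
    (N₀ Cb kb : ℕ) (hCb : 1 ≤ Cb) :
    ∃ K : ℝ, ∀ (H : ℕ) (S Sb : Finset (ℕ × ℕ → ℤ)), 1 ≤ H → S ⊆ Bo (Jx (e + 1)) H →
      (∀ u w : ℤ, Sv (Jx (e + 1)) H u w (-Vl A A.natDegree b u w) ⊆ S) → Sb.card ≤ N₀ →
      (∀ c ∈ S, ∃ u w : ℤ, vl (Jx (e + 1)) c u w = -Vl A A.natDegree b u w) →
      (∀ c ∈ S, ∀ u w : ℤ, vl (Jx (e + 1)) c u w = -Vl A A.natDegree b u w →
        Cb * H ^ kb < max u.natAbs w.natAbs → c ∈ Sb) →
      |(S.card : ℝ) / (2 * H + 1) ^ ((Jx (e + 1)).card - 1) - ∑' P : ℤ × ℤ, rho (e + 1) P.1 P.2| ≤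
        K * (1 / (H : ℝ) ^ (1 / ((A.natDegree : ℝ) - e + 3))) := by
  classical
  obtain ⟨Kt, hKt, H₁, htail⟩ := upper_tail hA he hed hH0 hb hg N₀ Cb kb hCb
  obtain ⟨CN, hCN, hNP⟩ := Sv_unif (A := A) he hed hb
  obtain ⟨d, hdd⟩ : ∃ d, d = A.natDegree := ⟨_, rfl⟩
  rw [← hdd] at hed hb hg htail hNP ⊢
  obtain ⟨cd, hcd⟩ : ∃ cd : ℝ, cd = ∑' P : ℤ × ℤ, rho (e + 1) P.1 P.2 := ⟨_, rfl⟩
  have hcd0 : 0 ≤ cd := by rw [hcd]; exact tsum_nonneg (fun P => rho_nonneg _ _ _)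
  obtain ⟨H₂, hH2⟩ : ∃ H₂ : ℕ, H₂ = H₁ + H₀ := ⟨_, rfl⟩
  obtain ⟨n, hn⟩ : ∃ n, n = (Jx (e + 1)).card := ⟨_, rfl⟩
  have hn1 : e + 1 ≤ n := by rw [hn]; exact card_ge e
  refine ⟨((2 * H₂ + 1) + cd) * (H₂ + 1) + (2 * Kt + 81 + 9 * CN + 24), ?_⟩
  intro H S Sb hH hSB hSv hSb hSP hbig
  have hH' : (1 : ℝ) ≤ H := by exact_mod_cast hH
  have hH0' : (0 : ℝ) < H := by linarith
  obtain ⟨m, hm⟩ : ∃ m, m = d - e + 3 := ⟨_, rfl⟩
  have hmr : (m : ℝ) = (d : ℝ) - e + 3 := by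
    rw [hm]
    push_cast
    rw [Nat.cast_sub (by omega)]
  have hm0 : (0 : ℝ) < m := by exact_mod_cast (by omega : 0 < m)
  obtain ⟨h, hh⟩ : ∃ h : ℝ, h = (H : ℝ) ^ (1 / ((d : ℝ) - e + 3)) := ⟨_, rfl⟩
  have hh1 : 1 ≤ h := by
    rw [hh, ← hmr]
    exact Real.one_le_rpow hH' (by positivity)
  have hhpos : 0 < h := by linarith
  have hhm : h ^ m = H := by
    rw [hh, ← hmr, ← Real.rpow_natCast, ← Real.rpow_mul hH0'.le, one_div, inv_mul_cancel₀ hm0.ne',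
      Real.rpow_one]
  obtain ⟨X, hX⟩ : ∃ X : ℝ, X = (2 * (H : ℝ) + 1) ^ (n - 1) := ⟨_, rfl⟩
  have hXpos : 0 < X := by rw [hX]; positivity
  rw [← hn, ← hX, ← hcd, ← hh]
  obtain ⟨X₂, hX2d⟩ : ∃ X₂ : ℝ, X₂ = (2 * (H : ℝ) + 1) ^ (n - 2) := ⟨_, rfl⟩
  have hX2 : X = (2 * H + 1) * X₂ := by
    rw [hX, hX2d, ← pow_succ']
    congr 1
    omega
  have hX2pos : 0 < X₂ := by rw [hX2d]; positivity
  have hsmall : 0 ≤ 2 * Kt + 81 + 9 * CN + 24 := by linarith
  rcases lt_or_ge H H₂ with hlt | hge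
  · have h1 : (S.card : ℝ) ≤ (2 * H + 1) ^ n := by
      have := Finset.card_le_card hSB
      rw [card_Bo, ← hn] at this
      exact_mod_cast this
    have h2 : (2 * (H : ℝ) + 1) ^ n = (2 * H + 1) * X := by
      rw [hX, ← pow_succ']
      congr 1
      omega
    rw [h2] at h1
    have h3 : (S.card : ℝ) / X ≤ 2 * H + 1 := by
      rw [div_le_iff₀ hXpos]
      exact h1
    have h4 : 0 ≤ (S.card : ℝ) / X := by positivity
    have hHH : (H : ℝ) ≤ H₂ := by exact_mod_cast hlt.le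
    have h5 : |(S.card : ℝ) / X - cd| ≤ (2 * H₂ + 1) + cd := by
      rw [abs_le]
      constructor <;> linarith
    have h6 : 1 ≤ ((H₂ : ℝ) + 1) * (1 / h) := by
      rw [mul_one_div, le_div_iff₀ hhpos, one_mul]
      have : h ≤ H := by
        rw [← hhm]
        exact le_self_pow₀ hh1 (by omega)
      linarith
    have h7 : 0 ≤ (2 * (H₂ : ℝ) + 1) + cd := by positivity
    have h8 : ((2 * (H₂ : ℝ) + 1) + cd) * 1 ≤ ((2 * (H₂ : ℝ) + 1) + cd) * (((H₂ : ℝ) + 1) * (1 / h)) :=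
      mul_le_mul_of_nonneg_left h6 h7
    have h9 : 0 ≤ (2 * Kt + 81 + 9 * CN + 24) * (1 / h) := by positivity
    rw [add_mul]
    linarith
  · obtain ⟨B, hBd⟩ : ∃ B : ℕ, B = ⌊h⌋₊ := ⟨_, rfl⟩
    have hB1 : 1 ≤ B := by
      rw [hBd]
      exact Nat.le_floor (by simpa using hh1)
    have hB1' : (1 : ℝ) ≤ B := by exact_mod_cast hB1
    have hBh : (B : ℝ) ≤ h := by rw [hBd]; exact Nat.floor_le hhpos.le
    have hhB : h ≤ 2 * B := by
      have := Nat.lt_floor_add_one h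
      rw [← hBd] at this
      linarith
    have hBH : B ^ (d - e) ≤ H := by
      have h1 : (B : ℝ) ^ (d - e) ≤ H := by
        rw [← hhm]
        calc (B : ℝ) ^ (d - e) ≤ h ^ (d - e) := pow_le_pow_left₀ (by positivity) hBh _
          _ ≤ h ^ m := pow_le_pow_right₀ hh1 (by omega)
      exact_mod_cast h1
    obtain ⟨Ep, hEp⟩ : ∃ Ep : ℤ × ℤ → Finset (ℕ × ℕ → ℤ), Ep = fun P =>
      Sv (Jx (e + 1)) H P.1 P.2 (-Vl A d b P.1 P.2) := ⟨_, rfl⟩
    obtain ⟨ST, hST⟩ : ∃ ST, ST = S.filter (fun c => ∃ u w : ℤ, B < max u.natAbs w.natAbs ∧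
      vl (Jx (e + 1)) c u w = -Vl A d b u w) := ⟨_, rfl⟩
    have gT : (ST.card : ℝ) ≤ Kt * (H ^ (n - 1) / B) := by
      rw [hn]
      apply htail H B ST Sb (by omega) hB1 hBH (by rw [hST]; exact (Finset.filter_subset _ _).trans hSB)
        hSb
      intro c hc
      rw [hST, Finset.mem_filter] at hc
      obtain ⟨hcS, u, w, h1, h2⟩ := hc
      exact ⟨u, w, h1, h2, hbig c hcS u w h2⟩
    have hcov : S ⊆ (Qb B).biUnion Ep ∪ ST := by
      intro c hc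
      obtain ⟨u, w, huw⟩ := hSP c hc
      rw [Finset.mem_union]
      by_cases hPB : max u.natAbs w.natAbs ≤ B
      · left
        rw [Finset.mem_biUnion]
        refine ⟨(u, w), mem_Qb.2 hPB, ?_⟩
        rw [hEp, mem_Sv]
        exact ⟨hSB hc, huw⟩
      · right
        rw [hST, Finset.mem_filter]
        exact ⟨hc, u, w, by omega, huw⟩
    obtain ⟨Sg, hSg1⟩ : ∃ s : ℝ, s = ∑ P ∈ Qb B, ((Ep P).card : ℝ) := ⟨_, rfl⟩
    have hup : (S.card : ℝ) ≤ Sg + ST.card := by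
      have g1 := (Finset.card_le_card hcov).trans (Finset.card_union_le _ _)
      have g6 : ((Qb B).biUnion Ep).card ≤ ∑ P ∈ Qb B, (Ep P).card := Finset.card_biUnion_le
      have g7 : S.card ≤ (∑ P ∈ Qb B, (Ep P).card) + ST.card := by omega
      have g8 : (((∑ P ∈ Qb B, (Ep P).card : ℕ)) : ℝ) = Sg := by
        rw [hSg1]
        push_cast
        rfl
      rw [← g8]
      exact_mod_cast g7
    have hlow : Sg ≤ S.card + (2 * (B : ℝ) + 1) ^ 4 * X₂ := by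
      have g1 := bonf (Qb B) Ep ((2 * H + 1) ^ (n - 2)) (by
        intro P _ P' _ hne
        rw [hEp, hn]
        exact Sv_pair (by omega) (u := P.1) (w := P.2) (u' := P'.1) (w' := P'.2) hne _ _)
      have g2 : (Qb B).biUnion Ep ⊆ S := by
        intro c hc
        rw [Finset.mem_biUnion] at hc
        obtain ⟨P, _, hcP⟩ := hc
        rw [hEp] at hcP
        exact hSv P.1 P.2 hcP
      have g3 := Finset.card_le_card g2
      have g4 : ∑ P ∈ Qb B, (Ep P).card ≤ S.card + ((2 * B + 1) ^ 2) ^ 2 *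
          (2 * H + 1) ^ (n - 2) := by
        rw [← card_Qb]
        omega
      have g8 : (((∑ P ∈ Qb B, (Ep P).card : ℕ)) : ℝ) = Sg := by
        rw [hSg1]
        push_cast
        rfl
      rw [← g8, hX2d]
      have e : (2 * (B : ℝ) + 1) ^ 4 = ((2 * (B : ℝ) + 1) ^ 2) ^ 2 := by ring
      rw [e]
      exact_mod_cast g4
    have hSgr : |Sg / X - ∑ P ∈ Qb B, rho (e + 1) P.1 P.2| ≤
        (2 * (B : ℝ) + 1) ^ 2 * (CN * (B : ℝ) ^ (d - e) / (2 * H + 1)) := by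
      have e1 : Sg / X - ∑ P ∈ Qb B, rho (e + 1) P.1 P.2 =
          ∑ P ∈ Qb B, (((Ep P).card : ℝ) / X - rho (e + 1) P.1 P.2) := by
        rw [hSg1, Finset.sum_sub_distrib, Finset.sum_div]
      rw [e1]
      refine (Finset.abs_sum_le_sum_abs _ _).trans ?_
      have h2 : ∀ P ∈ Qb B, |((Ep P).card : ℝ) / X - rho (e + 1) P.1 P.2| ≤
          CN * (B : ℝ) ^ (d - e) / (2 * H + 1) := by
        intro P hP
        have h3 := hNP H B (by omega) hB1 P hP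
        rw [← hn, ← hX] at h3
        rw [hEp]
        exact h3
      refine (Finset.sum_le_card_nsmul _ _ _ h2).trans (le_of_eq ?_)
      rw [nsmul_eq_mul, card_Qb]
      push_cast
      ring
    have hρt := rho_tsum (d := e + 1) (by omega) hB1
    rw [← hcd] at hρt
    -- estimates
    have hH5 : h ^ m ≤ 2 * (H : ℝ) + 1 := by rw [hhm]; linarith
    have hXX : X₂ / X = 1 / (2 * (H : ℝ) + 1) := by
      rw [hX2]
      field_simp
    have hinv : 1 / (2 * (H : ℝ) + 1) ≤ 1 / h ^ m :=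
      div_le_div_of_nonneg_left (by norm_num) (by positivity) hH5
    have key : ∀ k : ℕ, k + 1 ≤ m → h ^ k * (1 / h ^ m) ≤ 1 / h := by
      intro k hk
      rw [mul_one_div, div_le_div_iff₀ (by positivity) hhpos, one_mul, ← pow_succ]
      exact pow_le_pow_right₀ hh1 hk
    have hBB : 2 * (B : ℝ) + 1 ≤ 3 * h := by linarith
    have b1 : Kt * (H ^ (n - 1) / B) / X ≤ 2 * Kt * (1 / h) := by
      have h1 : (H : ℝ) ^ (n - 1) ≤ X := by
        rw [hX]
        exact pow_le_pow_left₀ hH0'.le (by linarith) _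
      have h2 : (H : ℝ) ^ (n - 1) / B / X ≤ 2 * (1 / h) := by
        rw [div_div, mul_one_div, div_le_div_iff₀ (by positivity) hhpos]
        calc (H : ℝ) ^ (n - 1) * h ≤ X * (2 * B) := mul_le_mul h1 hhB hhpos.le hXpos.le
          _ = _ := by ring
      calc Kt * (H ^ (n - 1) / B) / X = Kt * (H ^ (n - 1) / B / X) := by ring
        _ ≤ Kt * (2 * (1 / h)) := mul_le_mul_of_nonneg_left h2 hKt
        _ = _ := by ring
    have b6 : (2 * (B : ℝ) + 1) ^ 4 * X₂ / X ≤ 81 * (1 / h) := by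
      have h1 : (2 * (B : ℝ) + 1) ^ 4 ≤ 81 * h ^ 4 := by
        calc (2 * (B : ℝ) + 1) ^ 4 ≤ (3 * h) ^ 4 := pow_le_pow_left₀ (by positivity) hBB 4
          _ = 81 * h ^ 4 := by ring
      rw [mul_div_assoc, hXX]
      calc (2 * (B : ℝ) + 1) ^ 4 * (1 / (2 * (H : ℝ) + 1)) ≤ 81 * h ^ 4 * (1 / h ^ m) :=
            mul_le_mul h1 hinv (by positivity) (by positivity)
        _ = 81 * (h ^ 4 * (1 / h ^ m)) := by ring
        _ ≤ _ := mul_le_mul_of_nonneg_left (key 4 (by omega)) (by norm_num)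
    have b7 : (2 * (B : ℝ) + 1) ^ 2 * (CN * (B : ℝ) ^ (d - e) / (2 * H + 1)) ≤ 9 * CN * (1 / h) := by
      have h1 : (2 * (B : ℝ) + 1) ^ 2 ≤ 9 * h ^ 2 := by
        calc (2 * (B : ℝ) + 1) ^ 2 ≤ (3 * h) ^ 2 := pow_le_pow_left₀ (by positivity) hBB 2
          _ = 9 * h ^ 2 := by ring
      have h2 : CN * (B : ℝ) ^ (d - e) / (2 * H + 1) ≤ CN * h ^ (d - e) * (1 / h ^ m) := by
        have e : CN * (B : ℝ) ^ (d - e) / (2 * (H : ℝ) + 1) =
          (CN * (B : ℝ) ^ (d - e)) * (1 / (2 * H + 1)) := by ring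
        rw [e]
        apply mul_le_mul (mul_le_mul_of_nonneg_left (pow_le_pow_left₀ (by positivity) hBh _) hCN)
          hinv (by positivity) (by positivity)
      calc (2 * (B : ℝ) + 1) ^ 2 * (CN * (B : ℝ) ^ (d - e) / (2 * H + 1)) ≤
            9 * h ^ 2 * (CN * h ^ (d - e) * (1 / h ^ m)) :=
            mul_le_mul h1 h2 (by positivity) (by positivity)
        _ = 9 * CN * (h ^ (d - e + 2) * (1 / h ^ m)) := by
            rw [pow_add]
            ring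
        _ ≤ _ := mul_le_mul_of_nonneg_left (key _ (by omega)) (by positivity)
    have b8 : 12 / (B : ℝ) ≤ 24 * (1 / h) := by
      rw [mul_one_div, div_le_div_iff₀ (by linarith) hhpos]
      linarith
    have c1 : (S.card : ℝ) / X ≤ Sg / X + 2 * Kt * (1 / h) := by
      have h1 : (S.card : ℝ) / X ≤ (Sg + ST.card) / X := div_le_div_of_nonneg_right hup hXpos.le
      have h3 : (ST.card : ℝ) / X ≤ 2 * Kt * (1 / h) :=
        (div_le_div_of_nonneg_right gT hXpos.le).trans b1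
      rw [add_div] at h1
      linarith
    have c2 : Sg / X ≤ (S.card : ℝ) / X + 81 * (1 / h) := by
      have h1 : Sg / X ≤ ((S.card : ℝ) + (2 * (B : ℝ) + 1) ^ 4 * X₂) / X :=
        div_le_div_of_nonneg_right hlow hXpos.le
      rw [add_div] at h1
      linarith
    have c3 : |(S.card : ℝ) / X - Sg / X| ≤ (2 * Kt + 81) * (1 / h) := by
      have h0 : 0 ≤ 2 * Kt * (1 / h) := by positivity
      have h0' : 0 ≤ 1 / h := by positivity
      rw [abs_le, add_mul]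
      constructor <;> linarith
    have c4 : |(S.card : ℝ) / X - cd| ≤ |(S.card : ℝ) / X - Sg / X| +
        (|Sg / X - ∑ P ∈ Qb B, rho (e + 1) P.1 P.2| + |∑ P ∈ Qb B, rho (e + 1) P.1 P.2 - cd|) := by
      have h1 := abs_sub_le ((S.card : ℝ) / X) (Sg / X) cd
      have h2 := abs_sub_le (Sg / X) (∑ P ∈ Qb B, rho (e + 1) P.1 P.2) cd
      linarith
    have c5 : 0 ≤ ((2 * (H₂ : ℝ) + 1) + cd) * (H₂ + 1) * (1 / h) := by positivity
    have c6 : (((2 * (H₂ : ℝ) + 1) + cd) * (H₂ + 1) + (2 * Kt + 81 + 9 * CN +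
      24)) * (1 / h) = ((2 * (H₂ : ℝ) + 1) + cd) * (H₂ + 1) * (1 / h) +
      (2 * Kt + 81) * (1 / h) + 9 * CN * (1 / h) + 24 * (1 / h) := by ring
    rw [c6]
    linarith

end Pool.Agent.TH728.PL
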