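import Pool.Agent.TH728.FX.Pair

/-!
Number of polynomials with bounded coefficients and a given value at a given integer point.
-/

open Finset

namespace Pool.Agent.TH728.PL

open Pool.Agent.TH728.FX

/-- value at a point -/
def vl (J : Finset (ℕ × ℕ)) (c : ℕ × ℕ → ℤ) (u w : ℤ) : ℤ := ∑ p ∈ J, c p * w ^ p.1 * u ^ p.2

open Classical in
/-- polynomials with a given value -/
noncomputable def Sv (J : Finset (ℕ × ℕ)) (H : ℕ) (u w N : ℤ) : Finset (ℕ × ℕ → ℤ) :=
  (Bo J H).filter (fun c => vl J c u w = N)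

lemma mem_Sv {J : Finset (ℕ × ℕ)} {H : ℕ} {u w N : ℤ} {c : ℕ × ℕ → ℤ} :
    c ∈ Sv J H u w N ↔ c ∈ Bo J H ∧ vl J c u w = N := by
  unfold Sv
  rw [Finset.mem_filter]

lemma vl_congr {J : Finset (ℕ × ℕ)} {c c' : ℕ × ℕ → ℤ} (h : ∀ p ∈ J, c p = c' p) (u w : ℤ) :
    vl J c u w = vl J c' u w :=
  Finset.sum_congr rfl fun p hp => by rw [h p hp]

lemma vl_insert {J : Finset (ℕ × ℕ)} {p : ℕ × ℕ} (hp : p ∉ J) (c : ℕ × ℕ → ℤ) (u w : ℤ) :
    vl (insert p J) c u w = c p * w ^ p.1 * u ^ p.2 + vl J c u w :=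
  Finset.sum_insert hp

/-- adding one coefficient: lower bound -/
lemma step_lower {J : Finset (ℕ × ℕ)} {p : ℕ × ℕ} (hp : p ∉ J) {H : ℕ} {u w N : ℤ} {L : ℕ}
    (S : Finset ℤ) (hS : ∀ a ∈ S, |a| ≤ (H : ℤ))
    (hL : ∀ a ∈ S, L ≤ (Sv J H u w (N - a * w ^ p.1 * u ^ p.2)).card) :
    S.card * L ≤ (Sv (insert p J) H u w N).card := by
  classical
  have h1 : (S.sigma (fun a => Sv J H u w (N - a * w ^ p.1 * u ^ p.2))).card ≤
      (Sv (insert p J) H u w N).card := by
    apply Finset.card_le_card_of_injOn (fun x => Function.update x.2 p x.1)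
    · intro x hx
      rw [Finset.mem_coe, Finset.mem_sigma, mem_Sv, mem_Bo] at hx
      obtain ⟨h1, ⟨h2, h3⟩, h4⟩ := hx
      rw [Finset.mem_coe, mem_Sv, mem_Bo]
      beta_reduce
      refine ⟨⟨?_, ?_⟩, ?_⟩
      · intro q
        by_cases hq : q = p
        · rw [hq, Function.update_self]; exact hS _ h1
        · rw [Function.update_of_ne hq]; exact h2 q
      · intro q hq
        rw [Finset.mem_insert, not_or] at hq
        rw [Function.update_of_ne hq.1]
        exact h3 q hq.2
      · rw [vl_insert hp, Function.update_self,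
          vl_congr (c := Function.update x.2 p x.1) (c' := x.2), h4]
        · ring
        · intro q hq
          rw [Function.update_of_ne]
          rintro rfl
          exact hp hq
    · rintro ⟨a, c⟩ hx ⟨a', c'⟩ hx' h
      rw [Finset.mem_coe, Finset.mem_sigma, mem_Sv, mem_Bo] at hx hx'
      simp only at h hx hx'
      have e1 : a = a' := by
        have := congrFun h p
        rwa [Function.update_self, Function.update_self] at this
      subst e1
      have e2 : c = c' := by
        funext q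
        by_cases hq : q = p
        · rw [hq, hx.2.1.2 p hp, hx'.2.1.2 p hp]
        · have := congrFun h q
          rwa [Function.update_of_ne hq, Function.update_of_ne hq] at this
      rw [e2]
  rw [Finset.card_sigma] at h1
  refine le_trans ?_ h1
  calc S.card * L = ∑ _a ∈ S, L := by rw [Finset.sum_const, smul_eq_mul]
    _ ≤ _ := Finset.sum_le_sum hL

/-- the digits -/
def Dg (k : ℕ) : Finset (ℕ × ℕ) := (Finset.range (k + 1)).image (fun i => (i, 0))

lemma mem_Dg {k : ℕ} {p : ℕ × ℕ} : p ∈ Dg k ↔ p.1 ≤ k ∧ p.2 = 0 := by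
  unfold Dg
  rw [Finset.mem_image]
  constructor
  · rintro ⟨i, hi, rfl⟩
    rw [Finset.mem_range] at hi
    exact ⟨by simp only; omega, rfl⟩
  · rintro ⟨h1, h2⟩
    exact ⟨p.1, Finset.mem_range.2 (by omega), Prod.ext rfl h2.symm⟩

lemma card_Dg (k : ℕ) : (Dg k).card = k + 1 := by
  unfold Dg
  rw [Finset.card_image_of_injective _ (fun i j h => (Prod.mk.inj h).1), Finset.card_range]

lemma Dg_succ (k : ℕ) : Dg (k + 1) = insert (k + 1, 0) (Dg k) := by
  ext p
  rw [Finset.mem_insert, mem_Dg, mem_Dg, Prod.ext_iff]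
  simp only
  omega

/-- digits: lower bound -/
lemma dig_lower {H : ℕ} {u w : ℤ} (hw : 2 ≤ w) (hwH : 4 * w ≤ H) {m : ℕ} (hm : 2 * w * m ≤ H)
    (hm1 : 1 ≤ m) (k : ℕ) :
    ∀ N : ℤ, 2 * |N| ≤ H * w ^ k → (m + 1) ^ k ≤ (Sv (Dg k) H u w N).card := by
  induction k with
  | zero =>
    intro N hN
    rw [pow_zero, Nat.one_le_iff_ne_zero, Finset.card_ne_zero]
    refine ⟨fun p => if p = (0, 0) then N else 0, ?_⟩
    rw [mem_Sv, mem_Bo]
    rw [pow_zero, mul_one] at hN
    have hN0 : 0 ≤ |N| := abs_nonneg _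
    refine ⟨⟨?_, ?_⟩, ?_⟩
    · intro p
      split_ifs
      · linarith
      · simp
    · intro p hp
      rw [if_neg]
      rintro rfl
      exact hp (mem_Dg.2 ⟨le_refl _, rfl⟩)
    · unfold vl Dg
      simp
  | succ k ih =>
    intro N hN
    obtain ⟨q, hq⟩ : ∃ q, q = N / w ^ (k + 1) := ⟨_, rfl⟩
    obtain ⟨r, hr⟩ : ∃ r, r = N % w ^ (k + 1) := ⟨_, rfl⟩
    have hwk : 0 < w ^ (k + 1) := by positivity
    have hNqr : w ^ (k + 1) * q + r = N := by rw [hq, hr]; exact Int.mul_ediv_add_emod _ _
    have hr0 : 0 ≤ r := by rw [hr]; exact Int.emod_nonneg _ hwk.ne'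
    have hr1 : r < w ^ (k + 1) := by rw [hr]; exact Int.emod_lt_of_pos _ hwk
    have hqH : 2 * |q| ≤ H + 2 := by
      have h1 : 2 * (w ^ (k + 1) * |q|) ≤ (H + 2) * w ^ (k + 1) := by
        have h2 : w ^ (k + 1) * |q| = |w ^ (k + 1) * q| := by rw [abs_mul, abs_of_pos hwk]
        have h3 : |w ^ (k + 1) * q| ≤ |N| + r := by
          have : w ^ (k + 1) * q = N - r := by linarith
          rw [this]
          have := abs_sub N r
          rwa [abs_of_nonneg hr0] at this
        rw [h2]
        linarith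
      have h4 : w ^ (k + 1) * (2 * |q|) ≤ w ^ (k + 1) * (H + 2) := by linarith
      exact le_of_mul_le_mul_left h4 hwk
    rw [Dg_succ]
    have hpD : ((k + 1, 0) : ℕ × ℕ) ∉ Dg k := by
      rw [mem_Dg]
      simp only
      omega
    have hmH : 4 * (m : ℤ) ≤ H := by
      have : 4 * (m : ℤ) ≤ 2 * w * m := by
        have : 0 ≤ (w - 2) * m := mul_nonneg (by linarith) (by positivity)
        linarith
      linarith
    have h1 := step_lower hpD (H := H) (u := u) (w := w) (N := N) (L := (m + 1) ^ k)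
      ((Finset.range (m + 1)).image (fun i : ℕ => q + i)) (by
        intro a ha
        obtain ⟨i, hi, rfl⟩ := Finset.mem_image.1 ha
        rw [Finset.mem_range] at hi
        have hi' : (i : ℤ) ≤ m := by exact_mod_cast (by omega : i ≤ m)
        have h2 := abs_add_le q i
        rw [Nat.abs_cast] at h2
        have h3 : 8 ≤ (H : ℤ) := by linarith
        have : |q| + (i : ℤ) ≤ H := by linarith
        linarith) (by
        intro a ha
        obtain ⟨i, hi, rfl⟩ := Finset.mem_image.1 ha
        rw [Finset.mem_range] at hi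
        apply ih
        have hi' : (i : ℤ) ≤ m := by exact_mod_cast (by omega : i ≤ m)
        have e : N - (q + i) * w ^ (k + 1, 0).1 * u ^ (k + 1, 0).2 = r - i * w ^ (k + 1) := by
          simp only [pow_zero, mul_one]
          rw [← hNqr]
          ring
        rw [e]
        have h2 : |r - i * w ^ (k + 1)| ≤ m * w ^ (k + 1) := by
          have h3 : (0 : ℤ) ≤ i * w ^ (k + 1) := by positivity
          have h4 : (i : ℤ) * w ^ (k + 1) ≤ m * w ^ (k + 1) := mul_le_mul_of_nonneg_right hi' hwk.le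
          have h5 : (1 : ℤ) * w ^ (k + 1) ≤ m * w ^ (k + 1) :=
            mul_le_mul_of_nonneg_right (by exact_mod_cast hm1) hwk.le
          rw [abs_le]
          constructor <;> linarith
        have h6 : 2 * ((m : ℤ) * w ^ (k + 1)) ≤ H * w ^ k := by
          have : 2 * ((m : ℤ) * w ^ (k + 1)) = (2 * w * m) * w ^ k := by ring
          rw [this]
          exact mul_le_mul_of_nonneg_right hm (by positivity)
        linarith)
    rw [Finset.card_image_of_injective _ (fun i j h => by simpa using h), Finset.card_range] at h1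
    rw [pow_succ']
    exact h1

/-- the other coefficients: lower bound -/
lemma oth_lower {H : ℕ} {u w : ℤ} (hw : 2 ≤ w) (hu : |u| ≤ w) (hwH : 4 * w ≤ H) {m : ℕ}
    (hm : 2 * w * m ≤ H) (hm1 : 1 ≤ m) (e h : ℕ) (hh : h ≤ H) (J : Finset (ℕ × ℕ)) :
    (∀ p ∈ J, p.1 + p.2 ≤ e ∧ p ∉ Dg e) → ∀ N : ℤ, 2 * |N| + 2 * J.card * h * w ^ e ≤ H * w ^ e →
      (2 * h + 1) ^ J.card * (m + 1) ^ e ≤ (Sv (J ∪ Dg e) H u w N).card := by
  classical
  induction J using Finset.induction_on with
  | empty =>
    intro _ N hN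
    rw [Finset.card_empty, pow_zero, one_mul, Finset.empty_union]
    apply dig_lower hw hwH hm hm1
    rw [Finset.card_empty] at hN
    push_cast at hN
    linarith
  | insert p J hp ih =>
    intro hJ N hN
    have hJ' : ∀ q ∈ J, q.1 + q.2 ≤ e ∧ q ∉ Dg e := fun q hq => hJ q (Finset.mem_insert_of_mem hq)
    obtain ⟨hpe, hpD⟩ := hJ p (Finset.mem_insert_self _ _)
    rw [Finset.card_insert_of_notMem hp] at hN ⊢
    rw [Finset.insert_union]
    have hpU : p ∉ J ∪ Dg e := by
      rw [Finset.mem_union]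
      tauto
    have h1 := step_lower hpU (H := H) (u := u) (w := w) (N := N)
      (L := (2 * h + 1) ^ J.card * (m + 1) ^ e) (Finset.Icc (-(h : ℤ)) h) (by
        intro a ha
        have h2 := abs_le.2 (Finset.mem_Icc.1 ha)
        have h3 : (h : ℤ) ≤ H := by exact_mod_cast hh
        linarith) (by
        intro a ha
        have h2 := abs_le.2 (Finset.mem_Icc.1 ha)
        apply ih hJ'
        have hw1 : 1 ≤ w := by linarith
        have hmon : |w ^ p.1 * u ^ p.2| ≤ w ^ e := by
          rw [abs_mul, abs_pow, abs_pow, abs_of_pos (by linarith : 0 < w)]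
          calc w ^ p.1 * |u| ^ p.2 ≤ w ^ p.1 * w ^ p.2 :=
                mul_le_mul_of_nonneg_left (pow_le_pow_left₀ (abs_nonneg _) hu _) (by positivity)
            _ = w ^ (p.1 + p.2) := by rw [pow_add]
            _ ≤ w ^ e := pow_le_pow_right₀ hw1 hpe
        have h3 : |N - a * w ^ p.1 * u ^ p.2| ≤ |N| + h * w ^ e := by
          refine (abs_sub _ _).trans ?_
          rw [mul_assoc, abs_mul]
          have := mul_le_mul h2 hmon (abs_nonneg _) (by positivity)
          linarith
        push_cast at hN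
        linarith)
    rw [Int.card_Icc] at h1
    have e1 : ((h : ℤ) + 1 - -(h : ℤ)).toNat = 2 * h + 1 := by omega
    rw [e1] at h1
    calc _ = (2 * h + 1) * ((2 * h + 1) ^ J.card * (m + 1) ^ e) := by ring
      _ ≤ _ := h1

lemma Dg_sub (e : ℕ) : Dg e ⊆ Jx (e + 1) := by
  intro p hp
  rw [mem_Dg] at hp
  rw [mem_Jx]
  omega

/-- lower bound for the number of polynomials through a point -/
lemma Sv_lower {H : ℕ} {u w : ℤ} (hw : 2 ≤ w) (hu : |u| ≤ w) (hwH : 4 * w ≤ H) {m : ℕ}
    (hm : 2 * w * m ≤ H) (hm1 : 1 ≤ m) (e h : ℕ) (hh : 4 * (Jx (e + 1)).card * h ≤ H) (N : ℤ)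
    (hN : 4 * |N| ≤ H * w ^ e) :
    (2 * h + 1) ^ ((Jx (e + 1)).card - (e + 1)) * (m + 1) ^ e ≤
      (Sv (Jx (e + 1)) H u w N).card := by
  classical
  have hcard : (Jx (e + 1) \ Dg e).card = (Jx (e + 1)).card - (e + 1) := by
    rw [Finset.card_sdiff_of_subset (Dg_sub e), card_Dg]
  have hJpos : 0 < (Jx (e + 1)).card := by
    apply Finset.card_pos.2
    exact ⟨(0, 0), by rw [mem_Jx]; simp⟩
  have h1 := oth_lower (u := u) hw hu hwH hm hm1 e h (by nlinarith) (Jx (e + 1) \ Dg e) (by
    intro p hp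
    rw [Finset.mem_sdiff, mem_Jx] at hp
    exact ⟨by omega, hp.2⟩) N (by
    have h2 : (2 : ℤ) * (2 * (Jx (e + 1) \ Dg e).card * h * w ^ e) ≤ H * w ^ e := by
      have h3 : ((4 * (Jx (e + 1) \ Dg e).card * h : ℕ) : ℤ) ≤ (H : ℤ) := by
        rw [hcard]
        have : 4 * ((Jx (e + 1)).card - (e + 1)) * h ≤ 4 * (Jx (e + 1)).card * h := by
          apply Nat.mul_le_mul_right
          omega
        exact_mod_cast this.trans hh
      push_cast at h3
      have h4 : (0 : ℤ) ≤ w ^ e := by positivity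
      have := mul_le_mul_of_nonneg_right h3 h4
      linarith
    linarith)
  rw [hcard, Finset.sdiff_union_of_subset (Dg_sub e)] at h1
  exact h1

/-- upper bound for the number of polynomials through a point -/
lemma Sv_upper {H : ℕ} (e : ℕ) {u w : ℤ} {T : ℕ} (hT : 1 ≤ T) (h : u.natAbs = T ∨ w.natAbs = T)
    (N : ℤ) : (Sv (Jx (e + 1)) H u w N).card ≤
      (2 * H / T + 1) ^ e * (2 * H + 1) ^ ((Jx (e + 1)).card - (e + 1)) := by
  classical
  obtain ⟨S, hSdef⟩ : ∃ S, S = Sv (Jx (e + 1)) H u w N := ⟨_, rfl⟩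
  obtain ⟨d, hd⟩ : ∃ d, d = e + 1 := ⟨_, rfl⟩
  rw [← hSdef]
  have hS : S ⊆ Bo (Jx (e + 1)) H := by
    intro c hc
    rw [hSdef, mem_Sv] at hc
    exact hc.1
  have hSP : ∀ c ∈ S, vl (Jx (e + 1)) c u w = N := by
    intro c hc
    rw [hSdef, mem_Sv] at hc
    exact hc.2
  rw [← hd] at hS hSP ⊢
  -- general step
  have key : ∀ (v : ℤ) (f : ℕ → ℕ × ℕ), v.natAbs = T → Function.Injective f → (∀ i < d, f i ∈ Jx d) →
      (∀ b b' : ℕ × ℕ → ℤ, b ∈ S → b' ∈ S → (∀ p, (∀ i < d, p ≠ f i) → b p = b' p) →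
        ∑ i ∈ Finset.range d, (b (f i) - b' (f i)) * v ^ i = 0) →
      S.card ≤ (2 * H / T + 1) ^ (d - 1) * (2 * H + 1) ^ ((Jx d).card - d) := by
    intro v f hv hf hfJ hsum
    obtain ⟨D, hD⟩ : ∃ D, D = (Finset.range d).image f := ⟨_, rfl⟩
    have hDc : D.card = d := by
      rw [hD, Finset.card_image_of_injective _ hf, Finset.card_range]
    have hDJ : D ⊆ Jx d := by
      intro p hp
      rw [hD] at hp
      obtain ⟨i, hi, rfl⟩ := Finset.mem_image.1 hp
      exact hfJ i (Finset.mem_range.1 hi)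
    have hv0 : v ≠ 0 := by
      intro h0
      rw [h0] at hv
      simp at hv
      omega
    have h1 := card_fib hS hDJ (k := (2 * H / T + 1) ^ (d - 1)) (by
      intro c' _
      rw [← hv]
      have hagree : ∀ b ∈ S.filter (fun c'' => res D c'' = res D c'),
          ∀ b' ∈ S.filter (fun c'' => res D c'' = res D c'), ∀ p, (∀ i < d, p ≠ f i) → b p = b' p := by
        intro b hb b' hb' p hp
        rw [Finset.mem_filter] at hb hb'
        have := congrFun (hb.2.trans hb'.2.symm) p
        have hpD : p ∉ D := by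
          rw [hD, Finset.mem_image]
          rintro ⟨i, hi, rfl⟩
          exact hp i (Finset.mem_range.1 hi) rfl
        simp only [res, if_neg hpD] at this
        exact this
      apply dig_count (by omega) hv0 _ f
      · intro b hb p
        exact (mem_Bo.1 (hS (Finset.mem_filter.1 hb).1)).1 p
      · intro b hb b' hb' h
        funext p
        by_cases hp : ∀ i < d, p ≠ f i
        · exact hagree b hb b' hb' p hp
        · push Not at hp
          obtain ⟨i, hi, rfl⟩ := hp
          exact h i hi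
      · intro b hb b' hb'
        exact hsum b b' (Finset.mem_filter.1 hb).1 (Finset.mem_filter.1 hb').1
          (hagree b hb b' hb'))
    rw [hDc] at h1
    exact h1
  have hdiff : ∀ b b' : ℕ × ℕ → ℤ, b ∈ S → b' ∈ S →
      ∑ p ∈ Jx d, (b p - b' p) * w ^ p.1 * u ^ p.2 = 0 := by
    intro b b' hb hb'
    have e1 := hSP b hb
    have e2 := hSP b' hb'
    unfold vl at e1 e2
    have : ∑ p ∈ Jx d, (b p - b' p) * w ^ p.1 * u ^ p.2 =
      ∑ p ∈ Jx d, b p * w ^ p.1 * u ^ p.2 - ∑ p ∈ Jx d, b' p * w ^ p.1 * u ^ p.2 := by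
      rw [← Finset.sum_sub_distrib]
      apply Finset.sum_congr rfl
      intro p _
      ring
    rw [this]
    linarith
  have hed : e = d - 1 := by omega
  rw [hed]
  rcases h with h | h
  · apply key u (fun i => (0, i)) h (fun i j hij => (Prod.mk.inj hij).2)
    · intro i hi
      rw [mem_Jx]
      simpa using hi
    · intro b b' hb hb' hag
      have e3 := hdiff b b' hb hb'
      have e4 : (Finset.range d).image (fun i => ((0 : ℕ), i)) ⊆ Jx d := by
        intro p hp
        obtain ⟨i, hi, rfl⟩ := Finset.mem_image.1 hp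
        rw [Finset.mem_range] at hi
        rw [mem_Jx]
        simpa using hi
      rw [← Finset.sum_subset e4] at e3
      · rw [Finset.sum_image (fun i _ j _ hij => (Prod.mk.inj hij).2)] at e3
        rw [← e3]
        apply Finset.sum_congr rfl
        intro i _
        simp
      · intro p _ hp
        rw [hag p]
        · ring
        · intro i hi hpe
          apply hp
          rw [hpe]
          exact Finset.mem_image_of_mem _ (Finset.mem_range.2 hi)
  · apply key w (fun i => (i, 0)) h (fun i j hij => (Prod.mk.inj hij).1)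
    · intro i hi
      rw [mem_Jx]
      simpa using hi
    · intro b b' hb hb' hag
      have e3 := hdiff b b' hb hb'
      have e4 : (Finset.range d).image (fun i => (i, (0 : ℕ))) ⊆ Jx d := by
        intro p hp
        obtain ⟨i, hi, rfl⟩ := Finset.mem_image.1 hp
        rw [Finset.mem_range] at hi
        rw [mem_Jx]
        simpa using hi
      rw [← Finset.sum_subset e4] at e3
      · rw [Finset.sum_image (fun i _ j _ hij => (Prod.mk.inj hij).1)] at e3
        rw [← e3]
        apply Finset.sum_congr rfl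
        intro i _
        simp
      · intro p _ hp
        rw [hag p]
        · ring
        · intro i hi hpe
          apply hp
          rw [hpe]
          exact Finset.mem_image_of_mem _ (Finset.mem_range.2 hi)

/-- the trivial bound -/
lemma Sv_trivial {H : ℕ} (e : ℕ) (u w N : ℤ) : (Sv (Jx (e + 1)) H u w N).card ≤
      (2 * H + 1) ^ ((Jx (e + 1)).card - 1) := by
  classical
  have hDJ : ({(0, 0)} : Finset (ℕ × ℕ)) ⊆ Jx (e + 1) := by
    intro p hp
    rw [Finset.mem_singleton] at hp
    rw [mem_Jx, hp]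
    simp only; omega
  have hS : Sv (Jx (e + 1)) H u w N ⊆ Bo (Jx (e + 1)) H := fun c hc => (mem_Sv.1 hc).1
  have h1 := card_fib hS hDJ (k := 1) (by
      intro b' _
      rw [Finset.card_le_one]
      intro b hb b'' hb''
      rw [Finset.mem_filter, mem_Sv] at hb hb''
      have hag : ∀ p, p ≠ (0, 0) → b p = b'' p := by
        intro p hp
        have := congrFun (hb.2.trans hb''.2.symm) p
        simp only [res, Finset.mem_singleton, if_neg hp] at this
        exact this
      have e1 : vl (Jx (e + 1)) b u w - vl (Jx (e + 1)) b'' u w = 0 := by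
        rw [hb.1.2, hb''.1.2, sub_self]
      unfold vl at e1
      rw [← Finset.sum_sub_distrib, Finset.sum_eq_single (0, 0)] at e1
      · funext p
        by_cases hp : p = (0, 0)
        · rw [hp]
          simp only [pow_zero, mul_one] at e1
          linarith
        · exact hag p hp
      · intro p _ hp
        rw [hag p hp]
        ring
      · intro h
        exact absurd (hDJ (Finset.mem_singleton_self _)) h)
  rw [Finset.card_singleton, one_mul] at h1
  exact h1

open Classical in
/-- polynomials through two points -/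
lemma Sv_pair {H : ℕ} {e : ℕ} (he : 1 ≤ e) {u w u' w' : ℤ} (hne : (u, w) ≠ (u', w')) (N N' : ℤ) :
    (Sv (Jx (e + 1)) H u w N ∩ Sv (Jx (e + 1)) H u' w' N').card ≤
      (2 * H + 1) ^ ((Jx (e + 1)).card - 2) := by
  obtain ⟨p₁, hp1, hp10, hp1v⟩ : ∃ p₁ ∈ Jx (e + 1), p₁ ≠ (0, 0) ∧
      w ^ p₁.1 * u ^ p₁.2 ≠ w' ^ p₁.1 * u' ^ p₁.2 := by
    by_cases h : u = u'
    · refine ⟨(1, 0), ?_, by simp, ?_⟩
      · rw [mem_Jx]; simp only; omega
      · simp only [pow_one, pow_zero, mul_one]
        intro h2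
        exact hne (by rw [h, h2])
    · refine ⟨(0, 1), ?_, by simp, ?_⟩
      · rw [mem_Jx]; simp only; omega
      · simpa using h
  have h00 : ((0, 0) : ℕ × ℕ) ∈ Jx (e + 1) := by rw [mem_Jx]; simp only; omega
  have hDJ : ({(0, 0), p₁} : Finset (ℕ × ℕ)) ⊆ Jx (e + 1) := by
    intro p hp
    rw [Finset.mem_insert, Finset.mem_singleton] at hp
    rcases hp with rfl | rfl
    · exact h00
    · exact hp1
  have hS : Sv (Jx (e + 1)) H u w N ∩ Sv (Jx (e + 1)) H u' w' N' ⊆ Bo (Jx (e + 1)) H :=
    fun c hc => (mem_Sv.1 (Finset.mem_inter.1 hc).1).1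
  have h1 := card_fib hS hDJ (k := 1) (by
      intro b' _
      rw [Finset.card_le_one]
      intro b hb b'' hb''
      rw [Finset.mem_filter, Finset.mem_inter, mem_Sv, mem_Sv] at hb hb''
      have hag : ∀ p, p ∉ ({(0, 0), p₁} : Finset (ℕ × ℕ)) → b p = b'' p := by
        intro p hp
        have := congrFun (hb.2.trans hb''.2.symm) p
        simp only [res, if_neg hp] at this
        exact this
      have key : ∀ x y : ℤ, vl (Jx (e + 1)) b x y = vl (Jx (e + 1)) b'' x y →
          (b (0, 0) - b'' (0, 0)) + (b p₁ - b'' p₁) * (y ^ p₁.1 * x ^ p₁.2) = 0 := by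
        intro x y hxy
        have e1 : vl (Jx (e + 1)) b x y - vl (Jx (e + 1)) b'' x y = 0 := by rw [hxy, sub_self]
        unfold vl at e1
        rw [← Finset.sum_sub_distrib, ← Finset.sum_subset hDJ] at e1
        · rw [Finset.sum_pair (Ne.symm hp10)] at e1
          simp only [pow_zero, mul_one] at e1
          linarith
        · intro p _ hp
          rw [hag p hp]
          ring
      have k1 := key u w (by rw [hb.1.1.2, hb''.1.1.2])
      have k2 := key u' w' (by rw [hb.1.2.2, hb''.1.2.2])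
      have k3 : (b p₁ - b'' p₁) * (w ^ p₁.1 * u ^ p₁.2 - w' ^ p₁.1 * u' ^ p₁.2) = 0 := by linarith
      have k4 : b p₁ - b'' p₁ = 0 := by
        rcases mul_eq_zero.1 k3 with h | h
        · exact h
        · exact absurd (sub_eq_zero.1 h) hp1v
      rw [k4, zero_mul, add_zero] at k1
      funext p
      by_cases hp : p ∈ ({(0, 0), p₁} : Finset (ℕ × ℕ))
      · rw [Finset.mem_insert, Finset.mem_singleton] at hp
        rcases hp with rfl | rfl
        · linarith
        · linarith
      · exact hag p hp)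
  rw [Finset.card_pair (Ne.symm hp10), one_mul] at h1
  exact h1

end Pool.Agent.TH728.PL
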