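import Pool.Agent.TH728.FX.Scale

/-!
The flex numbers are nonzero if no real line meets the curve with high multiplicity at infinity.
-/

open Polynomial Filter

namespace Pool.Agent.TH728.PL

open Pool.Agent.TH728.FX

/-- a function with vanishing second order expansion is cubic -/
lemma cubic_of_Q2 {f : ℝ → ℝ} {K : ℝ} (h : Q2 f 0 0 0 K) : ∀ k : ℕ, ∀ σ : ℝ, |σ| ≤ 1 →
    |f σ| ≤ K * |σ| ^ 2 / 2 ^ k + K * |σ| ^ 3 := by
  have hK := h.nonneg
  intro k
  induction k with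
  | zero =>
    intro σ hσ
    have h1 := h.d1 |σ| σ 0 hσ le_rfl (by rw [abs_zero]; exact abs_nonneg _)
    rw [h.h0] at h1
    simp only [sub_zero, mul_zero] at h1
    have h2 : 0 ≤ K * |σ| ^ 3 := by positivity
    have e : K * |σ| ^ 2 / 2 ^ 0 = K * |σ| * |σ| := by ring
    rw [e]
    linarith
  | succ k ih =>
    intro σ hσ
    have hσ2 : |σ / 2| = |σ| / 2 := by rw [abs_div, abs_of_pos (by norm_num : (0 : ℝ) < 2)]
    have hσ0 : 0 ≤ |σ| := abs_nonneg _
    have h1 := h.d2 |σ| σ (σ / 2) 0 hσ le_rfl (by rw [hσ2]; linarith) (by rw [abs_zero]; exact hσ0)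
    rw [h.h0] at h1
    have e1 : f σ * (σ / 2 - 0) + f (σ / 2) * (0 - σ) + 0 * (σ - σ / 2) +
        (σ - σ / 2) * (σ / 2 - 0) * (0 - σ) * 0 = σ / 2 * (f σ - 2 * f (σ / 2)) := by ring
    have e2 : |(σ - σ / 2) * (σ / 2 - 0) * (0 - σ)| = |σ| / 2 * (|σ| ^ 2 / 2) := by
      have : (σ - σ / 2) * (σ / 2 - 0) * (0 - σ) = -(σ ^ 3 / 4) := by ring
      rw [this, abs_neg, abs_div, abs_pow, abs_of_pos (by norm_num : (0 : ℝ) < 4)]
      ring
    rw [e1, e2, abs_mul, hσ2] at h1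
    by_cases h0 : σ = 0
    · rw [h0, h.h0]
      simp
    have hpos : 0 < |σ| / 2 := by
      have := abs_pos.2 h0
      linarith
    have h2 : |f σ - 2 * f (σ / 2)| ≤ K * |σ| * (|σ| ^ 2 / 2) := by
      have e3 : K * |σ| * (|σ| / 2 * (|σ| ^ 2 / 2)) = |σ| / 2 * (K * |σ| * (|σ| ^ 2 / 2)) := by ring
      rw [e3] at h1
      exact le_of_mul_le_mul_left h1 hpos
    have h3 := ih (σ / 2) (by rw [hσ2]; linarith)
    rw [hσ2] at h3
    have h4 : |f σ| ≤ |f σ - 2 * f (σ / 2)| + 2 * |f (σ / 2)| := by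
      have := abs_add_le (f σ - 2 * f (σ / 2)) (2 * f (σ / 2))
      rw [sub_add_cancel, abs_mul, abs_of_pos (by norm_num : (0 : ℝ) < 2)] at this
      exact this
    have e5 : 2 * (K * (|σ| / 2) ^ 2 / 2 ^ k + K * (|σ| / 2) ^ 3) =
        K * |σ| ^ 2 / 2 ^ (k + 1) + K * |σ| ^ 3 / 4 := by
      rw [pow_succ (2 : ℝ) k]
      field_simp
      ring
    have e6 : K * |σ| * (|σ| ^ 2 / 2) = K * |σ| ^ 3 / 2 := by ring
    have h7 : 0 ≤ K * |σ| ^ 3 := by positivity
    rw [e6] at h2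
    linarith

lemma cubic {f : ℝ → ℝ} {K : ℝ} (h : Q2 f 0 0 0 K) (σ : ℝ) (hσ : |σ| ≤ 1) :
    |f σ| ≤ K * |σ| ^ 3 := by
  have h1 := fun k => cubic_of_Q2 h k σ hσ
  have h2 : Tendsto (fun k : ℕ => K * |σ| ^ 2 / 2 ^ k + K * |σ| ^ 3) atTop (nhds (0 + K * |σ| ^ 3)) := by
    apply Tendsto.add_const
    have h3 : Tendsto (fun k : ℕ => ((1 : ℝ) / 2) ^ k) atTop (nhds 0) :=
      tendsto_pow_atTop_nhds_zero_of_lt_one (by norm_num) (by norm_num)
    have h4 := h3.const_mul (K * |σ| ^ 2)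
    rw [mul_zero] at h4
    refine h4.congr (fun k => ?_)
    rw [one_div, inv_pow]
    ring
  rw [zero_add] at h2
  exact ge_of_tendsto' h2 h1

/-- the polynomial on a line -/
lemma line_eval (A : ℤ[X]) (b : ℕ × ℕ → ℤ) {H : ℕ} (hH : 1 ≤ H) (θ κ : ℝ) {s : ℝ} (hs : s ≠ 0) :
    ∑ j ∈ Finset.range (A.natDegree + 1), (A.coeff j : ℝ) * (θ * s + κ * H) ^ j *
        s ^ (A.natDegree - j) + ∑ p ∈ Jx A.natDegree, (b p : ℝ) * (θ * s + κ * H) ^ p.1 * s ^ p.2 =
      s ^ A.natDegree * Ps A A.natDegree (nb A.natDegree b H) (H / s) (θ + κ * (H / s)) := by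
  obtain ⟨d, hd⟩ : ∃ d, d = A.natDegree := ⟨_, rfl⟩
  rw [← hd]
  have hH' : (H : ℝ) ≠ 0 := by exact_mod_cast (by omega : H ≠ 0)
  have ht : θ * s + κ * H = (θ + κ * (H / s)) * s := by field_simp
  rw [ht]
  obtain ⟨t, htt⟩ : ∃ t, t = θ + κ * (H / s) := ⟨_, rfl⟩
  rw [← htt]
  unfold Ps
  rw [mul_add, Finset.mul_sum]
  congr 1
  · have hnd : (Ar A).natDegree = d := by
      rw [hd]
      exact natDegree_map_eq_of_injective (RingHom.injective_int _) _
    rw [eval_eq_sum_range, hnd, Finset.mul_sum]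
    apply Finset.sum_congr rfl
    intro j hj
    rw [Finset.mem_range] at hj
    rw [coeff_map]
    simp only [eq_intCast]
    have e : s ^ d = s ^ (d - j) * s ^ j := by
      rw [← pow_add]
      congr 1
      omega
    rw [e, mul_pow]
    ring
  · apply Finset.sum_congr rfl
    intro p hp
    rw [mem_Jx] at hp
    unfold nb
    have e : s ^ d = s ^ p.2 * s ^ (d - p.1 - p.2) * s ^ p.1 := by
      rw [← pow_add, ← pow_add]
      congr 1
      omega
    rw [e, mul_pow, div_pow]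
    field_simp

/-- a polynomial of cubic defect has degree at most `d - 3` -/
lemma deg_of_bound {L : ℝ[X]} {d : ℕ} {C S : ℝ}
    (h : ∀ s : ℝ, S ≤ s → |L.eval s| ≤ C * s ^ (d - 3)) : L.natDegree ≤ d - 3 := by
  by_contra hcon
  push Not at hcon
  have h1 := Polynomial.abs_div_tendsto_atTop_atTop_of_degree_gt L (X ^ (d - 3)) (by
    rw [degree_X_pow]
    have hL : L ≠ 0 := by
      rintro rfl
      simp at hcon
    rw [degree_eq_natDegree hL]
    exact_mod_cast hcon) (pow_ne_zero _ X_ne_zero)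
  have h2 := (tendsto_atTop.1 h1 (C + 1)).and (eventually_ge_atTop (max S 1))
  obtain ⟨s, h3, h4⟩ := h2.exists
  have hs1 : 1 ≤ s := (le_max_right _ _).trans h4
  have hsS : S ≤ s := (le_max_left _ _).trans h4
  have h5 := h s hsS
  rw [eval_pow, eval_X, abs_div, abs_of_pos (show 0 < s ^ (d - 3) by positivity),
    le_div_iff₀ (by positivity)] at h3
  have h6 : 0 < s ^ (d - 3) := by positivity
  nlinarith

/-- nonvanishing of the flex number -/
lemma gam_ne {A : ℤ[X]} (hA : Irreducible (A.map (Int.castRingHom ℚ))) (hd : 3 ≤ A.natDegree)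
    {H : ℕ} (hH : 1 ≤ H) {b : ℕ × ℕ → ℤ} (hb : b ∈ Bo (Jx A.natDegree) H)
    (hlines : ∀ θ κ : ℝ, ∀ L : ℝ[X], (∀ s : ℝ, s ≠ 0 → L.eval s =
      ∑ j ∈ Finset.range (A.natDegree + 1), (A.coeff j : ℝ) * (θ * s + κ) ^ j *
        s ^ (A.natDegree - j) + ∑ p ∈ Jx A.natDegree, (b p : ℝ) * (θ * s + κ) ^ p.1 * s ^ p.2) →
      A.natDegree ≤ L.natDegree + 2)
    (L : ℝ → ℝ → ℝ[X]) (hL : ∀ θ κ : ℝ, ∀ s : ℝ, (L θ κ).eval s =
      ∑ j ∈ Finset.range (A.natDegree + 1), (A.coeff j : ℝ) * (θ * s + κ) ^ j *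
        s ^ (A.natDegree - j) + ∑ p ∈ Jx A.natDegree, (b p : ℝ) * (θ * s + κ) ^ p.1 * s ^ p.2)
    {θ : ℝ} (hθ : θ ∈ Rt A) : gam A A.natDegree (nb A.natDegree b H) θ ≠ 0 := by
  intro h0
  have hA0 := ne_zero_of_irr hA
  have hθ0 := (mem_Rt hA0).1 hθ
  have hβ := nb_le hH hb (d := A.natDegree)
  obtain ⟨κ, hκ⟩ : ∃ κ, κ = kap A A.natDegree (nb A.natDegree b H) θ := ⟨_, rfl⟩
  obtain ⟨K, hK, hline⟩ := ps_line A A.natDegree (|θ| + |κ|)
  have hQ := hline _ hβ θ κ (by linarith [abs_nonneg κ]) (by linarith [abs_nonneg θ])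
  have h1 : q1 A A.natDegree (nb A.natDegree b H) θ κ = 0 := by
    rw [hκ]
    exact q1_kap _ _ _ (deriv_ne_zero hA hθ0)
  have h2 : q2 A A.natDegree (nb A.natDegree b H) θ κ = 0 := by
    rw [hκ]
    exact h0
  rw [hθ0, h1, h2] at hQ
  have h3 := cubic hQ
  have hH0 : (0 : ℝ) < H := by exact_mod_cast (by omega : 0 < H)
  have h4 := deg_of_bound (L := L θ (κ * H)) (d := A.natDegree) (C := K * H ^ 3) (S := H) (by
    intro s hs
    have hs0 : 0 < s := by linarith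
    rw [hL, line_eval A b hH θ κ hs0.ne', abs_mul, abs_of_pos (show 0 < s ^ A.natDegree by positivity)]
    have h5 : |(H : ℝ) / s| ≤ 1 := by
      rw [abs_of_pos (by positivity), div_le_one hs0]
      exact hs
    have h6 := h3 _ h5
    rw [abs_of_pos (show 0 < (H : ℝ) / s by positivity)] at h6
    calc s ^ A.natDegree * |Ps A A.natDegree (nb A.natDegree b H) (H / s) (θ + κ * (H / s))| ≤
          s ^ A.natDegree * (K * (H / s) ^ 3) := mul_le_mul_of_nonneg_left h6 (by positivity)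
      _ = K * H ^ 3 * s ^ (A.natDegree - 3) := by
        have e : s ^ A.natDegree = s ^ (A.natDegree - 3) * s ^ 3 := by
          rw [← pow_add]
          congr 1
          omega
        rw [e, div_pow]
        field_simp)
  have h5 := hlines θ (κ * H) (L θ (κ * H)) (fun s _ => hL θ (κ * H) s)
  omega

end Pool.Agent.TH728.PL
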