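import Pool.Agent.TH728.PL.Low
import Pool.Agent.TH728.PL.Up2

/-!
The lower bound: conclusion.
-/

open Polynomial

namespace Pool.Agent.TH728.PL

open Pool.Agent.TH728.FX

lemma card_ge_three {e : ℕ} (he : 1 ≤ e) : 3 ≤ (Jx (e + 1)).card := by
  have h1 : ({(0, 0), (1, 0), (0, 1)} : Finset (ℕ × ℕ)) ⊆ Jx (e + 1) := by
    intro p hp
    simp only [Finset.mem_insert, Finset.mem_singleton] at hp
    rw [mem_Jx]
    rcases hp with rfl | rfl | rfl <;> simp only <;> omega
  have h2 := Finset.card_le_card h1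
  simpa using h2

/-- lower bound for the sum -/
lemma sum_low {e T : ℕ} (he : e = 1 ∨ e = 2) (hT : 2 ≤ T) :
    (if e = 1 then (T : ℝ) / 2 else Real.log (T + 1) - 1) ≤
      ∑ y ∈ Finset.Icc 2 T, (y : ℝ) * (1 / (y : ℝ)) ^ e := by
  have hT2 : (2 : ℝ) ≤ T := by exact_mod_cast hT
  have hy : ∀ y ∈ Finset.Icc 2 T, (0 : ℝ) < y := by
    intro y hy
    rw [Finset.mem_Icc] at hy
    exact_mod_cast (by omega : 0 < y)
  rcases he with rfl | rfl
  · rw [if_pos rfl]
    have h1 : ∑ y ∈ Finset.Icc 2 T, (y : ℝ) * (1 / (y : ℝ)) ^ 1 = ∑ y ∈ Finset.Icc 2 T, (1 : ℝ) := by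
      apply Finset.sum_congr rfl
      intro y h
      have := hy y h
      rw [pow_one]
      field_simp
    rw [h1, Finset.sum_const, Nat.card_Icc, nsmul_eq_mul, mul_one, Nat.cast_sub (by omega)]
    push_cast
    linarith
  · rw [if_neg (by norm_num)]
    have h1 : ∑ y ∈ Finset.Icc 2 T, (y : ℝ) * (1 / (y : ℝ)) ^ 2 = ∑ y ∈ Finset.Icc 2 T, 1 / (y : ℝ) := by
      apply Finset.sum_congr rfl
      intro y h
      have := hy y h
      field_simp
    rw [h1]
    have h2 := harm_ge T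
    have h3 : Finset.Icc 1 T = insert 1 (Finset.Icc 2 T) := by
      ext y
      rw [Finset.mem_insert, Finset.mem_Icc, Finset.mem_Icc]
      omega
    rw [h3, Finset.sum_insert (by rw [Finset.mem_Icc]; omega)] at h2
    push_cast at h2
    linarith

set_option maxHeartbeats 1000000 in
theorem lower {A : ℤ[X]} {e : ℕ} (he : 1 ≤ e) (hed : e + 4 ≤ A.natDegree) {H₀ : ℕ}
    {b : ℕ × ℕ → ℤ} (hb : b ∈ Bo (Jx A.natDegree) H₀) :
    ∃ c : ℝ, 0 < c ∧ ∃ H₁ : ℕ, ∀ (H : ℕ) (S : Finset (ℕ × ℕ → ℤ)), H₁ ≤ H →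
      (∀ u w : ℤ, Sv (Jx (e + 1)) H u w (-Vl A A.natDegree b u w) ⊆ S) →
      c * H ^ ((Jx (e + 1)).card - 1) * phi A.natDegree e H ≤ (S.card : ℝ) := by
  classical
  obtain ⟨d, hd⟩ : ∃ d, d = A.natDegree := ⟨_, rfl⟩
  obtain ⟨n, hn⟩ : ∃ n, n = (Jx (e + 1)).card := ⟨_, rfl⟩
  have hn1 : e + 1 ≤ n := by rw [hn]; exact card_ge e
  have hn3 : 3 ≤ n := by rw [hn]; exact card_ge_three he
  rw [← hd] at hb hed ⊢
  rw [← hn]
  by_cases he12 : e = 1 ∨ e = 2
  · obtain ⟨C, hC1, hC⟩ := Vl_size A hb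
    have hC1' : (1 : ℝ) ≤ C := by exact_mod_cast hC1
    obtain ⟨c₀, hc0⟩ : ∃ c₀ : ℝ, c₀ = (1 / (4 * (n : ℝ))) ^ (n - (e + 1)) * (1 / 2) ^ e := ⟨_, rfl⟩
    have hn0 : (0 : ℝ) < n := by exact_mod_cast (by omega : 0 < n)
    have hn1' : (1 : ℝ) ≤ n := by exact_mod_cast (by omega : 1 ≤ n)
    have hc0pos : 0 < c₀ := by rw [hc0]; positivity
    have hc01 : c₀ ≤ 1 := by
      rw [hc0]
      have h1 : (1 / (4 * (n : ℝ))) ^ (n - (e + 1)) ≤ 1 := by
        apply pow_le_one₀ (by positivity)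
        rw [div_le_one (by positivity)]
        linarith
      have h2 : ((1 : ℝ) / 2) ^ e ≤ 1 := pow_le_one₀ (by norm_num) (by norm_num)
      have h3 : 0 ≤ ((1 : ℝ) / 2) ^ e := by positivity
      calc _ ≤ 1 * (1 / 2 : ℝ) ^ e := mul_le_mul_of_nonneg_right h1 h3
        _ ≤ 1 := by linarith
    have h3n : (1 : ℝ) ≤ 3 ^ n := one_le_pow₀ (by norm_num)
    obtain ⟨δ, hδ⟩ : ∃ δ : ℝ, δ = c₀ / (32 * 3 ^ n * C) := ⟨_, rfl⟩
    have hδ0 : 0 < δ := by rw [hδ]; positivity
    have hδmul : δ * (32 * 3 ^ n * C) = c₀ := by rw [hδ]; field_simp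
    have h3nC : (1 : ℝ) ≤ 3 ^ n * C := by nlinarith
    have hδ32 : 32 * δ ≤ 1 := by
      have : δ * (32 * 1) ≤ δ * (32 * 3 ^ n * C) := by
        apply mul_le_mul_of_nonneg_left _ hδ0.le
        nlinarith
      linarith
    have hδC : 4 * C * δ ≤ 1 := by
      have : δ * (4 * C) ≤ δ * (32 * 3 ^ n * C) := by
        apply mul_le_mul_of_nonneg_left _ hδ0.le
        nlinarith
      linarith
    have hδ3 : 8 * 3 ^ n * δ ≤ c₀ := by
      have : δ * (8 * 3 ^ n) ≤ δ * (32 * 3 ^ n * C) := by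
        apply mul_le_mul_of_nonneg_left _ hδ0.le
        nlinarith
      linarith
    have hδ1 : δ ≤ 1 := by linarith
    obtain ⟨a, ha⟩ : ∃ a, a = d - e := ⟨_, rfl⟩
    have ha4 : 4 ≤ a := by omega
    have ha0 : (0 : ℝ) < a := by exact_mod_cast (by omega : 0 < a)
    refine ⟨c₀ * δ / (8 * a), by positivity,
      ⌈(8 / δ) ^ a⌉₊ + ⌈Real.exp (2 * a * (2 - Real.log δ))⌉₊ + 2, ?_⟩
    intro H S hHH hS
    have hH2 : 2 ≤ H := by omega
    have hH1 : (1 : ℝ) ≤ H := by exact_mod_cast (by omega : 1 ≤ H)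
    have hHr : (⌈(8 / δ) ^ a⌉₊ : ℝ) + ⌈Real.exp (2 * a * (2 - Real.log δ))⌉₊ + 2 ≤ H := by
      exact_mod_cast hHH
    have hHa : (8 / δ) ^ a ≤ H := by
      have h1 := Nat.le_ceil ((8 / δ) ^ a)
      have h2 : (0 : ℝ) ≤ (⌈Real.exp (2 * a * (2 - Real.log δ))⌉₊ : ℝ) := Nat.cast_nonneg _
      linarith
    have hHe : Real.exp (2 * a * (2 - Real.log δ)) ≤ H := by
      have h1 := Nat.le_ceil (Real.exp (2 * a * (2 - Real.log δ)))
      have h2 : (0 : ℝ) ≤ (⌈(8 / δ) ^ a⌉₊ : ℝ) := Nat.cast_nonneg _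
      linarith
    obtain ⟨ρ, hρ, hρ1, hρa, hρs⟩ := root_facts (H := H) (a := a) (by omega) (by omega)
    have hρ8 : 8 / δ ≤ ρ := by
      rw [← hρa] at hHa
      exact le_of_pow_le_pow_left₀ (by omega) (by linarith) hHa
    have hδρ : 8 ≤ δ * ρ := by
      rw [div_le_iff₀ hδ0] at hρ8
      linarith
    obtain ⟨T, hT⟩ : ∃ T : ℕ, T = ⌊δ * ρ⌋₊ := ⟨_, rfl⟩
    have hTu : (T : ℝ) ≤ δ * ρ := by rw [hT]; exact Nat.floor_le (by positivity)
    have hTl : δ * ρ < T + 1 := by rw [hT]; exact Nat.lt_floor_add_one _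
    have hT2 : 2 ≤ T := by
      have : (2 : ℝ) ≤ T := by linarith
      exact_mod_cast this
    have hT0 : (0 : ℝ) ≤ T := Nat.cast_nonneg _
    have hsqH : √(H : ℝ) * √H = H := Real.mul_self_sqrt (by linarith)
    have hs1 : 1 ≤ √(H : ℝ) := by rw [Real.one_le_sqrt]; exact hH1
    have hρH : ρ ≤ H := by nlinarith
    have hTH : 4 * T ≤ H := by
      have : 4 * (T : ℝ) ≤ H := by
        have : δ * ρ ≤ 1 / 32 * ρ := mul_le_mul_of_nonneg_right (by linarith) (by linarith)
        linarith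
      exact_mod_cast this
    have hρ4 : ρ ^ 4 ≤ H := by
      rw [← hρa]
      exact pow_le_pow_right₀ hρ1 ha4
    have hg : ∀ x y : ℕ, 2 ≤ y → y ≤ T → x ≤ y → 4 * |(-Vl A d b x y)| ≤ H * (y : ℤ) ^ e := by
      intro x y hy hyT hxy
      rw [abs_neg]
      have h1 := hC x y (by omega) hxy
      have h2 : 4 * (C : ℝ) * (y : ℝ) ^ d ≤ H * (y : ℝ) ^ e := by
        have e1 : (y : ℝ) ^ d = y ^ a * y ^ e := by
          rw [← pow_add]
          congr 1
          omega
        rw [e1, ← mul_assoc]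
        apply mul_le_mul_of_nonneg_right _ (by positivity)
        have hyT' : (y : ℝ) ≤ δ * ρ := by
          have : (y : ℝ) ≤ T := by exact_mod_cast hyT
          linarith
        have h3 : (y : ℝ) ^ a ≤ (δ * ρ) ^ a := pow_le_pow_left₀ (by positivity) hyT' _
        rw [mul_pow, hρa] at h3
        have h4 : δ ^ a ≤ δ := pow_le_of_le_one hδ0.le hδ1 (by omega)
        calc 4 * (C : ℝ) * (y : ℝ) ^ a ≤ 4 * C * (δ ^ a * H) :=
              mul_le_mul_of_nonneg_left h3 (by positivity)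
          _ ≤ 4 * C * (δ * H) := by
              apply mul_le_mul_of_nonneg_left _ (by positivity)
              exact mul_le_mul_of_nonneg_right h4 (by linarith)
          _ = (4 * C * δ) * H := by ring
          _ ≤ 1 * H := mul_le_mul_of_nonneg_right hδC (by linarith)
          _ = H := one_mul _
      have h5 : 4 * (C : ℤ) * (y : ℤ) ^ d ≤ H * (y : ℤ) ^ e := by exact_mod_cast h2
      linarith
    have hB := bonf_lower he hTH (fun u w => -Vl A d b u w) hg S hS
    rw [← hn, ← hc0] at hB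
    obtain ⟨W, hW⟩ : ∃ W : ℝ, W = (H : ℝ) ^ (n - 1) := ⟨_, rfl⟩
    have hW0 : 0 < W := by rw [hW]; positivity
    rw [← hW] at hB ⊢
    have hpair : (T : ℝ) ^ 4 * (2 * H + 1) ^ (n - 2) ≤ (if e = 1 then (T : ℝ) else 1) * (c₀ / 8) * W := by
      have h1 : (2 * (H : ℝ) + 1) ^ (n - 2) * H ≤ 3 ^ n * W := by
        have h2 := pow_box (H := H) (n := n) (k := 1) (by omega) (by omega)
        rw [pow_one] at h2
        rw [hW, mul_comm]
        exact h2
      have h2 : (T : ℝ) ^ 4 ≤ (if e = 1 then (T : ℝ) else 1) * (δ * H) := by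
        have hδ3' : δ ^ 3 ≤ δ := pow_le_of_le_one hδ0.le hδ1 (by norm_num)
        have hT3 : (T : ℝ) ^ 3 ≤ δ * H := by
          have h3 : (T : ℝ) ^ 3 ≤ (δ * ρ) ^ 3 := pow_le_pow_left₀ hT0 hTu _
          rw [mul_pow] at h3
          have h4 : ρ ^ 3 ≤ H := (pow_le_pow_right₀ hρ1 (by norm_num)).trans hρ4
          exact h3.trans (mul_le_mul hδ3' h4 (by positivity) hδ0.le)
        split_ifs
        · calc (T : ℝ) ^ 4 = T * T ^ 3 := by ring
            _ ≤ _ := mul_le_mul_of_nonneg_left hT3 hT0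
        · have h3 : (T : ℝ) ^ 4 ≤ (δ * ρ) ^ 4 := pow_le_pow_left₀ hT0 hTu _
          rw [mul_pow] at h3
          have hδ4' : δ ^ 4 ≤ δ := pow_le_of_le_one hδ0.le hδ1 (by norm_num)
          rw [one_mul]
          exact h3.trans (mul_le_mul hδ4' hρ4 (by positivity) hδ0.le)
      have hif : (0 : ℝ) ≤ (if e = 1 then (T : ℝ) else 1) := by split_ifs <;> linarith
      calc (T : ℝ) ^ 4 * (2 * H + 1) ^ (n - 2) ≤
            ((if e = 1 then (T : ℝ) else 1) * (δ * H)) * (2 * H + 1) ^ (n - 2) :=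
            mul_le_mul_of_nonneg_right h2 (by positivity)
        _ = (if e = 1 then (T : ℝ) else 1) * δ * ((2 * (H : ℝ) + 1) ^ (n - 2) * H) := by ring
        _ ≤ (if e = 1 then (T : ℝ) else 1) * δ * (3 ^ n * W) :=
            mul_le_mul_of_nonneg_left h1 (mul_nonneg hif hδ0.le)
        _ = (if e = 1 then (T : ℝ) else 1) * (8 * 3 ^ n * δ / 8) * W := by ring
        _ ≤ _ := by
            apply mul_le_mul_of_nonneg_right _ hW0.le
            apply mul_le_mul_of_nonneg_left _ hif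
            linarith
    have hsum := sum_low he12 hT2
    have hB2 : c₀ * (W * (if e = 1 then (T : ℝ) / 2 else Real.log (T + 1) - 1)) ≤
        (S.card : ℝ) + (if e = 1 then (T : ℝ) else 1) * (c₀ / 8) * W := by
      refine le_trans ?_ (hB.trans ?_)
      · apply mul_le_mul_of_nonneg_left _ hc0pos.le
        exact mul_le_mul_of_nonneg_left hsum hW0.le
      · linarith
    have ha1 : (1 : ℝ) ≤ a := by exact_mod_cast (by omega : 1 ≤ a)
    by_cases he1 : e = 1
    · rw [if_pos he1, if_pos he1] at hB2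
      have h5 : phi d e H = ρ := by
        rw [hρ]
        unfold phi
        rw [if_pos he1, ha, he1]
        congr 2
        rw [Nat.cast_sub (by omega)]
        push_cast
        ring
      rw [h5]
      have h6 : c₀ * δ / (8 * a) * W * ρ ≤ c₀ * (δ * ρ) / 8 * W := by
        have : c₀ * δ / (8 * a) ≤ c₀ * δ / 8 := by
          apply div_le_div_of_nonneg_left (by positivity) (by norm_num)
          linarith
        calc _ ≤ c₀ * δ / 8 * W * ρ := by
              apply mul_le_mul_of_nonneg_right _ (by linarith)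
              exact mul_le_mul_of_nonneg_right this hW0.le
          _ = _ := by ring
      refine h6.trans ?_
      have h7 : c₀ * (δ * ρ) / 8 * W ≤ c₀ * (3 * T / 8) * W := by
        apply mul_le_mul_of_nonneg_right _ hW0.le
        rw [mul_div_assoc]
        apply mul_le_mul_of_nonneg_left _ hc0pos.le
        linarith
      have h8 : c₀ * (3 * T / 8) * W = c₀ * (W * ((T : ℝ) / 2)) - T * (c₀ / 8) * W := by ring
      linarith
    · have he2 : e = 2 := by tauto
      rw [if_neg he1, if_neg he1] at hB2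
      have h5 : phi d e H = Real.log H := by
        unfold phi
        rw [if_neg he1, if_pos he2]
      rw [h5]
      have h6 : 2 * a * (2 - Real.log δ) ≤ Real.log H := by
        have := Real.log_le_log (Real.exp_pos _) hHe
        rwa [Real.log_exp] at this
      have h7 : Real.log δ + Real.log H / a ≤ Real.log (T + 1) := by
        have h8 := Real.log_le_log (by positivity) hTl.le
        rw [Real.log_mul hδ0.ne' (by linarith), hρ, Real.log_rpow (by linarith)] at h8
        have e1 : 1 / (a : ℝ) * Real.log H = Real.log H / a := by ring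
        rwa [e1] at h8
      have h8 : 2 - Real.log δ ≤ Real.log H / (2 * a) := by
        rw [le_div_iff₀ (by positivity)]
        linarith
      have h9 : Real.log H / a = Real.log H / (2 * a) + Real.log H / (2 * a) := by
        field_simp
        ring
      have h10 : Real.log H / (2 * a) + 1 / 8 ≤ Real.log (T + 1) - 1 := by linarith
      have hlogH0 : 0 ≤ Real.log H := Real.log_nonneg hH1
      have h11 : c₀ * δ / (8 * a) * W * Real.log H ≤ c₀ * W * (Real.log H / (2 * a)) := by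
        have h12 : c₀ * δ / (8 * a) * W * Real.log H = c₀ * W * (Real.log H / (2 * a)) * (δ / 4) := by
          field_simp
          ring
        rw [h12]
        apply mul_le_of_le_one_right (by positivity)
        linarith
      have h12 : c₀ * W * (Real.log H / (2 * a) + 1 / 8) ≤ c₀ * W * (Real.log (T + 1) - 1) :=
        mul_le_mul_of_nonneg_left h10 (by positivity)
      linarith
  · push Not at he12
    refine ⟨1, one_pos, (Vl A d b 0 0).natAbs, ?_⟩
    intro H S hHH hS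
    have h1 := low_zero (H := H) (e := e) (N := -Vl A d b 0 0) (by
      rw [abs_neg, Int.abs_eq_natAbs]
      exact_mod_cast hHH)
    have h2 := h1.trans (Finset.card_le_card (hS 0 0))
    rw [← hn] at h2
    have h3 : phi d e H = 1 := by
      unfold phi
      rw [if_neg he12.1, if_neg he12.2]
    rw [h3, one_mul, mul_one]
    have h4 : H ^ (n - 1) ≤ (2 * H + 1) ^ (n - 1) := Nat.pow_le_pow_left (by omega) _
    exact_mod_cast h4.trans h2

end Pool.Agent.TH728.PL
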