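import Pool.Agent.TH728.FX.MvT
import Pool.Agent.TH728.PL.Low2
import Pool.Agent.TH728.PL.Flex

/-!
Transfer to polynomials in two variables.
-/

open Polynomial Finset

namespace Pool.Agent.TH728.PL

open Pool.Agent.TH728.FX
open Pool.Agent.H322R2 (Ix mem_Ix cf FM coeff_FM degree_fin2 kC kN len main3)

/-- the value of the fixed polynomial plus a lower order one -/
lemma Vl_add (A : ℤ[X]) {d e H : ℕ} (hed : e + 1 ≤ d) (b c : ℕ × ℕ → ℤ)
    (hc : c ∈ Bo (Jx (e + 1)) H) (u w : ℤ) :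
    Vl A d (fun p => b p + c p) u w = Vl A d b u w + vl (Jx (e + 1)) c u w := by
  have hsub : Jx (e + 1) ⊆ Jx d := by
    intro p hp
    rw [mem_Jx] at hp ⊢
    omega
  have h1 : vl (Jx (e + 1)) c u w = ∑ p ∈ Jx d, c p * w ^ p.1 * u ^ p.2 := by
    unfold vl
    apply Finset.sum_subset hsub
    intro p _ hp
    rw [(mem_Bo.1 hc).2 p hp]
    ring
  rw [h1]
  unfold Vl
  rw [add_assoc, ← Finset.sum_add_distrib]
  congr 1
  apply Finset.sum_congr rfl
  intro p _
  ring

lemma aeval_mon (x y : ℝ) (m : ℤ) (a b : ℕ) :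
    MvPolynomial.aeval ![x, y] (MvPolynomial.monomial (Finsupp.single 0 a + Finsupp.single 1 b) m) =
      (m : ℝ) * x ^ a * y ^ b := by
  have h1 : MvPolynomial.monomial (Finsupp.single 0 a + Finsupp.single 1 b) m =
      (MvPolynomial.C m * MvPolynomial.X 0 ^ a * MvPolynomial.X 1 ^ b :
      MvPolynomial (Fin 2) ℤ) := by
    rw [MvPolynomial.X_pow_eq_monomial, MvPolynomial.X_pow_eq_monomial, MvPolynomial.C_mul_monomial,
      MvPolynomial.monomial_mul, mul_one, mul_one]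
  rw [h1]
  simp

lemma aeval_cv (A : ℤ[X]) (d : ℕ) (b : ℕ × ℕ → ℤ) (u w : ℝ) :
    MvPolynomial.aeval ![w, u] (FM (cv A d b)) =
      ∑ j ∈ Finset.range (d + 1), (A.coeff j : ℝ) * w ^ j * u ^ (d - j) +
        ∑ p ∈ Jx d, (b p : ℝ) * w ^ p.1 * u ^ p.2 := by
  have h1 : MvPolynomial.aeval ![w, u] (FM (cv A d b)) = ∑ p : ↥(Ix d),
      (fun p : ℕ × ℕ => ((if p.1 + p.2 = d then A.coeff p.1 else b p : ℤ) : ℝ) *
        w ^ p.1 * u ^ p.2) p.1 := by
    rw [FM, map_sum]
    apply Finset.sum_congr rfl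
    intro p _
    rw [aeval_mon, cv]
  rw [h1, Finset.sum_coe_sort (Ix d)
    (fun p : ℕ × ℕ => ((if p.1 + p.2 = d then A.coeff p.1 else b p : ℤ) : ℝ) * w ^ p.1 * u ^ p.2)]
  have hsub : Jx d ⊆ Ix d := by
    intro p hp
    rw [mem_Jx] at hp
    rw [mem_Ix]
    omega
  rw [← Finset.sum_sdiff hsub]
  have h2 : Ix d \ Jx d = (range (d + 1)).image (fun j => (j, d - j)) := by
    ext p
    rw [Finset.mem_sdiff, mem_Ix, mem_Jx, Finset.mem_image]
    constructor
    · rintro ⟨h1, h2⟩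
      refine ⟨p.1, Finset.mem_range.2 (by omega), ?_⟩
      ext
      · rfl
      · simp only; omega
    · rintro ⟨j, hj, rfl⟩
      rw [Finset.mem_range] at hj
      simp only
      omega
  rw [h2, Finset.sum_image (fun i _ j _ h => (Prod.mk.inj h).1)]
  congr 1
  · apply Finset.sum_congr rfl
    intro j hj
    rw [Finset.mem_range] at hj
    rw [if_pos]
    simp only
    omega
  · apply Finset.sum_congr rfl
    intro p hp
    rw [mem_Jx] at hp
    rw [if_neg (by omega)]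

lemma exists_bound (G : MvPolynomial (Fin 2) ℤ) : ∃ H₀ : ℕ, 1 ≤ H₀ ∧ ∀ m, |G.coeff m| ≤ (H₀ : ℤ) := by
  refine ⟨1 + len G, by omega, ?_⟩
  intro m
  by_cases hm : m ∈ G.support
  · have h1 : (G.coeff m).natAbs ≤ len G :=
      Finset.single_le_sum (f := fun m => (G.coeff m).natAbs) (fun _ _ => Nat.zero_le _) hm
    rw [Int.abs_eq_natAbs]
    exact_mod_cast (by omega : (G.coeff m).natAbs ≤ 1 + len G)
  · rw [MvPolynomial.notMem_support_iff.1 hm, abs_zero]
    positivity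

/-- the part of lower degree -/
lemma low_part {G : MvPolynomial (Fin 2) ℤ} {d : ℕ} (hd : 1 ≤ d) (hG : G.totalDegree = d) :
    (G - MvPolynomial.homogeneousComponent d G).totalDegree < d := by
  have h1 : (G - MvPolynomial.homogeneousComponent d G).totalDegree ≤ d - 1 := by
    apply Finset.sup_le
    intro m hm
    rw [MvPolynomial.mem_support_iff, MvPolynomial.coeff_sub,
      MvPolynomial.coeff_homogeneousComponent] at hm
    have h4 : (m.sum fun _ e => e) = m.degree := rfl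
    rw [h4]
    by_contra hcon
    push Not at hcon
    apply hm
    by_cases h5 : m.degree = d
    · rw [if_pos h5, sub_self]
    · rw [if_neg h5, sub_zero]
      by_contra h6
      have h7 := MvPolynomial.le_totalDegree (MvPolynomial.mem_support_iff.2 h6)
      rw [h4, hG] at h7
      omega
  omega

lemma add_gB2 {d e H₀ H : ℕ} (hed : e + 1 ≤ d) {b c : ℕ × ℕ → ℤ} (hb : b ∈ Bo (Jx d) H₀)
    (hc : c ∈ Bo (Jx (e + 1)) H) :
    (fun p => b p + c p) ∈ Bo (Jx d) (H₀ + H) ∧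
      gB d b + gB (e + 1) c = gB d (fun p => b p + c p) := by
  have h1 : (fun p => b p + c p) ∈ Bo (Jx d) (H₀ + H) := by
    rw [mem_Bo]
    constructor
    · intro p
      have h2 := (mem_Bo.1 hb).1 p
      have h3 := (mem_Bo.1 hc).1 p
      push_cast
      exact (abs_add_le _ _).trans (add_le_add h2 h3)
    · intro p hp
      rw [(mem_Bo.1 hb).2 p hp, (mem_Bo.1 hc).2 p, add_zero]
      rw [mem_Jx] at hp ⊢
      omega
  refine ⟨h1, ?_⟩
  ext m
  rw [MvPolynomial.coeff_add, coeff_gB hb, coeff_gB hc, coeff_gB h1]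

lemma len_gB {e H : ℕ} {c : ℕ × ℕ → ℤ} (hc : c ∈ Bo (Jx (e + 1)) H) :
    len (gB (e + 1) c) ≤ (Jx (e + 1)).card * H := by
  have h1 : (gB (e + 1) c).support ⊆ (Jx (e + 1)).image
      (fun p => (Finsupp.single 0 p.1 + Finsupp.single 1 p.2 : Fin 2 →₀ ℕ)) := by
    intro m hm
    rw [MvPolynomial.mem_support_iff, coeff_gB hc] at hm
    rw [Finset.mem_image]
    refine ⟨(m 0, m 1), ?_, single_add m⟩
    by_contra h
    exact hm ((mem_Bo.1 hc).2 _ h)
  unfold len
  have h2 : ∀ m ∈ (gB (e + 1) c).support, ((gB (e + 1) c).coeff m).natAbs ≤ H := by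
    intro m _
    rw [coeff_gB hc]
    have := (mem_Bo.1 hc).1 (m 0, m 1)
    rw [Int.abs_eq_natAbs] at this
    exact_mod_cast this
  refine (Finset.sum_le_sum h2).trans ?_
  rw [Finset.sum_const, smul_eq_mul]
  exact Nat.mul_le_mul_right _ ((Finset.card_le_card h1).trans Finset.card_image_le)

lemma gam_rb {A : ℤ[X]} {d : ℕ} {b : ℕ × ℕ → ℤ} {H : ℕ} (hH : 1 ≤ H) {θ : ℝ}
    (h : gam A d (nb d b H) θ ≠ 0) : gam A d (rb b) θ ≠ 0 := by
  intro h0
  apply h
  rw [gam_nb A d b hH, h0, zero_div]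

theorem phase (d e : ℕ) (he : 1 ≤ e) (hed : e + 4 ≤ d) (G : MvPolynomial (Fin 2) ℤ)
    (hG : G.totalDegree = d)
    (hirr : Irreducible (MvPolynomial.map (Int.castRingHom ℚ)
      (MvPolynomial.homogeneousComponent d G)))
    (hlines : ∀ p q : Fin 2 → ℝ, q ≠ 0 → d ≤
      (MvPolynomial.aeval (fun i => (C (p i) + C (q i) * X : ℝ[X])) G).natDegree + 2) :
    ∃ c K : ℝ, 0 < c ∧ ∃ H₁ : ℕ, ∀ H : ℕ, H₁ ≤ H →
      c * H ^ ((e + 1) * (e + 2) / 2 - 1) * phi d e H ≤
        (Set.ncard {R : MvPolynomial (Fin 2) ℤ | R.totalDegree < e + 1 ∧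
          (∀ m, |R.coeff m| ≤ (H : ℤ)) ∧ ∃ x y : ℤ, MvPolynomial.eval ![x, y] (G + R) = 0} : ℝ) ∧
      (Set.ncard {R : MvPolynomial (Fin 2) ℤ | R.totalDegree < e + 1 ∧
          (∀ m, |R.coeff m| ≤ (H : ℤ)) ∧ ∃ x y : ℤ, MvPolynomial.eval ![x, y] (G + R) = 0} : ℝ) ≤
        K * H ^ ((e + 1) * (e + 2) / 2 - 1) * phi d e H := by
  classical
  obtain ⟨f, hfdef⟩ : ∃ f, f = MvPolynomial.homogeneousComponent d G := ⟨_, rfl⟩
  have hf : f.IsHomogeneous d := by
    rw [hfdef]
    exact MvPolynomial.homogeneousComponent_isHomogeneous d G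
  rw [← hfdef] at hirr
  obtain ⟨A, hAdef⟩ : ∃ A, A = dh f := ⟨_, rfl⟩
  have hdeg : A.natDegree = d := by rw [hAdef]; exact dh_deg (by omega) hf hirr
  have hA : Irreducible (A.map (Int.castRingHom ℚ)) := by rw [hAdef]; exact dh_irr (by omega) hf hirr
  have hlow : (G - f).totalDegree < d := by rw [hfdef]; exact low_part (by omega) hG
  obtain ⟨H₀, hH0, hHb⟩ := exists_bound (G - f)
  obtain ⟨b, hbdef⟩ : ∃ b, b = cB (G - f) := ⟨_, rfl⟩
  have hb : b ∈ Bo (Jx d) H₀ := by rw [hbdef]; exact cB_mem hlow hHb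
  have hgb : gB d b = G - f := by rw [hbdef]; exact gB_cB hlow hHb
  have hGf : G = f + gB d b := by rw [hgb]; ring
  have hJ : (Jx (e + 1)).card = (e + 1) * (e + 2) / 2 := card_Jx (e + 1)
  -- evaluation
  have heval : ∀ H : ℕ, ∀ c ∈ Bo (Jx (e + 1)) H, ∀ u w : ℤ,
      MvPolynomial.eval ![w, u] (G + gB (e + 1) c) = Vl A d b u w + vl (Jx (e + 1)) c u w := by
    intro H c hc u w
    obtain ⟨h1, h2⟩ := add_gB2 (show e + 1 ≤ d by omega) hb hc
    rw [hGf, add_assoc, h2, add_gB hf h1, eval_cv, ← hAdef, Vl_add A (by omega) b c hc]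
  have hiff : ∀ H : ℕ, ∀ c ∈ Bo (Jx (e + 1)) H, ∀ u w : ℤ,
      MvPolynomial.eval ![w, u] (G + gB (e + 1) c) = 0 ↔ vl (Jx (e + 1)) c u w = -Vl A d b u w := by
    intro H c hc u w
    rw [heval H c hc]
    constructor <;> intro h <;> linarith
  -- the polynomials `G` on lines
  have hGcv : G = FM (cv A d b) := by rw [hGf, add_gB hf hb, hAdef]
  have hgam : ∀ θ ∈ Rt A, gam A A.natDegree (nb A.natDegree b H₀) θ ≠ 0 := by
    intro θ hθ
    have key : ∀ θ κ s : ℝ, ((MvPolynomial.aeval (fun i => (C ((![κ, 0] : Fin 2 → ℝ) i) +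
        C ((![θ, 1] : Fin 2 → ℝ) i) * X : ℝ[X])) G).eval s) =
        ∑ j ∈ Finset.range (A.natDegree + 1), (A.coeff j : ℝ) * (θ * s + κ) ^ j *
        s ^ (A.natDegree - j) + ∑ p ∈ Jx A.natDegree, (b p : ℝ) * (θ * s + κ) ^ p.1 * s ^ p.2 := by
      intro θ κ s
      have h1 : ((MvPolynomial.aeval (fun i => (C ((![κ, 0] : Fin 2 → ℝ) i) +
        C ((![θ, 1] : Fin 2 → ℝ) i) * X : ℝ[X])) G).eval s) =
          MvPolynomial.aeval ![θ * s + κ, s] G := by
        rw [← Polynomial.coe_evalRingHom]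
        rw [MvPolynomial.aeval_def, MvPolynomial.aeval_def, MvPolynomial.hom_eval₂]
        congr 1
        · ext
          simp
        · funext i
          fin_cases i
          · simp
            ring
          · simp
      rw [h1, hGcv, hdeg, aeval_cv]
    apply gam_ne hA (by omega) hH0 (by rw [hdeg]; exact hb) _
      (fun θ κ => MvPolynomial.aeval (fun i => (C ((![κ, 0] : Fin 2 → ℝ) i) +
        C ((![θ, 1] : Fin 2 → ℝ) i) * X : ℝ[X])) G) key hθ
    intro θ κ L hL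
    have h1 := hlines ![κ, 0] ![θ, 1] (by
      intro h
      have := congrFun h 1
      simp at this)
    have h2 : L = MvPolynomial.aeval (fun i => (C ((![κ, 0] : Fin 2 → ℝ) i) +
        C ((![θ, 1] : Fin 2 → ℝ) i) * X : ℝ[X])) G := by
      apply Polynomial.eq_of_infinite_eval_eq
      apply Set.Infinite.mono (s := {0}ᶜ)
      · intro s hs
        rw [Set.mem_ofPred_eq, hL s hs, key]
      · exact Set.Finite.infinite_compl (Set.finite_singleton 0)
    rw [h2, hdeg]
    exact h1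
  -- constants for the large points
  obtain ⟨Z, hZ⟩ : ∃ Z : ℕ, Z = (d + 1) * (len G + (Jx (e + 1)).card) := ⟨_, rfl⟩
  have hZ1 : 1 ≤ Z := by
    rw [hZ]
    have := card_ge e
    exact Nat.mul_pos (by omega) (by omega)
  obtain ⟨K, H₁, hup⟩ := upper hA he (by rw [hdeg]; exact hed) hH0 (by rw [hdeg]; exact hb) hgam
    (kN d) (Z ^ kC d) (kC d) (Nat.one_le_pow _ _ hZ1)
  obtain ⟨c₀, hc0, H₂, hlo⟩ := lower (A := A) he (by rw [hdeg]; exact hed) (b := b)
    (by rw [hdeg]; exact hb)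
  rw [hdeg] at hup hlo
  refine ⟨c₀, K, hc0, H₁ + H₂ + 1, ?_⟩
  intro H hH
  rw [set_eq (by omega) (fun R => ∃ x y : ℤ, MvPolynomial.eval ![x, y] (G + R) = 0), ← hJ]
  obtain ⟨S, hS⟩ : ∃ S, S = (Bo (Jx (e + 1)) H).filter
    (fun c => ∃ x y : ℤ, MvPolynomial.eval ![x, y] (G + gB (e + 1) c) = 0) := ⟨_, rfl⟩
  rw [← hS]
  have hSsub : S ⊆ Bo (Jx (e + 1)) H := by rw [hS]; exact Finset.filter_subset _ _
  constructor
  · apply hlo H S (by omega)
    intro u w c hc
    rw [mem_Sv] at hc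
    rw [hS, Finset.mem_filter]
    exact ⟨hc.1, w, u, (hiff H c hc.1 u w).2 hc.2⟩
  · obtain ⟨Sb, hSb⟩ : ∃ Sb, Sb = S.filter (fun c => ∃ u w : ℤ,
      MvPolynomial.eval ![w, u] (G + gB (e + 1) c) = 0 ∧ Z ^ kC d * H ^ kC d < max w.natAbs u.natAbs) :=
      ⟨_, rfl⟩
    apply hup H S Sb (by omega) hSsub
    · -- few large points
      have hSbP : ∀ c ∈ Sb, ∃ P : ℤ × ℤ, MvPolynomial.eval ![P.1, P.2] (G + gB (e + 1) c) = 0 ∧
          Z ^ kC d * H ^ kC d < max P.1.natAbs P.2.natAbs := by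
        intro c hc
        rw [hSb, Finset.mem_filter] at hc
        obtain ⟨_, u, w, h1, h2⟩ := hc
        exact ⟨(w, u), h1, h2⟩
      choose! P hP using hSbP
      have hlenG : len G ≤ (len G + (Jx (e + 1)).card) * H := by
        have : 1 ≤ H := by omega
        nlinarith
      have hm := main3 G ((len G + (Jx (e + 1)).card) * H) (by omega) (by
        rw [hG, ← hfdef]; exact hirr) (by rw [hG]; exact hlines) hlenG
      rw [hG] at hm
      obtain ⟨T, hT⟩ : ∃ T, T = Sb.image (fun c => (gB (e + 1) c, (P c).1, (P c).2)) := ⟨_, rfl⟩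
      have hSbB : Sb ⊆ Bo (Jx (e + 1)) H := by
        rw [hSb]
        exact (Finset.filter_subset _ _).trans hSsub
      have hTc : T.card = Sb.card := by
        rw [hT]
        apply Finset.card_image_of_injOn
        intro c hc c' hc' h
        apply gB_inj (d := e + 1) (H := H) (hSbB hc) (hSbB hc')
        exact (Prod.mk.inj h).1
      rw [← hTc]
      have hsub : (T : Set (MvPolynomial (Fin 2) ℤ × ℤ × ℤ)) ⊆ {t | t.1.totalDegree + 4 ≤ d ∧
          len t.1 ≤ (len G + (Jx (e + 1)).card) * H ∧ MvPolynomial.eval ![t.2.1, t.2.2] (G + t.1) = 0 ∧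
          ((d + 1) * ((len G + (Jx (e + 1)).card) * H)) ^ (kC d) < max t.2.1.natAbs t.2.2.natAbs} := by
        intro t ht
        rw [Finset.mem_coe, hT, Finset.mem_image] at ht
        obtain ⟨c, hc, rfl⟩ := ht
        refine ⟨?_, ?_, (hP c hc).1, ?_⟩
        · have := gB_deg (d := e + 1) (by omega) (hSbB hc)
          simp only
          omega
        · simp only
          refine (len_gB (hSbB hc)).trans (Nat.mul_le_mul_right _ (by omega))
        · have h1 := (hP c hc).2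
          rw [← mul_pow, hZ, mul_assoc] at h1
          exact h1
      have h1 := (Set.encard_le_encard hsub).trans hm
      rw [Set.encard_coe_eq_coe_finsetCard] at h1
      exact_mod_cast h1
    · intro c hc
      have hc' := hc
      rw [hS, Finset.mem_filter] at hc'
      obtain ⟨hcB, x, y, hxy⟩ := hc'
      refine ⟨y, x, (hiff H c hcB y x).1 hxy, ?_⟩
      intro hbig
      rw [hSb, Finset.mem_filter]
      refine ⟨hc, y, x, hxy, ?_⟩
      rw [max_comm]
      exact hbig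

end Pool.Agent.TH728.PL
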