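import Pool.Agent.TH728.PL.Mv
import Pool.Agent.TH728.PL.Asy3

/-!
Transfer of the asymptotic formula to polynomials in two variables.
-/

open Polynomial Finset

namespace Pool.Agent.TH728.PL

open Pool.Agent.TH728.FX
open Pool.Agent.H322R2 (Ix mem_Ix cf FM coeff_FM degree_fin2 kC kN len main3)

theorem phase3 (d e : ℕ) (he : 3 ≤ e) (hed : e + 4 ≤ d) (G : MvPolynomial (Fin 2) ℤ)
    (hG : G.totalDegree = d)
    (hirr : Irreducible (MvPolynomial.map (Int.castRingHom ℚ)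
      (MvPolynomial.homogeneousComponent d G)))
    (hlines : ∀ p q : Fin 2 → ℝ, q ≠ 0 → d ≤
      (MvPolynomial.aeval (fun i => (C (p i) + C (q i) * X : ℝ[X])) G).natDegree + 2) :
    ∃ K : ℝ, ∀ H : ℕ, 1 ≤ H →
      |(Set.ncard {R : MvPolynomial (Fin 2) ℤ | R.totalDegree < e + 1 ∧
          (∀ m, |R.coeff m| ≤ (H : ℤ)) ∧ ∃ x y : ℤ, MvPolynomial.eval ![x, y] (G + R) = 0} : ℝ) /
        (2 * H + 1) ^ ((e + 1) * (e + 2) / 2 - 1) - ∑' P : ℤ × ℤ, rho (e + 1) P.1 P.2| ≤
        K * (1 / (H : ℝ) ^ (1 / ((d : ℝ) - e + 3))) := by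
  classical
  obtain ⟨f, hfdef⟩ : ∃ f, f = MvPolynomial.homogeneousComponent d G := ⟨_, rfl⟩
  have hf : f.IsHomogeneous d := by
    rw [hfdef]
    exact MvPolynomial.homogeneousComponent_isHomogeneous d G
  rw [← hfdef] at hirr
  obtain ⟨A, hAdef⟩ : ∃ A, A = dh f := ⟨_, rfl⟩
  have hdeg : A.natDegree = d := by rw [hAdef]; exact dh_deg (by omega) hf hirr
  have hA : Irreducible (A.map (Int.castRingHom ℚ)) := by rw [hAdef]; exact dh_irr (by omega) hf hirr
  have hlow : (G - f).totalDegree < d := by rw [hfdef]; exact low_part (by omega) hG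
  obtain ⟨H₀, hH0, hHb⟩ := exists_bound (G - f)
  obtain ⟨b, hbdef⟩ : ∃ b, b = cB (G - f) := ⟨_, rfl⟩
  have hb : b ∈ Bo (Jx d) H₀ := by rw [hbdef]; exact cB_mem hlow hHb
  have hgb : gB d b = G - f := by rw [hbdef]; exact gB_cB hlow hHb
  have hGf : G = f + gB d b := by rw [hgb]; ring
  have hJ : (Jx (e + 1)).card = (e + 1) * (e + 2) / 2 := card_Jx (e + 1)
  -- evaluation
  have heval : ∀ H : ℕ, ∀ c ∈ Bo (Jx (e + 1)) H, ∀ u w : ℤ,
      MvPolynomial.eval ![w, u] (G + gB (e + 1) c) = Vl A d b u w + vl (Jx (e + 1)) c u w := by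
    intro H c hc u w
    obtain ⟨h1, h2⟩ := add_gB2 (show e + 1 ≤ d by omega) hb hc
    rw [hGf, add_assoc, h2, add_gB hf h1, eval_cv, ← hAdef, Vl_add A (by omega) b c hc]
  have hiff : ∀ H : ℕ, ∀ c ∈ Bo (Jx (e + 1)) H, ∀ u w : ℤ,
      MvPolynomial.eval ![w, u] (G + gB (e + 1) c) = 0 ↔ vl (Jx (e + 1)) c u w = -Vl A d b u w := by
    intro H c hc u w
    rw [heval H c hc]
    constructor <;> intro h <;> linarith
  -- the polynomials `G` on lines
  have hGcv : G = FM (cv A d b) := by rw [hGf, add_gB hf hb, hAdef]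
  have hgam : ∀ θ ∈ Rt A, gam A A.natDegree (nb A.natDegree b H₀) θ ≠ 0 := by
    intro θ hθ
    have key : ∀ θ κ s : ℝ, ((MvPolynomial.aeval (fun i => (C ((![κ, 0] : Fin 2 → ℝ) i) +
        C ((![θ, 1] : Fin 2 → ℝ) i) * X : ℝ[X])) G).eval s) =
        ∑ j ∈ Finset.range (A.natDegree + 1), (A.coeff j : ℝ) * (θ * s + κ) ^ j *
        s ^ (A.natDegree - j) + ∑ p ∈ Jx A.natDegree, (b p : ℝ) * (θ * s + κ) ^ p.1 * s ^ p.2 := by
      intro θ κ s
      have h1 : ((MvPolynomial.aeval (fun i => (C ((![κ, 0] : Fin 2 → ℝ) i) +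
        C ((![θ, 1] : Fin 2 → ℝ) i) * X : ℝ[X])) G).eval s) =
          MvPolynomial.aeval ![θ * s + κ, s] G := by
        rw [← Polynomial.coe_evalRingHom]
        rw [MvPolynomial.aeval_def, MvPolynomial.aeval_def, MvPolynomial.hom_eval₂]
        congr 1
        · ext
          simp
        · funext i
          fin_cases i
          · simp
            ring
          · simp
      rw [h1, hGcv, hdeg, aeval_cv]
    apply gam_ne hA (by omega) hH0 (by rw [hdeg]; exact hb) _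
      (fun θ κ => MvPolynomial.aeval (fun i => (C ((![κ, 0] : Fin 2 → ℝ) i) +
        C ((![θ, 1] : Fin 2 → ℝ) i) * X : ℝ[X])) G) key hθ
    intro θ κ L hL
    have h1 := hlines ![κ, 0] ![θ, 1] (by
      intro h
      have := congrFun h 1
      simp at this)
    have h2 : L = MvPolynomial.aeval (fun i => (C ((![κ, 0] : Fin 2 → ℝ) i) +
        C ((![θ, 1] : Fin 2 → ℝ) i) * X : ℝ[X])) G := by
      apply Polynomial.eq_of_infinite_eval_eq
      apply Set.Infinite.mono (s := {0}ᶜ)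
      · intro s hs
        rw [Set.mem_ofPred_eq, hL s hs, key]
      · exact Set.Finite.infinite_compl (Set.finite_singleton 0)
    rw [h2, hdeg]
    exact h1
  -- constants for the large points
  obtain ⟨Z, hZ⟩ : ∃ Z : ℕ, Z = (d + 1) * (len G + (Jx (e + 1)).card) := ⟨_, rfl⟩
  have hZ1 : 1 ≤ Z := by
    rw [hZ]
    have := card_ge e
    exact Nat.mul_pos (by omega) (by omega)
  obtain ⟨K, hasy⟩ := asym3 hA he (by rw [hdeg]; exact hed) hH0 (by rw [hdeg]; exact hb) hgam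
    (kN d) (Z ^ kC d) (kC d) (Nat.one_le_pow _ _ hZ1)
  rw [hdeg] at hasy
  refine ⟨K, ?_⟩
  intro H hH
  rw [set_eq (by omega) (fun R => ∃ x y : ℤ, MvPolynomial.eval ![x, y] (G + R) = 0), ← hJ]
  obtain ⟨S, hS⟩ : ∃ S, S = (Bo (Jx (e + 1)) H).filter
    (fun c => ∃ x y : ℤ, MvPolynomial.eval ![x, y] (G + gB (e + 1) c) = 0) := ⟨_, rfl⟩
  rw [← hS]
  have hSsub : S ⊆ Bo (Jx (e + 1)) H := by rw [hS]; exact Finset.filter_subset _ _
  obtain ⟨Sb, hSb⟩ : ∃ Sb, Sb = S.filter (fun c => ∃ u w : ℤ,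
      MvPolynomial.eval ![w, u] (G + gB (e + 1) c) = 0 ∧ Z ^ kC d * H ^ kC d < max w.natAbs u.natAbs) :=
      ⟨_, rfl⟩
  apply hasy H S Sb hH hSsub
  · intro u w c hc
    rw [mem_Sv] at hc
    rw [hS, Finset.mem_filter]
    exact ⟨hc.1, w, u, (hiff H c hc.1 u w).2 hc.2⟩
  · -- few large points
    have hSbP : ∀ c ∈ Sb, ∃ P : ℤ × ℤ, MvPolynomial.eval ![P.1, P.2] (G + gB (e + 1) c) = 0 ∧
        Z ^ kC d * H ^ kC d < max P.1.natAbs P.2.natAbs := by
      intro c hc
      rw [hSb, Finset.mem_filter] at hc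
      obtain ⟨_, u, w, h1, h2⟩ := hc
      exact ⟨(w, u), h1, h2⟩
    choose! P hP using hSbP
    have hlenG : len G ≤ (len G + (Jx (e + 1)).card) * H := by
      have : 1 ≤ H := by omega
      nlinarith
    have hm := main3 G ((len G + (Jx (e + 1)).card) * H) (by omega) (by
      rw [hG, ← hfdef]; exact hirr) (by rw [hG]; exact hlines) hlenG
    rw [hG] at hm
    obtain ⟨T, hT⟩ : ∃ T, T = Sb.image (fun c => (gB (e + 1) c, (P c).1, (P c).2)) := ⟨_, rfl⟩
    have hSbB : Sb ⊆ Bo (Jx (e + 1)) H := by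
      rw [hSb]
      exact (Finset.filter_subset _ _).trans hSsub
    have hTc : T.card = Sb.card := by
      rw [hT]
      apply Finset.card_image_of_injOn
      intro c hc c' hc' h
      apply gB_inj (d := e + 1) (H := H) (hSbB hc) (hSbB hc')
      exact (Prod.mk.inj h).1
    rw [← hTc]
    have hsub : (T : Set (MvPolynomial (Fin 2) ℤ × ℤ × ℤ)) ⊆ {t | t.1.totalDegree + 4 ≤ d ∧
        len t.1 ≤ (len G + (Jx (e + 1)).card) * H ∧ MvPolynomial.eval ![t.2.1, t.2.2] (G + t.1) = 0 ∧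
        ((d + 1) * ((len G + (Jx (e + 1)).card) * H)) ^ (kC d) < max t.2.1.natAbs t.2.2.natAbs} := by
      intro t ht
      rw [Finset.mem_coe, hT, Finset.mem_image] at ht
      obtain ⟨c, hc, rfl⟩ := ht
      refine ⟨?_, ?_, (hP c hc).1, ?_⟩
      · have := gB_deg (d := e + 1) (by omega) (hSbB hc)
        simp only
        omega
      · simp only
        refine (len_gB (hSbB hc)).trans (Nat.mul_le_mul_right _ (by omega))
      · have h1 := (hP c hc).2
        rw [← mul_pow, hZ, mul_assoc] at h1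
        exact h1
    have h1 := (Set.encard_le_encard hsub).trans hm
    rw [Set.encard_coe_eq_coe_finsetCard] at h1
    exact_mod_cast h1
  · intro c hc
    have hc' := hc
    rw [hS, Finset.mem_filter] at hc'
    obtain ⟨hcB, x, y, hxy⟩ := hc'
    exact ⟨y, x, (hiff H c hcB y x).1 hxy⟩
  · intro c hc u w huw hbig
    have hcB := hSsub hc
    rw [hSb, Finset.mem_filter]
    refine ⟨hc, u, w, (hiff H c hcB u w).2 huw, ?_⟩
    rw [max_comm]
    exact hbig

end Pool.Agent.TH728.PL
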