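import Pool.Agent.TH728.PL.WinB

/-!
Number of integer points near an asymptote at one scale.
-/

open Polynomial

namespace Pool.Agent.TH728.PL

open Pool.Agent.TH728.FX

lemma sc_count {A : ℤ[X]} (hA : Irreducible (A.map (Int.castRingHom ℚ)))
    (hd : 4 ≤ A.natDegree) (K₀ : ℝ) (hK0 : 1 ≤ K₀) {H : ℕ} (hH : 1 ≤ H) {b : ℕ × ℕ → ℤ}
    (hb : b ∈ Bo (Jx A.natDegree) H)
    (hg : ∀ θ ∈ Rt A, gam A A.natDegree (nb A.natDegree b H) θ ≠ 0) :
    ∃ C K : ℝ, 1 ≤ C ∧ 1 ≤ K ∧ ∀ θ ∈ Rt A, ∀ M V : ℝ, 1 ≤ V → 1 ≤ M → C * V ≤ M ^ 2 →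
      ∀ S : Finset (ℤ × ℤ), (∀ P ∈ S, Nr A b θ K₀ M V P) → (S.card : ℝ) ≤ K * √V := by
  classical
  obtain ⟨C, c, hC, hc0, hc1, hwin⟩ := win_count hA hd K₀ hK0 hH hb hg
  obtain ⟨L, hL⟩ : ∃ L : ℕ, L = ⌈2 / c⌉₊ + 1 := ⟨_, rfl⟩
  have hLc : 2 / c ≤ L - 1 := by
    rw [hL]
    push_cast
    have := Nat.le_ceil (2 / c)
    linarith
  have hsC : 1 ≤ √C := by
    rw [Real.one_le_sqrt]
    exact hC
  refine ⟨C, (2 * √C + 2) * (2 * L + 1), hC, ?_, ?_⟩
  · have : (0 : ℝ) ≤ L := Nat.cast_nonneg _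
    nlinarith
  intro θ hθ M V hV hM hCV S hS
  have hM0 : 0 < M := by linarith
  have hcM : 0 < c * M := by positivity
  have hsV : 1 ≤ √V := by
    rw [Real.one_le_sqrt]
    exact hV
  obtain ⟨k, hk⟩ : ∃ k : ℕ, k = ⌊2 * (√C * √V) + 2⌋₊ := ⟨_, rfl⟩
  have hk' : (k : ℝ) ≤ 2 * (√C * √V) + 2 := by
    rw [hk]
    exact Nat.floor_le (by positivity)
  have h1 := Finset.card_le_mul_card_image (f := fun P : ℤ × ℤ => ⌊(P.1 : ℝ) / (c * M)⌋) S k (by
    intro j _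
    rw [hk]
    apply Nat.le_floor
    obtain ⟨T, hT⟩ : ∃ T, T = S.filter (fun P : ℤ × ℤ => ⌊(P.1 : ℝ) / (c * M)⌋ = j) := ⟨_, rfl⟩
    rw [← hT]
    rcases Nat.eq_zero_or_pos T.card with h0 | h0
    · rw [h0]
      push_cast
      positivity
    · obtain ⟨m, hm⟩ : ∃ m, m = (T.card - 1) / 2 := ⟨_, rfl⟩
      have hm1 : 2 * m + 1 ≤ T.card := by omega
      have hm2 : T.card ≤ 2 * m + 2 := by omega
      have h2 := hwin θ hθ M V hV hM hCV T (by
        intro P hP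
        rw [hT, Finset.mem_filter] at hP
        exact hS P hP.1) (by
        intro P hP Q hQ
        rw [hT, Finset.mem_filter] at hP hQ
        have e1 := Int.floor_le ((P.1 : ℝ) / (c * M))
        have e2 := Int.lt_floor_add_one ((P.1 : ℝ) / (c * M))
        have e3 := Int.floor_le ((Q.1 : ℝ) / (c * M))
        have e4 := Int.lt_floor_add_one ((Q.1 : ℝ) / (c * M))
        rw [hP.2] at e1 e2
        rw [hQ.2] at e3 e4
        have e5 : |(P.1 : ℝ) / (c * M) - Q.1 / (c * M)| ≤ 1 := by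
          rw [abs_le]
          constructor <;> linarith
        rw [← sub_div, abs_div, abs_of_pos hcM, div_le_one hcM] at e5
        exact e5) m hm1
      have h3 : (m : ℝ) ≤ √C * √V := by
        rw [← Real.sqrt_mul (by linarith)]
        exact Real.le_sqrt_of_sq_le h2
      have h4 : (T.card : ℝ) ≤ 2 * m + 2 := by exact_mod_cast hm2
      linarith)
  have h2 : (S.image (fun P : ℤ × ℤ => ⌊(P.1 : ℝ) / (c * M)⌋)) ⊆ Finset.Icc (-(L : ℤ)) L := by
    intro j hj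
    obtain ⟨P, hP, rfl⟩ := Finset.mem_image.1 hj
    have hN := hS P hP
    have h3 : |(P.1 : ℝ) / (c * M)| ≤ L - 1 := by
      rw [abs_div, abs_of_pos hcM]
      refine le_trans ?_ hLc
      rw [div_le_div_iff₀ hcM hc0]
      have := mul_le_mul_of_nonneg_right hN.2.1 hc0.le
      linarith
    have h4 := abs_le.1 h3
    rw [Finset.mem_Icc]
    constructor
    · rw [Int.le_floor]
      push_cast
      linarith
    · have : ((⌊(P.1 : ℝ) / (c * M)⌋ : ℤ) : ℝ) ≤ ((L : ℤ) : ℝ) := by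
        have := Int.floor_le ((P.1 : ℝ) / (c * M))
        push_cast
        linarith
      exact_mod_cast this
  have h3 := Finset.card_le_card h2
  rw [Int.card_Icc] at h3
  have h4 : ((L : ℤ) + 1 - -(L : ℤ)).toNat = 2 * L + 1 := by omega
  rw [h4] at h3
  have h5 : S.card ≤ k * (2 * L + 1) := h1.trans (Nat.mul_le_mul_left _ h3)
  have h6 : (S.card : ℝ) ≤ k * (2 * L + 1) := by exact_mod_cast h5
  refine h6.trans ?_
  have h7 : (0 : ℝ) ≤ 2 * L + 1 := by positivity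
  have h8 : 2 * (√C * √V) + 2 ≤ (2 * √C + 2) * √V := by
    have e : (2 * √C + 2) * √V = 2 * (√C * √V) + 2 * √V := by ring
    linarith
  calc (k : ℝ) * (2 * L + 1) ≤ ((2 * √C + 2) * √V) * (2 * L + 1) :=
        mul_le_mul_of_nonneg_right (hk'.trans h8) h7
    _ = _ := by ring

end Pool.Agent.TH728.PL
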