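import Pool.Agent.TH728.PL.Fib
import Pool.Agent.TH728.PL.Near
import Pool.Agent.TH728.PL.ScB

/-!
Counting the polynomials through the integer points of the different ranges.
-/

open Polynomial

namespace Pool.Agent.TH728.PL

open Pool.Agent.TH728.FX

open Classical in
lemma bi_card {ι κ α : Type*} (I : Finset ι) (Q : ι → Finset κ) (F : κ → Finset α) (q s : ι → ℝ)
    (hq : ∀ T ∈ I, ((Q T).card : ℝ) ≤ q T) (hs : ∀ T ∈ I, ∀ P ∈ Q T, ((F P).card : ℝ) ≤ s T)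
    (hs0 : ∀ T ∈ I, 0 ≤ s T) :
    ((I.biUnion (fun T => (Q T).biUnion F)).card : ℝ) ≤ ∑ T ∈ I, q T * s T := by
  have h1 : (I.biUnion (fun T => (Q T).biUnion F)).card ≤ ∑ T ∈ I, ((Q T).biUnion F).card :=
    Finset.card_biUnion_le
  have h2 : ((I.biUnion (fun T => (Q T).biUnion F)).card : ℝ) ≤
      ∑ T ∈ I, (((Q T).biUnion F).card : ℝ) := by exact_mod_cast h1
  refine h2.trans (Finset.sum_le_sum ?_)
  intro T hT
  have h3 : ((Q T).biUnion F).card ≤ ∑ P ∈ Q T, (F P).card := Finset.card_biUnion_le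
  have h4 : (((Q T).biUnion F).card : ℝ) ≤ ∑ P ∈ Q T, ((F P).card : ℝ) := by exact_mod_cast h3
  refine h4.trans ((Finset.sum_le_sum (hs T hT)).trans ?_)
  rw [Finset.sum_const, nsmul_eq_mul]
  exact mul_le_mul_of_nonneg_right (hq T hT) (hs0 T hT)

lemma Sv_real {H : ℕ} (e : ℕ) {u w : ℤ} {T : ℕ} (hT : 1 ≤ T) (hTH : T ≤ H)
    (h : u.natAbs = T ∨ w.natAbs = T) (N : ℤ) :
    ((Sv (Jx (e + 1)) H u w N).card : ℝ) ≤
      (3 * H / T) ^ e * (2 * H + 1) ^ ((Jx (e + 1)).card - (e + 1)) := by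
  have h1 := Sv_upper (H := H) e hT h N
  have h2 : ((Sv (Jx (e + 1)) H u w N).card : ℝ) ≤ ((2 * H / T + 1 : ℕ) : ℝ) ^ e *
      (2 * H + 1) ^ ((Jx (e + 1)).card - (e + 1)) := by exact_mod_cast h1
  refine h2.trans (mul_le_mul_of_nonneg_right ?_ (by positivity))
  have hT0 : (0 : ℝ) < T := by exact_mod_cast (by omega : 0 < T)
  have hTH' : (T : ℝ) ≤ H := by exact_mod_cast hTH
  apply pow_le_pow_left₀ (by positivity)
  have h4 : (((2 * H / T : ℕ) : ℕ) : ℝ) ≤ 2 * H / T := by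
    have := @Nat.cast_div_le ℝ _ _ _ (2 * H) T
    push_cast at this
    exact this
  push_cast
  have h5 : 3 * (H : ℝ) / T = 2 * H / T + H / T := by ring
  rw [h5]
  have h6 : 1 ≤ (H : ℝ) / T := by rw [le_div_iff₀ hT0]; linarith
  linarith

/-- the points of norm `T` -/
noncomputable def Qs (T : ℕ) : Finset (ℤ × ℤ) :=
  (({(T : ℤ), -(T : ℤ)} : Finset ℤ) ×ˢ Finset.Icc (-(T : ℤ)) T) ∪
      (Finset.Icc (-(T : ℤ)) T ×ˢ ({(T : ℤ), -(T : ℤ)} : Finset ℤ))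

lemma Qs_card {T : ℕ} (hT : 1 ≤ T) : ((Qs T).card : ℝ) ≤ 12 * T := by
  have h1 : (Qs T).card ≤ 2 * (2 * T + 1) + (2 * T + 1) * 2 := by
    unfold Qs
    refine (Finset.card_union_le _ _).trans ?_
    rw [Finset.card_product, Finset.card_product, Int.card_Icc]
    have h2 : ({(T : ℤ), -(T : ℤ)} : Finset ℤ).card ≤ 2 := Finset.card_le_two
    have h3 : ((T : ℤ) + 1 - -(T : ℤ)).toNat = 2 * T + 1 := by omega
    rw [h3]
    exact add_le_add (Nat.mul_le_mul_right _ h2) (Nat.mul_le_mul_left _ h2)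
  have h2 : (Qs T).card ≤ 12 * T := by omega
  exact_mod_cast h2

lemma Qs_abs {T : ℕ} {P : ℤ × ℤ} (hP : P ∈ Qs T) : P.1.natAbs = T ∨ P.2.natAbs = T := by
  unfold Qs at hP
  simp only [Finset.mem_union, Finset.mem_product, Finset.mem_insert, Finset.mem_singleton] at hP
  rcases hP with ⟨h, _⟩ | ⟨_, h⟩
  · left; omega
  · right; omega

lemma mem_Qs {T : ℕ} {P : ℤ × ℤ} (h : T = max P.1.natAbs P.2.natAbs) : P ∈ Qs T := by
  unfold Qs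
  simp only [Finset.mem_union, Finset.mem_product, Finset.mem_insert, Finset.mem_singleton,
    Finset.mem_Icc]
  omega

open Classical in
/-- points near the asymptotes with first coordinate `± U` -/
noncomputable def Rs (A : ℤ[X]) (Y : ℝ) (U : ℕ) : Finset (ℤ × ℤ) :=
  (Rt A).biUnion (fun θ => ({(U : ℤ), -(U : ℤ)} : Finset ℤ).biUnion (fun u =>
    (Finset.Icc ⌈θ * u - Y⌉ ⌊θ * u + Y⌋).image (fun w => (u, w))))

lemma Icc_card_le {x Y : ℝ} (hY : 0 ≤ Y) : ((Finset.Icc ⌈x - Y⌉ ⌊x + Y⌋).card : ℝ) ≤ 2 * Y + 1 := by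
  rw [Int.card_Icc]
  have h1 : (((⌊x + Y⌋ + 1 - ⌈x - Y⌉).toNat : ℤ) : ℝ) ≤ 2 * Y + 1 := by
    rw [Int.toNat_eq_max]
    push_cast
    apply max_le
    · have h2 := Int.floor_le (x + Y)
      have h3 := Int.le_ceil (x - Y)
      linarith
    · linarith
  exact_mod_cast h1

lemma Rs_card (A : ℤ[X]) {Y : ℝ} (hY : 1 ≤ Y) (U : ℕ) :
    ((Rs A Y U).card : ℝ) ≤ 6 * A.natDegree * Y := by
  classical
  have h1 : ∀ θ ∈ Rt A, ((({(U : ℤ), -(U : ℤ)} : Finset ℤ).biUnion (fun u =>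
    (Finset.Icc ⌈θ * u - Y⌉ ⌊θ * u + Y⌋).image (fun w => (u, w)))).card : ℝ) ≤ 6 * Y := by
    intro θ _
    have h2 : (({(U : ℤ), -(U : ℤ)} : Finset ℤ).biUnion (fun u =>
      (Finset.Icc ⌈θ * u - Y⌉ ⌊θ * u + Y⌋).image (fun w => (u, w)))).card ≤
      ∑ u ∈ ({(U : ℤ), -(U : ℤ)} : Finset ℤ),
        ((Finset.Icc ⌈θ * u - Y⌉ ⌊θ * u + Y⌋).image (fun w => (u, w))).card :=
      Finset.card_biUnion_le
    have h3 : ((({(U : ℤ), -(U : ℤ)} : Finset ℤ).biUnion (fun u =>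
      (Finset.Icc ⌈θ * u - Y⌉ ⌊θ * u + Y⌋).image (fun w => (u, w)))).card : ℝ) ≤
      ∑ u ∈ ({(U : ℤ), -(U : ℤ)} : Finset ℤ),
        (((Finset.Icc ⌈θ * u - Y⌉ ⌊θ * u + Y⌋).image (fun w => (u, w))).card : ℝ) := by
      exact_mod_cast h2
    have h4 : ∀ u ∈ ({(U : ℤ), -(U : ℤ)} : Finset ℤ),
        (((Finset.Icc ⌈θ * u - Y⌉ ⌊θ * u + Y⌋).image (fun w => (u, w))).card : ℝ) ≤ 2 * Y + 1 := by
      intro u _
      have h5 : ((Finset.Icc ⌈θ * u - Y⌉ ⌊θ * u + Y⌋).image (fun w => (u, w))).card ≤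
        (Finset.Icc ⌈θ * u - Y⌉ ⌊θ * u + Y⌋).card := Finset.card_image_le
      have h6 : (((Finset.Icc ⌈θ * u - Y⌉ ⌊θ * u + Y⌋).image (fun w => (u, w))).card : ℝ) ≤
        ((Finset.Icc ⌈θ * u - Y⌉ ⌊θ * u + Y⌋).card : ℝ) := by exact_mod_cast h5
      exact h6.trans (Icc_card_le (by linarith))
    refine h3.trans ((Finset.sum_le_sum h4).trans ?_)
    rw [Finset.sum_const, nsmul_eq_mul]
    have h7 : (({(U : ℤ), -(U : ℤ)} : Finset ℤ).card : ℝ) ≤ 2 := by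
      exact_mod_cast Finset.card_le_two
    have h8 : (({(U : ℤ), -(U : ℤ)} : Finset ℤ).card : ℝ) * (2 * Y + 1) ≤ 2 * (2 * Y + 1) :=
      mul_le_mul_of_nonneg_right h7 (by linarith)
    linarith
  have h2 : (Rs A Y U).card ≤ ∑ θ ∈ Rt A, (({(U : ℤ), -(U : ℤ)} : Finset ℤ).biUnion (fun u =>
    (Finset.Icc ⌈θ * u - Y⌉ ⌊θ * u + Y⌋).image (fun w => (u, w)))).card := Finset.card_biUnion_le
  have h3 : ((Rs A Y U).card : ℝ) ≤ ∑ θ ∈ Rt A, ((({(U : ℤ), -(U : ℤ)} : Finset ℤ).biUnion (fun u =>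
    (Finset.Icc ⌈θ * u - Y⌉ ⌊θ * u + Y⌋).image (fun w => (u, w)))).card : ℝ) := by exact_mod_cast h2
  refine h3.trans ((Finset.sum_le_sum h1).trans ?_)
  rw [Finset.sum_const, nsmul_eq_mul]
  have h4 : ((Rt A).card : ℝ) ≤ A.natDegree := by exact_mod_cast card_Rt A
  have : ((Rt A).card : ℝ) * (6 * Y) ≤ A.natDegree * (6 * Y) :=
    mul_le_mul_of_nonneg_right h4 (by linarith)
  linarith

lemma Rs_abs {A : ℤ[X]} {Y : ℝ} {U : ℕ} {P : ℤ × ℤ} (hP : P ∈ Rs A Y U) : P.1.natAbs = U := by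
  classical
  unfold Rs at hP
  simp only [Finset.mem_biUnion, Finset.mem_image, Finset.mem_insert, Finset.mem_singleton] at hP
  obtain ⟨θ, _, u, hu, w, _, rfl⟩ := hP
  simp only
  omega

lemma mem_Rs {A : ℤ[X]} {Y : ℝ} {U : ℕ} {P : ℤ × ℤ} (hU : P.1.natAbs = U) {θ : ℝ} (hθ : θ ∈ Rt A)
    (h : |(P.2 : ℝ) - θ * P.1| ≤ Y) : P ∈ Rs A Y U := by
  classical
  unfold Rs
  simp only [Finset.mem_biUnion, Finset.mem_image, Finset.mem_insert, Finset.mem_singleton,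
    Finset.mem_Icc]
  refine ⟨θ, hθ, P.1, by omega, P.2, ?_, rfl⟩
  have h1 := abs_le.1 h
  rw [Int.ceil_le, Int.le_floor]
  constructor <;> linarith

open Classical in
/-- points of the third kind: near an asymptote, at scale `M` -/
noncomputable def Ds (A : ℤ[X]) (b : ℕ × ℕ → ℤ) (K₀ V : ℝ) (X : ℕ) (M : ℝ) : Finset (ℤ × ℤ) :=
  (Finset.Icc (-(X : ℤ)) X ×ˢ Finset.Icc (-(X : ℤ)) X).filter (fun P => ∃ θ ∈ Rt A, Nr A b θ K₀ M V P)

lemma Ds_card {A : ℤ[X]} {b : ℕ × ℕ → ℤ} {K₀ V M k : ℝ} (X : ℕ) (_hk : 0 ≤ k)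
    (h : ∀ θ ∈ Rt A, ∀ S : Finset (ℤ × ℤ), (∀ P ∈ S, Nr A b θ K₀ M V P) → (S.card : ℝ) ≤ k) :
    ((Ds A b K₀ V X M).card : ℝ) ≤ A.natDegree * k := by
  classical
  have h1 : Ds A b K₀ V X M ⊆ (Rt A).biUnion (fun θ =>
      (Finset.Icc (-(X : ℤ)) X ×ˢ Finset.Icc (-(X : ℤ)) X).filter (fun P => Nr A b θ K₀ M V P)) := by
    intro P hP
    unfold Ds at hP
    rw [Finset.mem_filter] at hP
    obtain ⟨h1, θ, hθ, h2⟩ := hP
    rw [Finset.mem_biUnion]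
    exact ⟨θ, hθ, Finset.mem_filter.2 ⟨h1, h2⟩⟩
  have h2 := (Finset.card_le_card h1).trans Finset.card_biUnion_le
  have h3 : ((Ds A b K₀ V X M).card : ℝ) ≤ ∑ θ ∈ Rt A,
      ((((Finset.Icc (-(X : ℤ)) X ×ˢ Finset.Icc (-(X : ℤ)) X).filter
        (fun P => Nr A b θ K₀ M V P)).card : ℕ) : ℝ) := by exact_mod_cast h2
  refine h3.trans ((Finset.sum_le_sum (fun θ hθ => h θ hθ _ (fun P hP =>
    (Finset.mem_filter.1 hP).2))).trans ?_)
  rw [Finset.sum_const, nsmul_eq_mul]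
  exact mul_le_mul_of_nonneg_right (by exact_mod_cast card_Rt A) _hk

lemma Ds_nr {A : ℤ[X]} {b : ℕ × ℕ → ℤ} {K₀ V M : ℝ} {X : ℕ} {P : ℤ × ℤ} (hP : P ∈ Ds A b K₀ V X M) :
    M ≤ |(P.1 : ℝ)| := by
  classical
  unfold Ds at hP
  rw [Finset.mem_filter] at hP
  obtain ⟨_, θ, _, h⟩ := hP
  exact h.1

end Pool.Agent.TH728.PL
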