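import Mathlib

/-!
Elementary sums and the comparison function.
-/

namespace Pool.Agent.TH728.PL

/-- the comparison function -/
noncomputable def phi (d e H : ℕ) : ℝ :=
  if e = 1 then (H : ℝ) ^ (1 / ((d : ℝ) - 1)) else if e = 2 then Real.log H else 1

lemma log_two_half : (1 : ℝ) / 2 ≤ Real.log 2 := by
  have := Real.log_two_gt_d9
  linarith

lemma phi_half {d e H : ℕ} (hd : 2 ≤ d) (hH : 2 ≤ H) : 1 / 2 ≤ phi d e H := by
  unfold phi
  have hH2 : (2 : ℝ) ≤ H := by exact_mod_cast hH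
  have hd2 : (2 : ℝ) ≤ d := by exact_mod_cast hd
  split_ifs
  · have : (1 : ℝ) ≤ (H : ℝ) ^ (1 / ((d : ℝ) - 1)) := by
      apply Real.one_le_rpow (by linarith)
      apply div_nonneg (by norm_num) (by linarith)
    linarith
  · have := Real.log_le_log (by norm_num) hH2
    linarith [log_two_half]
  · norm_num

lemma log_le_phi {d e H : ℕ} (hd : 2 ≤ d) (hH : 2 ≤ H) (he : e = 1 ∨ e = 2) :
    Real.log H ≤ d * phi d e H := by
  have hH2 : (2 : ℝ) ≤ H := by exact_mod_cast hH
  have hd2 : (2 : ℝ) ≤ d := by exact_mod_cast hd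
  unfold phi
  rcases he with rfl | rfl
  · rw [if_pos rfl]
    have h1 := Real.log_le_rpow_div (x := (H : ℝ)) (ε := 1 / ((d : ℝ) - 1)) (by linarith)
      (div_pos one_pos (by linarith))
    rw [div_div_eq_mul_div, div_one] at h1
    have h2 : 0 ≤ (H : ℝ) ^ (1 / ((d : ℝ) - 1)) := by positivity
    refine h1.trans ?_
    rw [mul_comm]
    exact mul_le_mul_of_nonneg_right (by linarith) h2
  · rw [if_neg (by norm_num), if_pos rfl]
    have h1 := Real.log_le_log (by norm_num) hH2
    have h2 := log_two_half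
    nlinarith

lemma harm_le {n : ℕ} (hn : 1 ≤ n) : ∑ k ∈ Finset.Icc 1 n, 1 / (k : ℝ) ≤ 1 + Real.log n := by
  induction n with
  | zero => omega
  | succ n ih =>
    rcases Nat.eq_zero_or_pos n with rfl | hn0
    · simp
    · rw [Finset.sum_Icc_succ_top (by omega)]
      have h1 := ih hn0
      have hn' : (0 : ℝ) < n := by exact_mod_cast hn0
      have h2 := Real.one_sub_inv_le_log_of_pos (x := ((n : ℝ) + 1) / n) (by positivity)
      rw [Real.log_div (by positivity) hn'.ne'] at h2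
      have h3 : 1 - (((n : ℝ) + 1) / n)⁻¹ = 1 / (n + 1) := by
        rw [inv_div]
        field_simp
        ring
      rw [h3] at h2
      push_cast
      linarith

lemma harm_ge (n : ℕ) : Real.log (n + 1) ≤ ∑ k ∈ Finset.Icc 1 n, 1 / (k : ℝ) := by
  induction n with
  | zero => simp
  | succ n ih =>
    rw [Finset.sum_Icc_succ_top (by omega)]
    have h2 := Real.log_le_sub_one_of_pos (x := ((n : ℝ) + 1 + 1) / (n + 1)) (by positivity)
    rw [Real.log_div (by positivity) (by positivity)] at h2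
    have h3 : ((n : ℝ) + 1 + 1) / (n + 1) - 1 = 1 / (n + 1) := by
      field_simp
      ring
    rw [h3] at h2
    push_cast
    linarith

lemma sq_tail {t n : ℕ} (ht : 1 ≤ t) : ∑ k ∈ Finset.Icc t n, 1 / (k : ℝ) ^ 2 ≤ 2 / (t : ℝ) := by
  have ht0 : (0 : ℝ) < t := by exact_mod_cast (by omega : 0 < t)
  by_cases h : n < t
  · rw [Finset.Icc_eq_empty (by omega), Finset.sum_empty]
    positivity
  · push Not at h
    have key : ∀ m : ℕ, ∑ k ∈ Finset.Icc t (t + m), 1 / (k : ℝ) ^ 2 ≤ 2 / (t : ℝ) - 1 / ((t : ℝ) + m) := by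
      intro m
      induction m with
      | zero =>
        rw [add_zero, Finset.Icc_self, Finset.sum_singleton]
        push_cast
        rw [add_zero, ← sub_div, div_le_div_iff₀ (by positivity) ht0]
        have : (1 : ℝ) ≤ t := by exact_mod_cast ht
        nlinarith
      | succ m ih =>
        rw [← add_assoc, Finset.sum_Icc_succ_top (by omega)]
        have h1 : 1 / (((t + m + 1 : ℕ) : ℝ)) ^ 2 ≤ 1 / ((t : ℝ) + m) - 1 / (t + ((m + 1 : ℕ) : ℝ)) := by
          push_cast
          rw [div_sub_div _ _ (by positivity) (by positivity),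
            div_le_div_iff₀ (by positivity) (by positivity)]
          nlinarith [show (0 : ℝ) ≤ m from Nat.cast_nonneg m]
        linarith
    obtain ⟨m, rfl⟩ : ∃ m, n = t + m := ⟨n - t, by omega⟩
    refine (key m).trans ?_
    have : (0 : ℝ) ≤ 1 / (t + m) := by positivity
    linarith

/-- the sum over all points of bounded norm -/
lemma sum_one {e n : ℕ} (he : 1 ≤ e) (hn : 1 ≤ n) : ∑ T ∈ Finset.Icc 1 n, (T : ℝ) * (1 / T) ^ e ≤
    if e = 1 then (n : ℝ) else if e = 2 then 1 + Real.log n else 2 := by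
  have hT : ∀ T ∈ Finset.Icc 1 n, (0 : ℝ) < T ∧ (1 : ℝ) ≤ T := by
    intro T hT
    rw [Finset.mem_Icc] at hT
    exact ⟨by exact_mod_cast (by omega : 0 < T), by exact_mod_cast hT.1⟩
  split_ifs with h1 h2
  · subst h1
    have : ∑ T ∈ Finset.Icc 1 n, (T : ℝ) * (1 / T) ^ 1 = ∑ T ∈ Finset.Icc 1 n, (1 : ℝ) := by
      apply Finset.sum_congr rfl
      intro T h
      have := (hT T h).1
      rw [pow_one]
      field_simp
    rw [this, Finset.sum_const, Nat.card_Icc]
    simp
  · subst h2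
    refine le_trans (le_of_eq ?_) (harm_le hn)
    apply Finset.sum_congr rfl
    intro T h
    have := (hT T h).1
    field_simp
  · refine le_trans (Finset.sum_le_sum (g := fun T : ℕ => 1 / (T : ℝ) ^ 2) ?_) ?_
    · intro T h
      obtain ⟨h3, h4⟩ := hT T h
      have h5 : (1 / (T : ℝ)) ^ e ≤ (1 / (T : ℝ)) ^ 3 := by
        apply pow_le_pow_of_le_one (by positivity) _ (by omega)
        rw [div_le_one h3]
        exact h4
      refine (mul_le_mul_of_nonneg_left h5 h3.le).trans (le_of_eq ?_)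
      field_simp
    · have := sq_tail (n := n) (le_refl 1)
      simpa using this

lemma sum_two {e t n : ℕ} (he : 1 ≤ e) (ht : 1 ≤ t) (htn : t ≤ n) :
    ∑ U ∈ Finset.Icc t n, (1 / (U : ℝ)) ^ e ≤ if e = 1 then 1 + Real.log n else 2 := by
  have hU : ∀ U ∈ Finset.Icc t n, (0 : ℝ) < U ∧ (1 : ℝ) ≤ U := by
    intro T hT
    rw [Finset.mem_Icc] at hT
    exact ⟨by exact_mod_cast (by omega : 0 < T), by exact_mod_cast (by omega : 1 ≤ T)⟩
  split_ifs with h1
  · subst h1
    refine le_trans ?_ (harm_le (by omega : 1 ≤ n))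
    refine le_trans (le_of_eq (Finset.sum_congr rfl (fun U _ => pow_one _))) ?_
    apply Finset.sum_le_sum_of_subset_of_nonneg (Finset.Icc_subset_Icc_left ht)
    intro i _ _
    positivity
  · refine le_trans (Finset.sum_le_sum (g := fun T : ℕ => 1 / (T : ℝ) ^ 2) ?_) ?_
    · intro T h
      obtain ⟨h3, h4⟩ := hU T h
      have h5 : (1 / (T : ℝ)) ^ e ≤ (1 / (T : ℝ)) ^ 2 := by
        apply pow_le_pow_of_le_one (by positivity) _ (by omega)
        rw [div_le_one h3]
        exact h4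
      refine h5.trans (le_of_eq ?_)
      rw [div_pow, one_pow]
    · refine (sq_tail ht).trans ?_
      have : (1 : ℝ) ≤ t := by exact_mod_cast ht
      rw [div_le_iff₀ (by linarith)]
      linarith

/-- the second sum over the points near the asymptotes -/
lemma sum_three {d e t n : ℕ} (hed : e + 4 ≤ d) (ht : 1 ≤ t) {H : ℝ} (hH : 0 ≤ H)
    (hHt : H ≤ (t : ℝ) ^ (d - e)) :
    ∑ U ∈ Finset.Icc t n, (1 / (U : ℝ)) ^ e * (H / (U : ℝ) ^ (d - 1 - e)) ≤
      if e = 1 then 2 * (t : ℝ) else 2 * (t : ℝ) ^ (2 - e) := by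
  have ht0 : (0 : ℝ) < t := by exact_mod_cast (by omega : 0 < t)
  have ht1 : (1 : ℝ) ≤ t := by exact_mod_cast ht
  have h1 : ∀ U ∈ Finset.Icc t n, (1 / (U : ℝ)) ^ e * (H / (U : ℝ) ^ (d - 1 - e)) ≤
      H / (t : ℝ) ^ (d - 3) * (1 / (U : ℝ) ^ 2) := by
    intro U hU
    rw [Finset.mem_Icc] at hU
    have hU0 : (0 : ℝ) < U := by exact_mod_cast (by omega : 0 < U)
    have htU : (t : ℝ) ≤ U := by exact_mod_cast hU.1
    have e1 : (1 / (U : ℝ)) ^ e * (H / (U : ℝ) ^ (d - 1 - e)) = H / (U : ℝ) ^ (d - 3) * (1 / (U : ℝ) ^ 2) := by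
      have e2 : (U : ℝ) ^ e * (U : ℝ) ^ (d - 1 - e) = (U : ℝ) ^ (d - 3) * (U : ℝ) ^ 2 := by
        rw [← pow_add, ← pow_add]
        congr 1
        omega
      rw [div_pow, one_pow, div_mul_div_comm, div_mul_div_comm, one_mul, mul_one, e2]
    rw [e1]
    apply mul_le_mul_of_nonneg_right _ (by positivity)
    apply div_le_div_of_nonneg_left hH (by positivity)
    exact pow_le_pow_left₀ ht0.le htU _
  refine (Finset.sum_le_sum h1).trans ?_
  rw [← Finset.mul_sum]
  have h2 : H / (t : ℝ) ^ (d - 3) * ∑ U ∈ Finset.Icc t n, 1 / (U : ℝ) ^ 2 ≤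
      H / (t : ℝ) ^ (d - 3) * (2 / t) :=
    mul_le_mul_of_nonneg_left (sq_tail ht) (by positivity)
  refine h2.trans ?_
  have h3 : H / (t : ℝ) ^ (d - 3) * (2 / t) ≤ (t : ℝ) ^ (d - e) / (t : ℝ) ^ (d - 3) * (2 / t) := by
    apply mul_le_mul_of_nonneg_right _ (by positivity)
    exact div_le_div_of_nonneg_right hHt (by positivity)
  refine h3.trans ?_
  split_ifs with h4
  · subst h4
    have e3 : (t : ℝ) ^ (d - 1) = (t : ℝ) ^ (d - 3) * t ^ 2 := by
      rw [← pow_add]
      congr 1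
      omega
    rw [e3]
    apply le_of_eq
    field_simp
  · rcases Nat.lt_or_ge e 2 with h5 | h5
    · -- `e = 0`
      have h6 : e = 0 := by omega
      subst h6
      have e3 : (t : ℝ) ^ (d - 0) = (t : ℝ) ^ (d - 3) * t ^ 3 := by
        rw [← pow_add]
        congr 1
        omega
      rw [e3]
      apply le_of_eq
      field_simp
    · have e3 : (t : ℝ) ^ (d - e) ≤ (t : ℝ) ^ (d - 3) * t := by
        rw [← pow_succ]
        exact pow_le_pow_right₀ ht1 (by omega)
      have e4 : (2 : ℝ) - 0 = 2 := by norm_num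
      rw [show 2 - e = 0 by omega, pow_zero, mul_one]
      have h6 : (t : ℝ) ^ (d - e) / (t : ℝ) ^ (d - 3) ≤ t := by
        rw [div_le_iff₀ (by positivity)]
        linarith
      calc (t : ℝ) ^ (d - e) / (t : ℝ) ^ (d - 3) * (2 / t) ≤ t * (2 / t) :=
            mul_le_mul_of_nonneg_right h6 (by positivity)
        _ = 2 := by field_simp

end Pool.Agent.TH728.PL
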