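import Pool.Agent.TH728.PL.Up

/-!
Ranges of points beyond a given size, for `e ≥ 3`.
-/

open Polynomial

namespace Pool.Agent.TH728.PL

open Pool.Agent.TH728.FX

open Classical in
lemma range_one_tail {H e B T₁ : ℕ} (he : 3 ≤ e) (hH : 1 ≤ H) (hB : 1 ≤ B) (hT : T₁ ≤ H)
    (g : ℤ × ℤ → ℤ) :
    (((Finset.Icc B T₁).biUnion (fun T => (Qs T).biUnion
      (fun P => Sv (Jx (e + 1)) H P.1 P.2 (g P)))).card : ℝ) ≤
      12 * 3 ^ e * 3 ^ (Jx (e + 1)).card * H ^ ((Jx (e + 1)).card - 1) * (2 / (B : ℝ)) := by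
  have h1 := bi_card (Finset.Icc B T₁) Qs (fun P : ℤ × ℤ => Sv (Jx (e + 1)) H P.1 P.2 (g P))
    (fun T => 12 * (T : ℝ))
    (fun T => (3 * H / T) ^ e * (2 * H + 1) ^ ((Jx (e + 1)).card - (e + 1)))
    (fun T hT => Qs_card (hB.trans (Finset.mem_Icc.1 hT).1)) (fun T hT' P hP =>
      Sv_real e (hB.trans (Finset.mem_Icc.1 hT').1) ((Finset.mem_Icc.1 hT').2.trans hT) (Qs_abs hP) _)
    (fun T _ => by positivity)
  refine h1.trans ?_
  have h2 : ∀ T ∈ Finset.Icc B T₁, 12 * (T : ℝ) * ((3 * H / T) ^ e *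
      (2 * H + 1) ^ ((Jx (e + 1)).card - (e + 1))) ≤
      12 * 3 ^ e * ((H : ℝ) ^ e * (2 * H + 1) ^ ((Jx (e + 1)).card - (e + 1))) *
        (1 / (T : ℝ) ^ 2) := by
    intro T hTm
    have hT1 : (1 : ℝ) ≤ T := by exact_mod_cast hB.trans (Finset.mem_Icc.1 hTm).1
    have h3 : (T : ℝ) * (1 / T) ^ e ≤ 1 / (T : ℝ) ^ 2 := by
      rw [div_pow, one_pow, mul_one_div, div_le_div_iff₀ (by positivity) (by positivity), one_mul]
      calc (T : ℝ) * T ^ 2 = T ^ 3 := by ring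
        _ ≤ _ := pow_le_pow_right₀ hT1 he
    have h4 : 12 * (T : ℝ) * ((3 * H / T) ^ e *
      (2 * H + 1) ^ ((Jx (e + 1)).card - (e + 1))) =
      12 * 3 ^ e * ((H : ℝ) ^ e * (2 * H + 1) ^ ((Jx (e + 1)).card - (e + 1))) *
        ((T : ℝ) * (1 / T) ^ e) := by
      rw [div_pow, div_pow, mul_pow, one_pow]
      ring
    rw [h4]
    exact mul_le_mul_of_nonneg_left h3 (by positivity)
  refine (Finset.sum_le_sum h2).trans ?_
  rw [← Finset.mul_sum]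
  have h3 := pow_box hH (card_ge e)
  have h4 := sq_tail (n := T₁) hB
  have h5 : 0 ≤ ∑ T ∈ Finset.Icc B T₁, 1 / (T : ℝ) ^ 2 :=
    Finset.sum_nonneg fun _ _ => by positivity
  calc _ ≤ 12 * 3 ^ e * (3 ^ (Jx (e + 1)).card * (H : ℝ) ^ ((Jx (e + 1)).card - 1)) *
        ∑ T ∈ Finset.Icc B T₁, 1 / (T : ℝ) ^ 2 := by
        apply mul_le_mul_of_nonneg_right _ h5
        exact mul_le_mul_of_nonneg_left h3 (by positivity)
    _ ≤ 12 * 3 ^ e * (3 ^ (Jx (e + 1)).card * (H : ℝ) ^ ((Jx (e + 1)).card - 1)) * _ :=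
        mul_le_mul_of_nonneg_left h4 (by positivity)
    _ = _ := by ring

open Classical in
lemma range_two_tail {A : ℤ[X]} {H e t U₂ : ℕ} (he : 3 ≤ e) (hed : e + 4 ≤ A.natDegree) (hH : 1 ≤ H)
    (ht : 1 ≤ t) (hU : U₂ ≤ H) (hHt : (H : ℝ) ≤ (t : ℝ) ^ (A.natDegree - e)) {K₀ : ℝ}
    (hK : 1 ≤ K₀) (g : ℤ × ℤ → ℤ) :
    (((Finset.Icc t U₂).biUnion (fun U => (Rs A (K₀ * (1 + H / (U : ℝ) ^ (A.natDegree - 1 - e))) U).biUnion
      (fun P => Sv (Jx (e + 1)) H P.1 P.2 (g P)))).card : ℝ) ≤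
      6 * A.natDegree * K₀ * 3 ^ e * 3 ^ (Jx (e + 1)).card * H ^ ((Jx (e + 1)).card - 1) *
        (4 / (t : ℝ)) := by
  have hY : ∀ U : ℕ, 1 ≤ K₀ * (1 + H / (U : ℝ) ^ (A.natDegree - 1 - e)) := by
    intro U
    have : 0 ≤ (H : ℝ) / (U : ℝ) ^ (A.natDegree - 1 - e) := by positivity
    nlinarith
  have h1 := bi_card (Finset.Icc t U₂) (fun U : ℕ => Rs A (K₀ * (1 + H / (U : ℝ) ^ (A.natDegree - 1 - e))) U)
    (fun P : ℤ × ℤ => Sv (Jx (e + 1)) H P.1 P.2 (g P))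
    (fun U => 6 * A.natDegree * (K₀ * (1 + H / (U : ℝ) ^ (A.natDegree - 1 - e))))
    (fun T => (3 * H / T) ^ e * (2 * H + 1) ^ ((Jx (e + 1)).card - (e + 1)))
    (fun U _ => Rs_card A (hY U) U) (fun T hT' P hP =>
      Sv_real e (ht.trans (Finset.mem_Icc.1 hT').1) ((Finset.mem_Icc.1 hT').2.trans hU)
        (Or.inl (Rs_abs hP)) _)
    (fun T _ => by positivity)
  refine h1.trans ?_
  have hK0 : 0 ≤ K₀ := by linarith
  have h2 : ∀ U ∈ Finset.Icc t U₂, 6 * A.natDegree * (K₀ * (1 + H / (U : ℝ) ^ (A.natDegree - 1 - e))) *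
      ((3 * H / U) ^ e * (2 * H + 1) ^ ((Jx (e + 1)).card - (e + 1))) ≤
      6 * A.natDegree * K₀ * 3 ^ e * ((H : ℝ) ^ e * (2 * H + 1) ^ ((Jx (e + 1)).card - (e + 1))) *
        (2 * (1 / (U : ℝ) ^ 2)) := by
    intro U hUm
    have htU : (t : ℝ) ≤ U := by exact_mod_cast (Finset.mem_Icc.1 hUm).1
    have ht1 : (1 : ℝ) ≤ t := by exact_mod_cast ht
    have hU1 : (1 : ℝ) ≤ U := by linarith
    have hU0 : (0 : ℝ) < U := by linarith
    have h3 : (1 / (U : ℝ)) ^ e ≤ 1 / (U : ℝ) ^ 2 := by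
      rw [div_pow, one_pow]
      exact div_le_div_of_nonneg_left (by norm_num) (by positivity)
        (pow_le_pow_right₀ hU1 (by omega))
    have h4 : (1 / (U : ℝ)) ^ e * (H / (U : ℝ) ^ (A.natDegree - 1 - e)) ≤ 1 / (U : ℝ) ^ 2 := by
      have e1 : (1 / (U : ℝ)) ^ e * (H / (U : ℝ) ^ (A.natDegree - 1 - e)) =
          H / (U : ℝ) ^ (A.natDegree - 1) := by
        rw [div_pow, one_pow, div_mul_div_comm, one_mul, ← pow_add]
        congr 2
        omega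
      rw [e1, div_le_div_iff₀ (by positivity) (by positivity), one_mul]
      have h5 : (H : ℝ) ≤ (U : ℝ) ^ (A.natDegree - 3) := by
        refine hHt.trans ?_
        calc (t : ℝ) ^ (A.natDegree - e) ≤ (U : ℝ) ^ (A.natDegree - e) :=
              pow_le_pow_left₀ (by linarith) htU _
          _ ≤ _ := pow_le_pow_right₀ hU1 (by omega)
      calc (H : ℝ) * U ^ 2 ≤ (U : ℝ) ^ (A.natDegree - 3) * U ^ 2 :=
            mul_le_mul_of_nonneg_right h5 (by positivity)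
        _ = _ := by
          rw [← pow_add]
          congr 1
          omega
    have h6 : 6 * A.natDegree * (K₀ * (1 + H / (U : ℝ) ^ (A.natDegree - 1 - e))) *
      ((3 * H / U) ^ e * (2 * H + 1) ^ ((Jx (e + 1)).card - (e + 1))) =
      6 * A.natDegree * K₀ * 3 ^ e * ((H : ℝ) ^ e * (2 * H + 1) ^ ((Jx (e + 1)).card - (e + 1))) *
        ((1 / (U : ℝ)) ^ e + (1 / (U : ℝ)) ^ e * (H / (U : ℝ) ^ (A.natDegree - 1 - e))) := by
      rw [div_pow (3 * (H : ℝ)), div_pow 1, mul_pow 3, one_pow]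
      ring
    rw [h6]
    apply mul_le_mul_of_nonneg_left _ (by positivity)
    linarith
  refine (Finset.sum_le_sum h2).trans ?_
  rw [← Finset.mul_sum, ← Finset.mul_sum]
  have h3 := pow_box hH (card_ge e)
  have h4 := sq_tail (n := U₂) ht
  have h5 : 0 ≤ 2 * ∑ U ∈ Finset.Icc t U₂, 1 / (U : ℝ) ^ 2 :=
    mul_nonneg (by norm_num) (Finset.sum_nonneg fun _ _ => by positivity)
  calc _ ≤ 6 * A.natDegree * K₀ * 3 ^ e * (3 ^ (Jx (e + 1)).card * (H : ℝ) ^ ((Jx (e + 1)).card - 1)) *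
        (2 * ∑ U ∈ Finset.Icc t U₂, 1 / (U : ℝ) ^ 2) := by
        apply mul_le_mul_of_nonneg_right _ h5
        exact mul_le_mul_of_nonneg_left h3 (by positivity)
    _ ≤ 6 * A.natDegree * K₀ * 3 ^ e * (3 ^ (Jx (e + 1)).card * (H : ℝ) ^ ((Jx (e + 1)).card - 1)) *
        (2 * (2 / t)) :=
        mul_le_mul_of_nonneg_left (mul_le_mul_of_nonneg_left h4 (by norm_num)) (by positivity)
    _ = _ := by ring

end Pool.Agent.TH728.PL
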