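import Pool.Agent.TH728.PL.TailR
import Pool.Agent.TH728.PL.Up2

/-!
The number of curves with a point beyond a given size, for `e ≥ 3`.
-/

open Polynomial

namespace Pool.Agent.TH728.PL

open Pool.Agent.TH728.FX

lemma card4 {α : Type*} [DecidableEq α] (S a b c d : Finset α)
    (h : S ⊆ (((a ∪ b) ∪ c) ∪ d)) :
    (S.card : ℝ) ≤ (a.card : ℝ) + (b.card : ℝ) + (c.card : ℝ) + (d.card : ℝ) := by
  have h0 := Finset.card_le_card h
  have h1 := Finset.card_union_le a b
  have h2 := Finset.card_union_le (a ∪ b) c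
  have h3 := Finset.card_union_le ((a ∪ b) ∪ c) d
  have h5 : S.card ≤ a.card + b.card + c.card + d.card := by omega
  exact_mod_cast h5

set_option maxHeartbeats 4000000 in
theorem upper_tail {A : ℤ[X]} (hA : Irreducible (A.map (Int.castRingHom ℚ))) {e : ℕ} (he3 : 3 ≤ e)
    (hed : e + 4 ≤ A.natDegree) {H₀ : ℕ} (hH0 : 1 ≤ H₀) {b : ℕ × ℕ → ℤ}
    (hb : b ∈ Bo (Jx A.natDegree) H₀)
    (hg : ∀ θ ∈ Rt A, gam A A.natDegree (nb A.natDegree b H₀) θ ≠ 0)
    (N₀ Cb kb : ℕ) (hCb : 1 ≤ Cb) :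
    ∃ K : ℝ, 0 ≤ K ∧ ∃ H₁ : ℕ, ∀ (H B₀ : ℕ) (S Sb : Finset (ℕ × ℕ → ℤ)), H₁ ≤ H → 1 ≤ B₀ →
      B₀ ^ (A.natDegree - e) ≤ H → S ⊆ Bo (Jx (e + 1)) H →
      Sb.card ≤ N₀ → (∀ c ∈ S, ∃ u w : ℤ, B₀ < max u.natAbs w.natAbs ∧
        vl (Jx (e + 1)) c u w = -Vl A A.natDegree b u w ∧
        (Cb * H ^ kb < max u.natAbs w.natAbs → c ∈ Sb)) →
      (S.card : ℝ) ≤ K * (H ^ ((Jx (e + 1)).card - 1) / B₀) := by
  classical
  have he : 1 ≤ e := by omega
  obtain ⟨d, hd⟩ : ∃ d, d = A.natDegree := ⟨_, rfl⟩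
  obtain ⟨n, hn⟩ : ∃ n, n = (Jx (e + 1)).card := ⟨_, rfl⟩
  have hn1 : e + 1 ≤ n := by rw [hn]; exact card_ge e
  obtain ⟨C₁, K₀, B, hC1, hK0, hB1, hnear⟩ := near_pt hA (by omega) hb (e := e) (by omega) n
  obtain ⟨Cs, Ks, hCs, hKs, hsc⟩ := sc_count hA (by omega) (2 * K₀) (by linarith) hH0 hb hg
  rw [← hd] at hnear hb hg hed ⊢
  obtain ⟨V₀, hV0⟩ : ∃ V₀ : ℝ, V₀ = n * (2 * B) ^ e := ⟨_, rfl⟩
  have hB1' : (1 : ℝ) ≤ B := by exact_mod_cast hB1
  have hn1' : (1 : ℝ) ≤ n := by exact_mod_cast (by omega : 1 ≤ n)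
  have hV01 : 1 ≤ V₀ := by
    rw [hV0]
    have : (1 : ℝ) ≤ (2 * B) ^ e := one_le_pow₀ (by linarith)
    nlinarith
  obtain ⟨C₂, hC2⟩ : ∃ C₂ : ℕ, C₂ = ⌈Cs * V₀⌉₊ + 2 := ⟨_, rfl⟩
  have hC2' : Cs * V₀ ≤ C₂ := by
    rw [hC2]
    push_cast
    have := Nat.le_ceil (Cs * V₀)
    linarith
  have hC22 : (2 : ℝ) ≤ C₂ := by
    rw [hC2]
    push_cast
    have : (0 : ℝ) ≤ (⌈Cs * V₀⌉₊ : ℝ) := Nat.cast_nonneg _
    linarith
  obtain ⟨c₁, hc1⟩ : ∃ c₁ : ℕ, c₁ = ⌈C₁⌉₊ + B := ⟨_, rfl⟩
  have hc1C : C₁ ≤ c₁ := by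
    rw [hc1]
    push_cast
    have := Nat.le_ceil C₁
    linarith
  have hc1B : B ≤ c₁ := by omega
  have hc11 : (1 : ℝ) ≤ c₁ := by linarith
  obtain ⟨H₁, hH1⟩ : ∃ H₁ : ℕ, H₁ = (2 * c₁ + 2 * C₂ + 2) ^ 2 := ⟨_, rfl⟩
  -- the final constant
  obtain ⟨CL, hCL⟩ : ∃ CL : ℝ, CL = 4 * Real.log Cb + 2 * kb + 2 := ⟨_, rfl⟩
  have hCL0 : 0 ≤ CL := by
    have : 0 ≤ Real.log Cb := Real.log_nonneg (by exact_mod_cast hCb)
    rw [hCL]
    positivity
  have hK00 : 0 ≤ K₀ := by linarith
  refine ⟨24 * 3 ^ e * 3 ^ n + 24 * d * K₀ * 3 ^ e * 3 ^ n +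
    2 * CL * (d * (Ks * √V₀) * 3 ^ (n + e)) + N₀, by positivity, H₁, ?_⟩
  intro H B₀ S Sb hHH hB0 hB0H hS hSb hSP
  -- sizes
  have hHbig : (2 * c₁ + 2 * C₂ + 2) ^ 2 ≤ H := by rw [← hH1]; exact hHH
  have hH2 : 2 ≤ H := by nlinarith
  have hH1' : (1 : ℝ) ≤ H := by exact_mod_cast (by omega : 1 ≤ H)
  have hHpos : (0 : ℝ) < H := by linarith
  have hsq : (2 * c₁ + 2 * C₂ + 2 : ℝ) ≤ √H := by
    apply Real.le_sqrt_of_sq_le
    exact_mod_cast hHbig
  have hsqH : √(H : ℝ) * √H = H := Real.mul_self_sqrt (by linarith)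
  have hs1 : 1 ≤ √(H : ℝ) := by rw [Real.one_le_sqrt]; exact hH1'
  obtain ⟨ρ, hρ, hρ1, hρa, hρs⟩ := root_facts (H := H) (a := d - e) (by omega) (by omega)
  obtain ⟨t, ht⟩ : ∃ t : ℕ, t = ⌊ρ⌋₊ + 1 := ⟨_, rfl⟩
  have htρ : ρ ≤ t := by
    rw [ht]
    push_cast
    exact (Nat.lt_floor_add_one ρ).le
  have ht2ρ : (t : ℝ) ≤ 2 * ρ := by
    rw [ht]
    push_cast
    have := Nat.floor_le (show 0 ≤ ρ by linarith)
    linarith
  have ht1 : 1 ≤ t := by omega
  have hHt : (H : ℝ) ≤ (t : ℝ) ^ (d - e) := by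
    rw [← hρa]
    exact pow_le_pow_left₀ (by linarith) htρ _
  have hB0t : B₀ ≤ t := by
    by_contra hcon
    push Not at hcon
    have h1 : (t : ℝ) ^ (d - e) < (B₀ : ℝ) ^ (d - e) := by
      apply pow_lt_pow_left₀ _ (Nat.cast_nonneg _) (by omega)
      exact_mod_cast hcon
    have h2 : ((B₀ : ℝ)) ^ (d - e) ≤ H := by exact_mod_cast hB0H
    linarith
  have hB0r : (1 : ℝ) ≤ B₀ := by exact_mod_cast hB0
  have hB0s : (B₀ : ℝ) ≤ √H := by
    apply Real.le_sqrt_of_sq_le
    have h2 : ((B₀ : ℝ)) ^ (d - e) ≤ H := by exact_mod_cast hB0H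
    refine le_trans ?_ h2
    exact pow_le_pow_right₀ hB0r (by omega)
  obtain ⟨T₁, hT1⟩ : ∃ T₁ : ℕ, T₁ = c₁ * t := ⟨_, rfl⟩
  have hc1nat : 1 ≤ c₁ := by exact_mod_cast hc11
  have hT11 : 1 ≤ T₁ := by rw [hT1]; exact Nat.mul_pos hc1nat ht1
  have hT1H : T₁ ≤ H := by
    have : (T₁ : ℝ) ≤ H := by
      rw [hT1]
      push_cast
      have h1 : (c₁ : ℝ) * t ≤ c₁ * (2 * √H) := mul_le_mul_of_nonneg_left (by linarith) (by linarith)
      have h2 : 2 * (c₁ : ℝ) * √H ≤ √H * √H :=
        mul_le_mul_of_nonneg_right (by linarith) (by linarith)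
      linarith
    exact_mod_cast this
  obtain ⟨U₂, hU2⟩ : ∃ U₂ : ℕ, U₂ = ⌈C₂ * √(H : ℝ)⌉₊ := ⟨_, rfl⟩
  have hU2l : C₂ * √(H : ℝ) ≤ U₂ := by rw [hU2]; exact Nat.le_ceil _
  have hU2u : (U₂ : ℝ) ≤ 2 * C₂ * √(H : ℝ) := by
    rw [hU2]
    have := (Nat.ceil_lt_add_one (show 0 ≤ C₂ * √(H : ℝ) by positivity)).le
    have h2 : 1 ≤ C₂ * √(H : ℝ) := by nlinarith
    linarith
  have hU2H : U₂ ≤ H := by
    have : (U₂ : ℝ) ≤ H := by
      have h2 : 2 * (C₂ : ℝ) * √H ≤ √H * √H :=
        mul_le_mul_of_nonneg_right (by linarith) (by linarith)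
      linarith
    exact_mod_cast this
  have hsU2 : √(H : ℝ) ≤ U₂ := by nlinarith
  have htU2 : t ≤ U₂ := by
    have : (t : ℝ) ≤ U₂ := by
      have : 2 * √(H : ℝ) ≤ C₂ * √H := mul_le_mul_of_nonneg_right hC22 (by linarith)
      linarith
    exact_mod_cast this
  have hU2pos : 0 < U₂ := by omega
  obtain ⟨X, hX⟩ : ∃ X : ℕ, X = Cb * H ^ kb := ⟨_, rfl⟩
  obtain ⟨L, hL⟩ : ∃ L : ℕ, L = Nat.log 2 X := ⟨_, rfl⟩
  obtain ⟨g, hgdef⟩ : ∃ g : ℤ × ℤ → ℤ, g = fun P => -Vl A d b P.1 P.2 := ⟨_, rfl⟩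
  obtain ⟨V, hV⟩ : ∃ V : ℝ, V = V₀ * H := ⟨_, rfl⟩
  have hV1 : 1 ≤ V := by rw [hV]; nlinarith
  -- the covering
  have hcov : S ⊆ ((((Finset.Icc B₀ T₁).biUnion (fun T => (Qs T).biUnion
        (fun P => Sv (Jx (e + 1)) H P.1 P.2 (g P))) ∪
      (Finset.Icc t U₂).biUnion (fun U => (Rs A (K₀ * (1 + H / (U : ℝ) ^ (d - 1 - e))) U).biUnion
        (fun P => Sv (Jx (e + 1)) H P.1 P.2 (g P)))) ∪
      (Finset.range (L + 1)).biUnion (fun j => (Ds A b (2 * K₀) V X (2 ^ j * U₂)).biUnion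
        (fun P => Sv (Jx (e + 1)) H P.1 P.2 (g P)))) ∪ Sb) := by
    intro c hc
    obtain ⟨u, w, hBuw, huw, hbig⟩ := hSP c hc
    have hcB := hS hc
    have hcS : c ∈ Sv (Jx (e + 1)) H (u, w).1 (u, w).2 (g (u, w)) := by
      rw [mem_Sv, hgdef]
      exact ⟨hcB, huw⟩
    obtain ⟨T, hT⟩ : ∃ T, T = max u.natAbs w.natAbs := ⟨_, rfl⟩
    by_cases hTX : X < T
    · rw [Finset.mem_union]
      right
      apply hbig
      rw [← hX, ← hT]
      exact hTX
    · push Not at hTX
      rw [Finset.mem_union]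
      left
      have hBT : B₀ < T := by rw [hT]; exact hBuw
      have hT0 : 0 < T := by omega
      · by_cases hTT : T ≤ T₁
        · rw [Finset.mem_union, Finset.mem_union]
          left; left
          rw [Finset.mem_biUnion]
          refine ⟨T, Finset.mem_Icc.2 ⟨hBT.le, hTT⟩, ?_⟩
          rw [Finset.mem_biUnion]
          exact ⟨(u, w), mem_Qs hT, hcS⟩
        · push Not at hTT
          have huT : u.natAbs ≤ T := by rw [hT]; exact le_max_left _ _
          have hwT : w.natAbs ≤ T := by rw [hT]; exact le_max_right _ _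
          have hTT' : (T₁ : ℝ) ≤ T := by exact_mod_cast hTT.le
          have hT1r : (T₁ : ℝ) = c₁ * t := by rw [hT1]; push_cast; rfl
          have ht1' : (1 : ℝ) ≤ t := by exact_mod_cast ht1
          have hc1T : (c₁ : ℝ) ≤ T := by
            rw [hT1r] at hTT'
            nlinarith
          have hT0' : (0 : ℝ) < T := by linarith
          have hcond : C₁ * (H * (T : ℝ) ^ e) ≤ (T : ℝ) ^ d := by
            have e1 : (T : ℝ) ^ d = T ^ (d - e) * T ^ e := by
              rw [← pow_add]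
              congr 1
              omega
            rw [e1, ← mul_assoc]
            apply mul_le_mul_of_nonneg_right _ (by positivity)
            have h1 : ((c₁ : ℝ) * t) ^ (d - e) ≤ (T : ℝ) ^ (d - e) := by
              rw [hT1r] at hTT'
              exact pow_le_pow_left₀ (by positivity) hTT' _
            rw [mul_pow] at h1
            refine le_trans ?_ h1
            apply mul_le_mul _ hHt (by linarith) (by positivity)
            refine hc1C.trans ?_
            exact le_self_pow₀ hc11 (by omega)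
          have hval : |(Vl A d b u w : ℝ)| ≤ n * (H * (T : ℝ) ^ e) := by
            have h1 := low_bound hcB hT0 huT hwT (k := e) (Jx (e + 1)) (by
              intro p hp
              rw [mem_Jx] at hp
              omega)
            have h2 : (∑ p ∈ Jx (e + 1), c p * w ^ p.1 * u ^ p.2 : ℤ) = -Vl A d b u w := huw
            rw [h2] at h1
            push_cast at h1
            rw [abs_neg] at h1
            rw [hn]
            linarith
          obtain ⟨hTB, θ, hθ, hclose⟩ := hnear H u w T (by linarith) hT (hc1C.trans hc1T) hcond hval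
          have htU : t ≤ u.natAbs := by
            by_contra hcon
            push Not at hcon
            have h1 : B * u.natAbs ≤ B * t := Nat.mul_le_mul_left _ hcon.le
            have h2 : B * t ≤ c₁ * t := Nat.mul_le_mul_right _ hc1B
            omega
          by_cases hUU : u.natAbs ≤ U₂
          · rw [Finset.mem_union, Finset.mem_union]
            left; right
            rw [Finset.mem_biUnion]
            refine ⟨u.natAbs, Finset.mem_Icc.2 ⟨htU, hUU⟩, ?_⟩
            rw [Finset.mem_biUnion]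
            exact ⟨(u, w), mem_Rs rfl hθ hclose, hcS⟩
          · push Not at hUU
            rw [Finset.mem_union]
            right
            rw [Finset.mem_biUnion]
            obtain ⟨k, hk⟩ : ∃ k, k = Nat.log 2 (u.natAbs / U₂) := ⟨_, rfl⟩
            have hdiv : u.natAbs / U₂ ≠ 0 := by
              have := Nat.div_pos hUU.le hU2pos
              omega
            have hk1 : 2 ^ k ≤ u.natAbs / U₂ := by
              rw [hk]
              exact Nat.pow_log_le_self 2 hdiv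
            have hk2 : u.natAbs / U₂ < 2 ^ (k + 1) := by
              rw [hk]
              exact Nat.lt_pow_succ_log_self (by norm_num) _
            have hk3 : 2 ^ k * U₂ ≤ u.natAbs :=
              (Nat.mul_le_mul_right _ hk1).trans (Nat.div_mul_le_self _ _)
            have hk4 : u.natAbs ≤ 2 ^ (k + 1) * U₂ := by
              have h1 : u.natAbs < (u.natAbs / U₂ + 1) * U₂ := by
                have h3 := Nat.div_add_mod u.natAbs U₂
                have h4 := Nat.mod_lt u.natAbs hU2pos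
                calc u.natAbs = U₂ * (u.natAbs / U₂) + u.natAbs % U₂ := h3.symm
                  _ < U₂ * (u.natAbs / U₂) + U₂ := by omega
                  _ = _ := by ring
              have h2 : (u.natAbs / U₂ + 1) * U₂ ≤ 2 ^ (k + 1) * U₂ := Nat.mul_le_mul_right _ hk2
              omega
            have hkL : k ≤ L := by
              rw [hk, hL]
              apply Nat.log_mono_right
              exact (Nat.div_le_self _ _).trans (huT.trans hTX)
            refine ⟨k, Finset.mem_range.2 (by omega), ?_⟩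
            rw [Finset.mem_biUnion]
            refine ⟨(u, w), ?_, hcS⟩
            unfold Ds
            rw [Finset.mem_filter, Finset.mem_product, Finset.mem_Icc, Finset.mem_Icc]
            have hua : (u.natAbs : ℝ) = |(u : ℝ)| := by
              rw [← Int.cast_abs, Int.abs_eq_natAbs]
              rfl
            have hk3' : (2 : ℝ) ^ k * U₂ ≤ |(u : ℝ)| := by
              rw [← hua]
              exact_mod_cast hk3
            have hk4' : |(u : ℝ)| ≤ 2 * ((2 : ℝ) ^ k * U₂) := by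
              rw [← hua]
              have : ((u.natAbs : ℕ) : ℝ) ≤ ((2 ^ (k + 1) * U₂ : ℕ) : ℝ) := by exact_mod_cast hk4
              push_cast at this
              rw [pow_succ] at this
              linarith
            refine ⟨⟨by simp only; omega, by simp only; omega⟩, θ, hθ, hk3', hk4', ?_, ?_⟩
            · -- distance
              refine hclose.trans ?_
              have h1 : (H : ℝ) / (u.natAbs : ℝ) ^ (d - 1 - e) ≤ 1 := by
                have hUr : (U₂ : ℝ) ≤ u.natAbs := by exact_mod_cast hUU.le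
                have hu1 : (1 : ℝ) ≤ u.natAbs := by linarith
                rw [div_le_one (by positivity)]
                calc (H : ℝ) = √H * √H := hsqH.symm
                  _ ≤ u.natAbs * u.natAbs := mul_le_mul (by linarith) (by linarith) (by linarith) (by linarith)
                  _ = (u.natAbs : ℝ) ^ 2 := by ring
                  _ ≤ _ := pow_le_pow_right₀ hu1 (by omega)
              calc K₀ * (1 + H / (u.natAbs : ℝ) ^ (d - 1 - e)) ≤ K₀ * 2 :=
                    mul_le_mul_of_nonneg_left (by linarith) (by linarith)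
                _ = 2 * K₀ := by ring
            · -- value
              rw [← hd]
              simp only
              refine hval.trans ?_
              obtain ⟨M, hM⟩ : ∃ M : ℝ, M = (2 : ℝ) ^ k * U₂ := ⟨_, rfl⟩
              rw [← hM] at hk3' hk4' ⊢
              have hM1 : 1 ≤ M := by
                rw [hM]
                have h2 : (1 : ℝ) ≤ 2 ^ k := one_le_pow₀ (by norm_num)
                have h3 : (1 : ℝ) ≤ U₂ := by exact_mod_cast hU2pos
                nlinarith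
              have hTM : (T : ℝ) ≤ 2 * B * M := by
                have h1 : (T : ℝ) ≤ B * u.natAbs := by exact_mod_cast hTB
                rw [hua] at h1
                have h2 : (B : ℝ) * |(u : ℝ)| ≤ B * (2 * M) :=
                  mul_le_mul_of_nonneg_left hk4' (by linarith)
                linarith
              have h1 : (T : ℝ) ^ e ≤ (2 * B) ^ e * M ^ e := by
                rw [← mul_pow]
                exact pow_le_pow_left₀ (by linarith) hTM _
              have h2 : M ^ e ≤ M ^ (d - 4) := pow_le_pow_right₀ hM1 (by omega)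
              calc (n : ℝ) * (H * (T : ℝ) ^ e) ≤ n * (H * ((2 * B) ^ e * M ^ (d - 4))) := by
                    apply mul_le_mul_of_nonneg_left _ (by linarith)
                    apply mul_le_mul_of_nonneg_left _ (by linarith)
                    exact h1.trans (mul_le_mul_of_nonneg_left h2 (by positivity))
                _ = V * M ^ (d - 4) := by
                  rw [hV, hV0]
                  ring
  -- the cardinalities
  obtain ⟨W, hW⟩ : ∃ W : ℝ, W = (H : ℝ) ^ (n - 1) := ⟨_, rfl⟩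
  have hW1 : 1 ≤ W := by rw [hW]; exact one_le_pow₀ hH1'
  have hlogH : Real.log 2 ≤ Real.log H := Real.log_le_log (by norm_num) (by exact_mod_cast hH2)
  have hlog2 := log_two_half
  have hB0pos : (0 : ℝ) < B₀ := by linarith
  have c1 : (((Finset.Icc B₀ T₁).biUnion (fun T => (Qs T).biUnion
        (fun P => Sv (Jx (e + 1)) H P.1 P.2 (g P)))).card : ℝ) ≤
        24 * 3 ^ e * 3 ^ n * (W / B₀) := by
    have h1 := range_one_tail he3 (by omega : 1 ≤ H) hB0 hT1H g
    rw [← hn, ← hW] at h1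
    refine h1.trans (le_of_eq ?_)
    ring
  have c2 : (((Finset.Icc t U₂).biUnion (fun U => (Rs A (K₀ * (1 + H / (U : ℝ) ^ (d - 1 - e))) U).biUnion
        (fun P => Sv (Jx (e + 1)) H P.1 P.2 (g P)))).card : ℝ) ≤
        24 * d * K₀ * 3 ^ e * 3 ^ n * (W / B₀) := by
    have h1 := range_two_tail (A := A) he3 (by rw [← hd]; exact hed) (by omega : 1 ≤ H) ht1 hU2H
      (by rw [← hd]; exact hHt) hK0 g
    rw [← hn, ← hW, ← hd] at h1
    refine h1.trans ?_
    have h2 : (4 : ℝ) / t ≤ 4 / B₀ :=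
      div_le_div_of_nonneg_left (by norm_num) hB0pos (by exact_mod_cast hB0t)
    calc 6 * d * K₀ * 3 ^ e * 3 ^ n * W * (4 / (t : ℝ)) ≤ 6 * d * K₀ * 3 ^ e * 3 ^ n * W * (4 / (B₀ : ℝ)) :=
          mul_le_mul_of_nonneg_left h2 (by positivity)
      _ = _ := by ring
  have hLlog : (L : ℝ) + 1 ≤ CL * Real.log H := by
    have hX0 : 0 < X := by
      rw [hX]
      exact Nat.mul_pos hCb (Nat.pow_pos (by omega))
    have h1 : 2 ^ L ≤ X := by
      rw [hL]
      exact Nat.pow_log_le_self 2 (by omega)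
    have h2 : (L : ℝ) * Real.log 2 ≤ Real.log Cb + kb * Real.log H := by
      have h3 : ((2 : ℝ)) ^ L ≤ X := by exact_mod_cast h1
      have h4 := Real.log_le_log (by positivity) h3
      rw [Real.log_pow, hX] at h4
      push_cast at h4
      rw [Real.log_mul (by positivity) (by positivity), Real.log_pow] at h4
      exact h4
    have h5 : (L : ℝ) * (1 / 2) ≤ L * Real.log 2 := mul_le_mul_of_nonneg_left hlog2 (Nat.cast_nonneg _)
    have h6 : 0 ≤ Real.log Cb := Real.log_nonneg (by exact_mod_cast hCb)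
    rw [hCL]
    nlinarith
  have c3 : (((Finset.range (L + 1)).biUnion (fun j => (Ds A b (2 * K₀) V X (2 ^ j * U₂)).biUnion
        (fun P => Sv (Jx (e + 1)) H P.1 P.2 (g P)))).card : ℝ) ≤
        2 * CL * (d * (Ks * √V₀) * 3 ^ (n + e)) * (W / B₀) := by
    have h1 := range_three (A := A) (b := b) (e := e) (X := X) (L := L) (by omega : 1 ≤ H) hsU2
      (K₀ := 2 * K₀) (V := V) (k := Ks * √V) (by positivity) (by
        intro j θ hθ S' hS'
        apply hsc θ hθ (2 ^ j * U₂) V hV1 _ _ S' hS'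
        · have h2 : (1 : ℝ) ≤ 2 ^ j := one_le_pow₀ (by norm_num)
          have h3 : (1 : ℝ) ≤ U₂ := by exact_mod_cast hU2pos
          nlinarith
        · have h2 : (1 : ℝ) ≤ 2 ^ j := one_le_pow₀ (by norm_num)
          have h3 : (U₂ : ℝ) ≤ 2 ^ j * U₂ := le_mul_of_one_le_left (Nat.cast_nonneg _) h2
          have h4 : (U₂ : ℝ) ^ 2 ≤ (2 ^ j * (U₂ : ℝ)) ^ 2 := pow_le_pow_left₀ (Nat.cast_nonneg _) h3 _
          refine le_trans ?_ h4
          have h5 : (C₂ * √(H : ℝ)) ^ 2 ≤ (U₂ : ℝ) ^ 2 := pow_le_pow_left₀ (by positivity) hU2l _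
          refine le_trans ?_ h5
          rw [mul_pow, Real.sq_sqrt (by linarith), hV, ← mul_assoc]
          apply mul_le_mul_of_nonneg_right _ (by linarith)
          nlinarith) g
    rw [← hn, ← hd] at h1
    refine h1.trans ?_
    have h2 := half_pow (H := H) (e := e) (n := n) (by omega) he hn1
    rw [← hW] at h2
    have h3 : √V = √V₀ * √H := by rw [hV, Real.sqrt_mul (by linarith)]
    rw [h3]
    have h4 : ((L : ℝ) + 1) * (d * (Ks * (√V₀ * √H)) * ((3 * √H) ^ e * (2 * H + 1) ^ (n - (e + 1)))) =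
        (L + 1) * (d * (Ks * √V₀)) * (√H * ((3 * √H) ^ e * (2 * H + 1) ^ (n - (e + 1)))) := by ring
    rw [h4]
    have h5 : (L + 1) * (d * (Ks * √V₀)) * (√H * ((3 * √H) ^ e * (2 * H + 1) ^ (n - (e + 1)))) ≤
        (L + 1) * (d * (Ks * √V₀)) * (3 ^ (n + e) * W / √H ^ (e - 1)) :=
      mul_le_mul_of_nonneg_left h2 (by positivity)
    refine h5.trans ?_
    have h6 : ((L : ℝ) + 1) / √H ^ (e - 1) ≤ 2 * CL / B₀ := by
      have hsp : 0 < √(H : ℝ) ^ (e - 1) := by positivity
      have h8 : (H : ℝ) ≤ √H ^ (e - 1) := by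
        calc (H : ℝ) = √H ^ 2 := (Real.sq_sqrt (by linarith)).symm
          _ ≤ _ := pow_le_pow_right₀ hs1 (by omega)
      have h7 : Real.log H ≤ 2 * √H := by
        have e1 : Real.log H = 2 * Real.log √H := by
          rw [Real.log_sqrt (by linarith)]
          ring
        have e2 : Real.log √H ≤ √H := (Real.log_le_sub_one_of_pos (by linarith)).trans (by linarith)
        linarith
      rw [div_le_div_iff₀ hsp hB0pos]
      have h9 : ((L : ℝ) + 1) * B₀ ≤ (CL * (2 * √H)) * √H := by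
        apply mul_le_mul _ hB0s hB0pos.le (by positivity)
        exact hLlog.trans (mul_le_mul_of_nonneg_left h7 hCL0)
      have h10 : (CL * (2 * √(H : ℝ))) * √H = 2 * CL * H := by
        rw [← hsqH]
        ring_nf
        rw [Real.sq_sqrt (by positivity)]
      rw [h10] at h9
      refine h9.trans ?_
      exact mul_le_mul_of_nonneg_left h8 (by positivity)
    calc ((L : ℝ) + 1) * (d * (Ks * √V₀)) * (3 ^ (n + e) * W / √H ^ (e - 1)) =
        ((L + 1) / √H ^ (e - 1)) * ((d * (Ks * √V₀)) * 3 ^ (n + e) * W) := by ring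
      _ ≤ (2 * CL / B₀) * ((d * (Ks * √V₀)) * 3 ^ (n + e) * W) := by
        apply mul_le_mul_of_nonneg_right h6 (by positivity)
      _ = _ := by ring
  have c4 : (Sb.card : ℝ) ≤ N₀ * (W / B₀) := by
    have h1 : (Sb.card : ℝ) ≤ N₀ := by exact_mod_cast hSb
    have h2 : 1 ≤ W / B₀ := by
      rw [le_div_iff₀ hB0pos, one_mul, hW]
      have h3 : (H : ℝ) ≤ (H : ℝ) ^ (n - 1) := le_self_pow₀ hH1' (by omega)
      have h4 : √(H : ℝ) ≤ H := by
        rw [Real.sqrt_le_left (by linarith)]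
        nlinarith
      linarith
    exact h1.trans (le_mul_of_one_le_right (Nat.cast_nonneg _) h2)
  have htot2 := card4 _ _ _ _ _ hcov
  rw [← hn, ← hW]
  have e1 : (24 * 3 ^ e * 3 ^ n + 24 * d * K₀ * 3 ^ e * 3 ^ n +
    2 * CL * (d * (Ks * √V₀) * 3 ^ (n + e)) + N₀ : ℝ) * (W / B₀) =
    24 * 3 ^ e * 3 ^ n * (W / B₀) + 24 * d * K₀ * 3 ^ e * 3 ^ n * (W / B₀) +
    2 * CL * (d * (Ks * √V₀) * 3 ^ (n + e)) * (W / B₀) + N₀ * (W / B₀) := by ring
  rw [e1]
  linarith

end Pool.Agent.TH728.PL
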