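import Pool.Agent.TH728.PL.Rng
import Pool.Agent.TH728.PL.Sums

/-!
The upper bound.
-/

open Polynomial

namespace Pool.Agent.TH728.PL

open Pool.Agent.TH728.FX

lemma card_ge (e : ℕ) : e + 1 ≤ (Jx (e + 1)).card := by
  have := Finset.card_le_card (Dg_sub e)
  rwa [card_Dg] at this

lemma pow_box {H n k : ℕ} (hH : 1 ≤ H) (hk : k + 1 ≤ n) :
    (H : ℝ) ^ k * (2 * H + 1) ^ (n - (k + 1)) ≤ 3 ^ n * (H : ℝ) ^ (n - 1) := by
  have hH1 : (1 : ℝ) ≤ H := by exact_mod_cast hH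
  have h1 : (2 * (H : ℝ) + 1) ^ (n - (k + 1)) ≤ (3 * H) ^ (n - (k + 1)) :=
    pow_le_pow_left₀ (by positivity) (by linarith) _
  calc (H : ℝ) ^ k * (2 * H + 1) ^ (n - (k + 1)) ≤ H ^ k * (3 * H) ^ (n - (k + 1)) :=
        mul_le_mul_of_nonneg_left h1 (by positivity)
    _ = 3 ^ (n - (k + 1)) * (H ^ k * H ^ (n - (k + 1))) := by rw [mul_pow]; ring
    _ = 3 ^ (n - (k + 1)) * H ^ (n - 1) := by
      rw [← pow_add]
      congr 2
      omega
    _ ≤ _ := by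
      apply mul_le_mul_of_nonneg_right _ (by positivity)
      exact pow_le_pow_right₀ (by norm_num) (by omega)

open Classical in
lemma range_one {H e T₁ : ℕ} (he : 1 ≤ e) (hH : 1 ≤ H) (hT0 : 1 ≤ T₁) (hT : T₁ ≤ H)
    (g : ℤ × ℤ → ℤ) :
    (((Finset.Icc 1 T₁).biUnion (fun T => (Qs T).biUnion
      (fun P => Sv (Jx (e + 1)) H P.1 P.2 (g P)))).card : ℝ) ≤
      12 * 3 ^ e * 3 ^ (Jx (e + 1)).card * H ^ ((Jx (e + 1)).card - 1) *
        (if e = 1 then (T₁ : ℝ) else if e = 2 then 1 + Real.log T₁ else 2) := by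
  have h1 := bi_card (Finset.Icc 1 T₁) Qs (fun P : ℤ × ℤ => Sv (Jx (e + 1)) H P.1 P.2 (g P))
    (fun T => 12 * (T : ℝ))
    (fun T => (3 * H / T) ^ e * (2 * H + 1) ^ ((Jx (e + 1)).card - (e + 1)))
    (fun T hT => Qs_card (Finset.mem_Icc.1 hT).1) (fun T hT' P hP =>
      Sv_real e (Finset.mem_Icc.1 hT').1 ((Finset.mem_Icc.1 hT').2.trans hT) (Qs_abs hP) _)
    (fun T _ => by positivity)
  refine h1.trans ?_
  have h2 : ∀ T ∈ Finset.Icc 1 T₁, 12 * (T : ℝ) * ((3 * H / T) ^ e *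
      (2 * H + 1) ^ ((Jx (e + 1)).card - (e + 1))) =
      12 * 3 ^ e * ((H : ℝ) ^ e * (2 * H + 1) ^ ((Jx (e + 1)).card - (e + 1))) *
        ((T : ℝ) * (1 / T) ^ e) := by
    intro T _
    rw [div_pow, div_pow, mul_pow, one_pow]
    ring
  rw [Finset.sum_congr rfl h2, ← Finset.mul_sum]
  have h3 := pow_box hH (card_ge e)
  have h4 := sum_one he hT0
  have h5 : 0 ≤ ∑ T ∈ Finset.Icc 1 T₁, (T : ℝ) * (1 / T) ^ e :=
    Finset.sum_nonneg fun _ _ => by positivity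
  calc _ ≤ 12 * 3 ^ e * (3 ^ (Jx (e + 1)).card * (H : ℝ) ^ ((Jx (e + 1)).card - 1)) *
        ∑ T ∈ Finset.Icc 1 T₁, (T : ℝ) * (1 / T) ^ e := by
        apply mul_le_mul_of_nonneg_right _ h5
        exact mul_le_mul_of_nonneg_left h3 (by positivity)
    _ ≤ 12 * 3 ^ e * (3 ^ (Jx (e + 1)).card * (H : ℝ) ^ ((Jx (e + 1)).card - 1)) * _ :=
        mul_le_mul_of_nonneg_left h4 (by positivity)
    _ = _ := by ring

open Classical in
lemma range_two {A : ℤ[X]} {H e t U₂ : ℕ} (he : 1 ≤ e) (hed : e + 4 ≤ A.natDegree) (hH : 1 ≤ H)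
    (ht : 1 ≤ t) (htU : t ≤ U₂) (hU : U₂ ≤ H) (hHt : (H : ℝ) ≤ (t : ℝ) ^ (A.natDegree - e)) {K₀ : ℝ}
    (hK : 1 ≤ K₀) (g : ℤ × ℤ → ℤ) :
    (((Finset.Icc t U₂).biUnion (fun U => (Rs A (K₀ * (1 + H / (U : ℝ) ^ (A.natDegree - 1 - e))) U).biUnion
      (fun P => Sv (Jx (e + 1)) H P.1 P.2 (g P)))).card : ℝ) ≤
      6 * A.natDegree * K₀ * 3 ^ e * 3 ^ (Jx (e + 1)).card * H ^ ((Jx (e + 1)).card - 1) *
        ((if e = 1 then 1 + Real.log U₂ else 2) +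
          (if e = 1 then 2 * (t : ℝ) else 2 * (t : ℝ) ^ (2 - e))) := by
  have hY : ∀ U : ℕ, 1 ≤ K₀ * (1 + H / (U : ℝ) ^ (A.natDegree - 1 - e)) := by
    intro U
    have : 0 ≤ (H : ℝ) / (U : ℝ) ^ (A.natDegree - 1 - e) := by positivity
    nlinarith
  have h1 := bi_card (Finset.Icc t U₂) (fun U : ℕ => Rs A (K₀ * (1 + H / (U : ℝ) ^ (A.natDegree - 1 - e))) U)
    (fun P : ℤ × ℤ => Sv (Jx (e + 1)) H P.1 P.2 (g P))
    (fun U => 6 * A.natDegree * (K₀ * (1 + H / (U : ℝ) ^ (A.natDegree - 1 - e))))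
    (fun T => (3 * H / T) ^ e * (2 * H + 1) ^ ((Jx (e + 1)).card - (e + 1)))
    (fun U _ => Rs_card A (hY U) U) (fun T hT' P hP =>
      Sv_real e (ht.trans (Finset.mem_Icc.1 hT').1) ((Finset.mem_Icc.1 hT').2.trans hU)
        (Or.inl (Rs_abs hP)) _)
    (fun T _ => by positivity)
  refine h1.trans ?_
  have h2 : ∀ U ∈ Finset.Icc t U₂, 6 * A.natDegree * (K₀ * (1 + H / (U : ℝ) ^ (A.natDegree - 1 - e))) *
      ((3 * H / U) ^ e * (2 * H + 1) ^ ((Jx (e + 1)).card - (e + 1))) =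
      6 * A.natDegree * K₀ * 3 ^ e * ((H : ℝ) ^ e * (2 * H + 1) ^ ((Jx (e + 1)).card - (e + 1))) *
        ((1 / (U : ℝ)) ^ e + (1 / (U : ℝ)) ^ e * (H / (U : ℝ) ^ (A.natDegree - 1 - e))) := by
    intro T _
    rw [div_pow (3 * (H : ℝ)), div_pow 1, mul_pow 3, one_pow]
    ring
  rw [Finset.sum_congr rfl h2, ← Finset.mul_sum, Finset.sum_add_distrib]
  have h3 := pow_box hH (card_ge e)
  have h4 := sum_two he ht htU
  have h6 := sum_three hed ht (n := U₂) (Nat.cast_nonneg H) hHt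
  have h5 : 0 ≤ ∑ U ∈ Finset.Icc t U₂, (1 / (U : ℝ)) ^ e +
      ∑ U ∈ Finset.Icc t U₂, (1 / (U : ℝ)) ^ e * (H / (U : ℝ) ^ (A.natDegree - 1 - e)) :=
    add_nonneg (Finset.sum_nonneg fun _ _ => by positivity)
      (Finset.sum_nonneg fun _ _ => by positivity)
  have hK0 : 0 ≤ K₀ := by linarith
  calc _ ≤ 6 * A.natDegree * K₀ * 3 ^ e * (3 ^ (Jx (e + 1)).card * (H : ℝ) ^ ((Jx (e + 1)).card - 1)) *
        (∑ U ∈ Finset.Icc t U₂, (1 / (U : ℝ)) ^ e +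
      ∑ U ∈ Finset.Icc t U₂, (1 / (U : ℝ)) ^ e * (H / (U : ℝ) ^ (A.natDegree - 1 - e))) := by
        apply mul_le_mul_of_nonneg_right _ h5
        exact mul_le_mul_of_nonneg_left h3 (by positivity)
    _ ≤ 6 * A.natDegree * K₀ * 3 ^ e * (3 ^ (Jx (e + 1)).card * (H : ℝ) ^ ((Jx (e + 1)).card - 1)) * _ :=
        mul_le_mul_of_nonneg_left (add_le_add h4 h6) (by positivity)
    _ = _ := by ring

open Classical in
lemma range_three {A : ℤ[X]} {b : ℕ × ℕ → ℤ} {H e U₂ X L : ℕ} (hH : 1 ≤ H)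
    (hU : √H ≤ (U₂ : ℝ)) {K₀ V k : ℝ} (hk : 0 ≤ k)
    (hD : ∀ j : ℕ, ∀ θ ∈ Rt A, ∀ S : Finset (ℤ × ℤ), (∀ P ∈ S, Nr A b θ K₀ (2 ^ j * U₂) V P) →
      (S.card : ℝ) ≤ k)
    (g : ℤ × ℤ → ℤ) :
    (((Finset.range (L + 1)).biUnion (fun j => (Ds A b K₀ V X (2 ^ j * U₂)).biUnion
      (fun P => Sv (Jx (e + 1)) H P.1 P.2 (g P)))).card : ℝ) ≤
      (L + 1) * (A.natDegree * k * ((3 * √H) ^ e * (2 * H + 1) ^ ((Jx (e + 1)).card - (e + 1)))) := by
  have hH1 : (1 : ℝ) ≤ H := by exact_mod_cast hH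
  have hs1 : 1 ≤ √(H : ℝ) := by rw [Real.one_le_sqrt]; exact hH1
  have hU0 : 0 < U₂ := by
    have : (0 : ℝ) < U₂ := by linarith
    exact_mod_cast this
  have h1 := bi_card (Finset.range (L + 1)) (fun j => Ds A b K₀ V X (2 ^ j * U₂))
    (fun P : ℤ × ℤ => Sv (Jx (e + 1)) H P.1 P.2 (g P)) (fun _ => A.natDegree * k)
    (fun _ => (3 * √H) ^ e * (2 * H + 1) ^ ((Jx (e + 1)).card - (e + 1)))
    (fun j _ => Ds_card X hk (hD j)) (fun j _ P hP => by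
      have h2 := Ds_nr hP
      have h3 : (U₂ : ℝ) ≤ (P.1.natAbs : ℝ) := by
        have e1 : (P.1.natAbs : ℝ) = |(P.1 : ℝ)| := by
          rw [← Int.cast_abs, Int.abs_eq_natAbs]
          rfl
        rw [e1]
        refine le_trans ?_ h2
        exact le_mul_of_one_le_left (Nat.cast_nonneg _) (one_le_pow₀ (by norm_num))
      have h3' : U₂ ≤ P.1.natAbs := by exact_mod_cast h3
      have h4 := Sv_upper (H := H) e (T := P.1.natAbs) (by omega) (u := P.1) (w := P.2) (Or.inl rfl) (g P)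
      have h5 : ((Sv (Jx (e + 1)) H P.1 P.2 (g P)).card : ℝ) ≤
          ((2 * H / P.1.natAbs + 1 : ℕ) : ℝ) ^ e * (2 * H + 1) ^ ((Jx (e + 1)).card - (e + 1)) := by
        exact_mod_cast h4
      refine h5.trans (mul_le_mul_of_nonneg_right ?_ (by positivity))
      apply pow_le_pow_left₀ (by positivity)
      have h6 : (((2 * H / P.1.natAbs : ℕ) : ℕ) : ℝ) ≤ 2 * H / P.1.natAbs := by
        have := @Nat.cast_div_le ℝ _ _ _ (2 * H) P.1.natAbs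
        push_cast at this
        exact this
      push_cast
      have h7 : 2 * (H : ℝ) / P.1.natAbs ≤ 2 * √H := by
        rw [div_le_iff₀ (by linarith)]
        have h8 : √(H : ℝ) * √H = H := Real.mul_self_sqrt (by linarith)
        have h9 : √(H : ℝ) * √H ≤ √H * P.1.natAbs :=
          mul_le_mul_of_nonneg_left (hU.trans h3) (by positivity)
        linarith
      linarith)
    (fun j _ => by positivity)
  refine h1.trans (le_of_eq ?_)
  rw [Finset.sum_const, Finset.card_range, nsmul_eq_mul]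
  push_cast
  ring

lemma half_pow {H e n : ℕ} (hH : 1 ≤ H) (he : 1 ≤ e) (hn : e + 1 ≤ n) :
    √(H : ℝ) * ((3 * √H) ^ e * (2 * H + 1) ^ (n - (e + 1))) ≤
      3 ^ (n + e) * (H : ℝ) ^ (n - 1) / √H ^ (e - 1) := by
  have hH1 : (1 : ℝ) ≤ H := by exact_mod_cast hH
  have hs1 : 1 ≤ √(H : ℝ) := by rw [Real.one_le_sqrt]; exact hH1
  have hs0 : 0 < √(H : ℝ) := by linarith
  rw [le_div_iff₀ (by positivity)]
  have h1 : √(H : ℝ) * ((3 * √H) ^ e * (2 * H + 1) ^ (n - (e + 1))) * √H ^ (e - 1) =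
      3 ^ e * ((H : ℝ) ^ e * (2 * H + 1) ^ (n - (e + 1))) := by
    have h2 : (H : ℝ) ^ e = √H * √H ^ e * √H ^ (e - 1) := by
      rw [mul_comm (√(H : ℝ)), ← pow_succ, ← pow_add, show e + 1 + (e - 1) = 2 * e by omega, pow_mul,
        Real.sq_sqrt (by linarith)]
    rw [h2, mul_pow]
    ring
  rw [h1, pow_add, mul_comm (3 ^ n : ℝ), mul_assoc]
  exact mul_le_mul_of_nonneg_left (pow_box hH hn) (by positivity)

end Pool.Agent.TH728.PL
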