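import Pool.Agent.TH728.FX.Window

/-!
Integer points with small values of a fixed polynomial near an asymptote: few points at each scale.
-/

open Polynomial

namespace Pool.Agent.TH728.PL

open Pool.Agent.TH728.FX

/-- points near the asymptote of slope `θ` at scale `M` -/
def Nr (A : ℤ[X]) (b : ℕ × ℕ → ℤ) (θ K₀ M V : ℝ) (P : ℤ × ℤ) : Prop :=
  M ≤ |(P.1 : ℝ)| ∧ |(P.1 : ℝ)| ≤ 2 * M ∧ |(P.2 : ℝ) - θ * P.1| ≤ K₀ ∧
    |(Vl A A.natDegree b P.1 P.2 : ℝ)| ≤ V * M ^ (A.natDegree - 4)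

lemma Nr.facts {A : ℤ[X]} {b : ℕ × ℕ → ℤ} {θ K₀ M V : ℝ} {P : ℤ × ℤ} {H : ℕ} (hH : 1 ≤ H)
    (hM : 0 < M) (hK : 0 ≤ K₀) (hd : 4 ≤ A.natDegree) (h : Nr A b θ K₀ M V P) :
    (P.1 : ℝ) ≠ 0 ∧ |(H : ℝ) / P.1| ≤ H / M ∧ |(P.2 : ℝ) / P.1 - θ| ≤ K₀ * (H / M) ∧
      |Ps A A.natDegree (nb A.natDegree b H) ((H : ℝ) / P.1) ((P.2 : ℝ) / P.1)| ≤ V / M ^ 4 := by
  obtain ⟨h1, h2, h3, h4⟩ := h
  have hpos : 0 < |(P.1 : ℝ)| := by linarith
  have hne : (P.1 : ℝ) ≠ 0 := abs_pos.1 hpos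
  have hH1 : (1 : ℝ) ≤ H := by exact_mod_cast hH
  refine ⟨hne, ?_, ?_, ?_⟩
  · rw [abs_div, Nat.abs_cast]
    exact div_le_div_of_nonneg_left (by linarith) hM h1
  · have e : (P.2 : ℝ) / P.1 - θ = (P.2 - θ * P.1) / P.1 := by field_simp
    rw [e, abs_div, div_le_iff₀ hpos]
    have h5 : K₀ * 1 ≤ K₀ * (H / M * |(P.1 : ℝ)|) := by
      apply mul_le_mul_of_nonneg_left _ hK
      rw [div_mul_eq_mul_div, le_div_iff₀ hM]
      have := mul_le_mul hH1 h1 hM.le (by linarith)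
      linarith
    linarith
  · have h5 := Vl_eq A b hH (u := P.1) (by exact_mod_cast hne) P.2
    rw [h5, abs_mul, abs_pow] at h4
    have h6 : M ^ A.natDegree * |Ps A A.natDegree (nb A.natDegree b H) ((H : ℝ) / P.1)
        ((P.2 : ℝ) / P.1)| ≤ V * M ^ (A.natDegree - 4) := by
      refine le_trans ?_ h4
      exact mul_le_mul_of_nonneg_right (pow_le_pow_left₀ hM.le h1 _) (abs_nonneg _)
    have h7 : M ^ A.natDegree = M ^ (A.natDegree - 4) * M ^ 4 := by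
      rw [← pow_add]
      congr 1
      omega
    rw [le_div_iff₀ (by positivity)]
    rw [h7, mul_assoc, mul_comm V] at h6
    have h8 := le_of_mul_le_mul_left h6 (by positivity)
    rw [mul_comm]
    exact h8

set_option maxHeartbeats 4000000 in
lemma win_count {A : ℤ[X]} (hA : Irreducible (A.map (Int.castRingHom ℚ)))
    (hd : 4 ≤ A.natDegree) (K₀ : ℝ) (hK0 : 1 ≤ K₀) {H : ℕ} (hH : 1 ≤ H) {b : ℕ × ℕ → ℤ}
    (hb : b ∈ Bo (Jx A.natDegree) H)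
    (hg : ∀ θ ∈ Rt A, gam A A.natDegree (nb A.natDegree b H) θ ≠ 0) :
    ∃ C c : ℝ, 1 ≤ C ∧ 0 < c ∧ c ≤ 1 ∧ ∀ θ ∈ Rt A, ∀ M V : ℝ, 1 ≤ V → 1 ≤ M → C * V ≤ M ^ 2 →
      ∀ T : Finset (ℤ × ℤ), (∀ P ∈ T, Nr A b θ K₀ M V P) →
        (∀ P ∈ T, ∀ Q ∈ T, |(P.1 : ℝ) - Q.1| ≤ c * M) →
        ∀ m : ℕ, 2 * m + 1 ≤ T.card → (m : ℝ) ^ 2 ≤ C * V := by
  obtain ⟨r₀, K, a, hr0, hr01, hK, hK0K, ha, hγK, hmain⟩ := line_main hA A.natDegree K₀ hK0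
  have hH1 : (1 : ℝ) ≤ H := by exact_mod_cast hH
  have hH0 : (0 : ℝ) < H := by linarith
  have hβ := nb_le hH hb (d := A.natDegree)
  -- lower bound for the flex numbers
  obtain ⟨γ, hγ0, hγ⟩ : ∃ γ : ℝ, 0 < γ ∧ ∀ θ ∈ Rt A, γ ≤ |gam A A.natDegree (nb A.natDegree b H) θ| := by
    rcases (Rt A).eq_empty_or_nonempty with h0 | hne
    · exact ⟨1, one_pos, fun θ hθ => by rw [h0] at hθ; exact absurd hθ (Finset.notMem_empty θ)⟩
    · obtain ⟨θ0, hθ0, hmin⟩ := Finset.exists_min_image (Rt A)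
        (fun θ => |gam A A.natDegree (nb A.natDegree b H) θ|) hne
      exact ⟨_, abs_pos.2 (hg θ0 hθ0), hmin⟩
  obtain ⟨D, hD⟩ : ∃ D : ℝ, D = H / r₀ + 16 * K * H / γ + 4 * H + 1 := ⟨_, rfl⟩
  have hD1 : 0 < H / r₀ := by positivity
  have hD2 : 0 < 16 * K * H / γ := by positivity
  have hD0 : 1 ≤ D := by rw [hD]; linarith
  obtain ⟨C, hC⟩ : ∃ C : ℝ, C = D ^ 2 + 64 * K / γ + 100 / a + 256 / γ + 16 := ⟨_, rfl⟩
  have hC1 : 0 < 64 * K / γ := by positivity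
  have hC2 : 0 < 100 / a := by positivity
  have hC3 : 0 < 256 / γ := by positivity
  have hDD : 1 ≤ D ^ 2 := one_le_pow₀ hD0
  have hC0 : 1 ≤ C := by rw [hC]; linarith
  obtain ⟨c, hc⟩ : ∃ c : ℝ, c = min 1 (a / (32 * K * H ^ 2)) := ⟨_, rfl⟩
  have hc0 : 0 < c := by rw [hc]; positivity
  have hc1 : c ≤ 1 := by rw [hc]; exact min_le_left _ _
  have hc2 : 16 * K * H ^ 2 * c ≤ a / 2 := by
    have h1 : c ≤ a / (32 * K * H ^ 2) := by rw [hc]; exact min_le_right _ _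
    rw [le_div_iff₀ (by positivity)] at h1
    linarith
  refine ⟨C, c, hC0, hc0, hc1, ?_⟩
  intro θ hθ M V hV hM1 hCV T hT hTc m hm
  have hM0 : 0 < M := by linarith
  -- consequences of the size of `M`
  have hMD : D ≤ M := by
    have h1 : D ^ 2 ≤ M ^ 2 := by
      refine le_trans ?_ hCV
      have : C * 1 ≤ C * V := mul_le_mul_of_nonneg_left hV (by linarith)
      rw [hC] at this ⊢
      linarith
    exact le_of_sq_le_sq h1 hM0.le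
  obtain ⟨ε, hε⟩ : ∃ ε : ℝ, ε = V / M ^ 2 := ⟨_, rfl⟩
  have hε0 : 0 < ε := by rw [hε]; positivity
  have hCε : C * ε ≤ 1 := by
    rw [hε, ← mul_div_assoc, div_le_one (by positivity)]
    exact hCV
  obtain ⟨r, hr⟩ : ∃ r : ℝ, r = H / M := ⟨_, rfl⟩
  have hrpos : 0 < r := by rw [hr]; positivity
  have hrr0 : r ≤ r₀ := by
    rw [hr, div_le_iff₀ hM0]
    have h1 : H / r₀ ≤ M := by linarith
    rwa [div_le_iff₀ hr0, mul_comm] at h1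
  have hKr : K * r ≤ γ / 16 := by
    rw [hr, ← mul_div_assoc, div_le_div_iff₀ hM0 (by norm_num)]
    have h1 : 16 * K * H / γ ≤ M := by linarith
    rw [div_le_iff₀ hγ0] at h1
    linarith
  have hr4 : r ≤ 1 / 4 := by
    rw [hr, div_le_iff₀ hM0]
    linarith
  have hKε : K * (4 * ε) ≤ γ / 16 := by
    have h1 : 64 * K / γ * ε ≤ C * ε := mul_le_mul_of_nonneg_right (by rw [hC]; linarith) hε0.le
    have h2 : 64 * K / γ * ε * γ = 64 * K * ε := by field_simp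
    nlinarith
  have hε16 : ε ≤ 1 / 16 := by
    have h1 : 16 * ε ≤ C * ε := mul_le_mul_of_nonneg_right (by rw [hC]; linarith) hε0.le
    linarith
  have hεa : 100 * ε ≤ a := by
    have h1 : 100 / a * ε ≤ C * ε := mul_le_mul_of_nonneg_right (by rw [hC]; linarith) hε0.le
    have h2 : 100 / a * ε * a = 100 * ε := by field_simp
    nlinarith
  obtain ⟨v, hv⟩ : ∃ v : ℝ, v = V / M ^ 4 := ⟨_, rfl⟩
  have hv0 : 0 < v := by rw [hv]; positivity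
  have hvε : v * M ^ 2 = ε := by rw [hv, hε]; field_simp
  obtain ⟨m1, m2⟩ := hmain (nb A.natDegree b H) hβ θ hθ r v hrpos hrr0 hv0.le
  have hfacts : ∀ P ∈ T, (P.1 : ℝ) ≠ 0 ∧ |(H : ℝ) / P.1| ≤ r ∧ |(P.2 : ℝ) / P.1 - θ| ≤ K₀ * r ∧
      |Ps A A.natDegree (nb A.natDegree b H) ((H : ℝ) / P.1) ((P.2 : ℝ) / P.1)| ≤ v := by
    intro P hP
    rw [hr, hv]
    exact (hT P hP).facts hH hM0 (by linarith) hd
  have hK0r : K₀ * r ≤ K * r := mul_le_mul_of_nonneg_right hK0K hrpos.le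
  -- comparison of differences
  have key : ∀ P ∈ T, ∀ Q ∈ T, H * |(P.1 : ℝ) - Q.1| / (4 * M ^ 2) ≤ |(H : ℝ) / P.1 - H / Q.1| ∧
      |(H : ℝ) / P.1 - H / Q.1| ≤ H * |(P.1 : ℝ) - Q.1| / M ^ 2 := by
    intro P hP Q hQ
    obtain ⟨hn1, _, _, _⟩ := hfacts P hP
    obtain ⟨hn2, _, _, _⟩ := hfacts Q hQ
    have h1 := hT P hP
    have h2 := hT Q hQ
    have p1 : 0 < |(P.1 : ℝ)| := abs_pos.2 hn1
    have p2 : 0 < |(Q.1 : ℝ)| := abs_pos.2 hn2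
    rw [diff_inv hn1 hn2 hH0.le]
    constructor
    · apply div_le_div_of_nonneg_left (by positivity) (by positivity)
      calc |(P.1 : ℝ)| * |(Q.1 : ℝ)| ≤ (2 * M) * (2 * M) :=
            mul_le_mul h1.2.1 h2.2.1 (abs_nonneg _) (by linarith)
        _ = _ := by ring
    · apply div_le_div_of_nonneg_left (by positivity) (by positivity)
      calc M ^ 2 = M * M := by ring
        _ ≤ _ := mul_le_mul h1.1 h2.1 hM0.le (abs_nonneg _)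
  -- injectivity of the first coordinate
  have hinj : Set.InjOn Prod.fst (T : Set (ℤ × ℤ)) := by
    intro P₁ hPT P₂ hQT heq
    rw [Finset.mem_coe] at hPT hQT
    obtain ⟨hn1, hs1, ht1, hp1⟩ := hfacts P₁ hPT
    obtain ⟨hn2, hs2, ht2, hp2⟩ := hfacts P₂ hQT
    have hP1 := hT P₁ hPT
    rw [← heq] at hp2 ht2
    have f3 := m1 _ _ _ hs1 (ht1.trans hK0r) (ht2.trans hK0r) hp1
    have f4 : a * |(P₁.2 : ℝ) / P₁.1 - P₂.2 / P₁.1| ≤ 2 * v := by linarith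
    have f5 : |(P₁.2 : ℝ) - P₂.2| = |(P₁.1 : ℝ)| * |(P₁.2 : ℝ) / P₁.1 - P₂.2 / P₁.1| := by
      rw [← abs_mul]
      congr 1
      field_simp
    have f6 : a * |(P₁.2 : ℝ) - P₂.2| ≤ 2 * M * (2 * v) := by
      rw [f5]
      have : a * (|(P₁.1 : ℝ)| * |(P₁.2 : ℝ) / P₁.1 - P₂.2 / P₁.1|) =
        |(P₁.1 : ℝ)| * (a * |(P₁.2 : ℝ) / P₁.1 - P₂.2 / P₁.1|) := by ring
      rw [this]
      exact mul_le_mul hP1.2.1 f4 (by positivity) (by linarith)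
    have f7 : 2 * M * (2 * v) ≤ 4 * ε := by
      rw [← hvε]
      have : v * M ≤ v * M ^ 2 := mul_le_mul_of_nonneg_left (by nlinarith) hv0.le
      linarith
    have f10 : |(P₁.2 : ℝ) - P₂.2| < 1 := by
      by_contra hcon
      push Not at hcon
      have : a * 1 ≤ a * |(P₁.2 : ℝ) - P₂.2| := mul_le_mul_of_nonneg_left hcon ha.le
      linarith
    have f11 : |P₁.2 - P₂.2| < 1 := by exact_mod_cast f10
    have f12 := Int.abs_lt_one_iff.1 f11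
    exact Prod.ext heq (by omega)
  -- the line through two points
  have hline : ∀ P₁ ∈ T, ∀ P₂ ∈ T, P₁.1 ≠ P₂.1 → ∃ α β q : ℝ, (P₁.2 : ℝ) = α * P₁.1 + β ∧
      (P₂.2 : ℝ) = α * P₂.1 + β ∧ γ / 2 ≤ |q| - K * r ∧ |q| + K * r ≤ 2 * K ∧
      (∀ P₃ ∈ T, a * |(P₃.2 : ℝ) - α * P₃.1 - β| * |(H : ℝ) / P₁.1 - H / P₂.1| ≤
        |(P₃.1 : ℝ)| * (v * (|(H : ℝ) / P₁.1 - H / P₂.1| + (|(H : ℝ) / P₃.1 - H / P₂.1| +
          |(H : ℝ) / P₁.1 - H / P₃.1|)) + |(H : ℝ) / P₁.1 - H / P₃.1| *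
          |(H : ℝ) / P₃.1 - H / P₂.1| * |(H : ℝ) / P₁.1 - H / P₂.1| * (|q| + K * r))) ∧
      (∀ P₃ ∈ T, (P₃.2 : ℝ) = α * P₃.1 + β →
        |(H : ℝ) / P₁.1 - H / P₃.1| * |(H : ℝ) / P₃.1 - H / P₂.1| * |(H : ℝ) / P₁.1 - H / P₂.1| *
          (|q| - K * r) ≤ v * (|(H : ℝ) / P₃.1 - H / P₂.1| + |(H : ℝ) / P₁.1 - H / P₂.1| +
            |(H : ℝ) / P₁.1 - H / P₃.1|)) := by
    intro P₁ hPT1 P₂ hPT2 hne
    obtain ⟨hn1, hs1, ht1, hp1⟩ := hfacts P₁ hPT1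
    obtain ⟨hn2, hs2, ht2, hp2⟩ := hfacts P₂ hPT2
    obtain ⟨Δ, hΔ⟩ : ∃ Δ : ℝ, Δ = |(H : ℝ) / P₁.1 - H / P₂.1| := ⟨_, rfl⟩
    have hΔl : H / (4 * M ^ 2) ≤ Δ := by
      refine le_trans ?_ (hΔ ▸ (key P₁ hPT1 P₂ hPT2).1)
      have h1 : (1 : ℝ) ≤ |(P₁.1 : ℝ) - P₂.1| := by
        have : (1 : ℤ) ≤ |P₁.1 - P₂.1| := Int.one_le_abs (sub_ne_zero.2 hne)
        exact_mod_cast this
      apply div_le_div_of_nonneg_right _ (by positivity)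
      exact le_mul_of_one_le_right hH0.le h1
    have hΔpos : 0 < Δ := lt_of_lt_of_le (by positivity) hΔl
    have hvΔ : v ≤ 4 * ε * Δ := by
      have h1 : 1 / (4 * M ^ 2) ≤ Δ := by
        refine le_trans ?_ hΔl
        exact div_le_div_of_nonneg_right hH1 (by positivity)
      have h2 : 4 * ε * (1 / (4 * M ^ 2)) = v := by
        rw [← hvε]
        field_simp
      rw [← h2]
      exact mul_le_mul_of_nonneg_left h1 (by linarith)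
    have hvΔ' : v ≤ Δ := by
      refine hvΔ.trans ?_
      exact mul_le_of_le_one_left hΔpos.le (by linarith)
    have hσne : (H : ℝ) / P₁.1 ≠ H / P₂.1 := by
      intro h0
      rw [hΔ, h0, sub_self, abs_zero] at hΔpos
      exact lt_irrefl _ hΔpos
    rw [hΔ] at hvΔ'
    obtain ⟨α, c', q, e1, e2, g1, g2, g3⟩ := m2 _ _ _ _ hs1 hs2 ht1 ht2 hp1 hp2 hσne hvΔ'
    rw [← hΔ] at g1
    have hvd : v / Δ ≤ 4 * ε := by
      rw [div_le_iff₀ hΔpos]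
      exact hvΔ
    have g1' : |q - gam A A.natDegree (nb A.natDegree b H) θ| ≤ γ / 8 := by
      refine g1.trans ?_
      rw [mul_add]
      have : K * (v / Δ) ≤ K * (4 * ε) := mul_le_mul_of_nonneg_left hvd (by linarith)
      linarith
    have g1'' : |q - gam A A.natDegree (nb A.natDegree b H) θ| ≤ K * (r + 4 * ε) := by
      refine g1.trans (mul_le_mul_of_nonneg_left ?_ (by linarith))
      linarith
    refine ⟨α, c' * H, q, ?_, ?_, ?_, ?_, ?_, ?_⟩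
    · have : (P₁.2 : ℝ) = P₁.2 / P₁.1 * P₁.1 := by field_simp
      rw [this, e1]
      field_simp
    · have : (P₂.2 : ℝ) = P₂.2 / P₂.1 * P₂.1 := by field_simp
      rw [this, e2]
      field_simp
    · have h1 := hγ θ hθ
      have h2 := abs_sub_abs_le_abs_sub (gam A A.natDegree (nb A.natDegree b H) θ) q
      rw [abs_sub_comm] at h2
      linarith
    · have h1 := hγK θ hθ _ hβ
      have h2 := abs_sub_abs_le_abs_sub q (gam A A.natDegree (nb A.natDegree b H) θ)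
      have h3 : K * (r + 4 * ε) + K * r ≤ K * 1 := by
        rw [← mul_add]
        apply mul_le_mul_of_nonneg_left _ (by linarith)
        linarith
      linarith
    · intro P₃ hP3
      obtain ⟨hn3, hs3, ht3, hp3⟩ := hfacts P₃ hP3
      obtain ⟨f1, f2⟩ := g3 _ hs3
      obtain ⟨t', ht'⟩ : ∃ t', t' = α + c' * ((H : ℝ) / P₃.1) := ⟨_, rfl⟩
      rw [← ht'] at f1 f2
      have f3 := m1 _ _ _ hs3 (ht3.trans hK0r) f1 hp3
      obtain ⟨σ₁, hσ1⟩ : ∃ σ₁, σ₁ = (H : ℝ) / P₁.1 := ⟨_, rfl⟩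
      obtain ⟨σ₂, hσ2⟩ : ∃ σ₂, σ₂ = (H : ℝ) / P₂.1 := ⟨_, rfl⟩
      obtain ⟨σ₃, hσ3⟩ : ∃ σ₃, σ₃ = (H : ℝ) / P₃.1 := ⟨_, rfl⟩
      obtain ⟨x₁, hx1⟩ : ∃ x₁, x₁ = Ps A A.natDegree (nb A.natDegree b H) σ₁ (P₁.2 / P₁.1) :=
        ⟨_, rfl⟩
      obtain ⟨x₂, hx2⟩ : ∃ x₂, x₂ = Ps A A.natDegree (nb A.natDegree b H) σ₂ (P₂.2 / P₂.1) :=
        ⟨_, rfl⟩
      obtain ⟨x₃, hx3⟩ : ∃ x₃, x₃ = Ps A A.natDegree (nb A.natDegree b H) σ₃ t' := ⟨_, rfl⟩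
      rw [← hσ1, ← hσ2, ← hσ3] at f2
      rw [← hσ1, ← hx1] at hp1
      rw [← hσ2, ← hx2] at hp2
      rw [← hσ3, ← hx3] at f3
      rw [← hx1, ← hx2, ← hx3] at f2
      rw [← hσ1, ← hσ2, ← hσ3]
      rw [← hσ1, ← hσ2] at hΔ
      rw [← hΔ]
      have hΔ' : |σ₂ - σ₁| = Δ := by rw [abs_sub_comm, hΔ]
      have f4 : |x₃| * Δ ≤ v * (|σ₃ - σ₂| + |σ₁ - σ₃|) +
          |σ₁ - σ₃| * |σ₃ - σ₂| * Δ * (|q| + K * r) := by
        have e : |x₃| * Δ = |x₃ * (σ₂ - σ₁)| := by rw [abs_mul, hΔ']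
        have e' : x₃ * (σ₂ - σ₁) = (x₁ * (σ₃ - σ₂) + x₃ * (σ₂ - σ₁) +
          x₂ * (σ₁ - σ₃) + (σ₁ - σ₃) * (σ₃ - σ₂) * (σ₂ - σ₁) * q) -
          (x₁ * (σ₃ - σ₂) + x₂ * (σ₁ - σ₃) + (σ₁ - σ₃) * (σ₃ - σ₂) * (σ₂ - σ₁) * q) := by ring
        rw [e, e']
        refine (abs_sub _ _).trans ?_
        have k1 := abs_add_le (x₁ * (σ₃ - σ₂) + x₂ * (σ₁ - σ₃))
          ((σ₁ - σ₃) * (σ₃ - σ₂) * (σ₂ - σ₁) * q)
        have k2 := abs_add_le (x₁ * (σ₃ - σ₂)) (x₂ * (σ₁ - σ₃))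
        have k3 : |x₁ * (σ₃ - σ₂)| ≤ v * |σ₃ - σ₂| := by
          rw [abs_mul]
          exact mul_le_mul_of_nonneg_right hp1 (abs_nonneg _)
        have k4 : |x₂ * (σ₁ - σ₃)| ≤ v * |σ₁ - σ₃| := by
          rw [abs_mul]
          exact mul_le_mul_of_nonneg_right hp2 (abs_nonneg _)
        have k5 : |(σ₁ - σ₃) * (σ₃ - σ₂) * (σ₂ - σ₁) * q| =
            |σ₁ - σ₃| * |σ₃ - σ₂| * Δ * |q| := by
          rw [abs_mul, abs_mul, abs_mul, hΔ']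
        have k6 : |(σ₁ - σ₃) * (σ₃ - σ₂) * (σ₂ - σ₁)| = |σ₁ - σ₃| * |σ₃ - σ₂| * Δ := by
          rw [abs_mul, abs_mul, hΔ']
        rw [k6] at f2
        have k7 : |σ₁ - σ₃| * |σ₃ - σ₂| * Δ * (|q| + K * r) =
          |σ₁ - σ₃| * |σ₃ - σ₂| * Δ * |q| + K * r * (|σ₁ - σ₃| * |σ₃ - σ₂| * Δ) := by ring
        rw [k7]
        linarith
      have f5 : |(P₃.2 : ℝ) - α * P₃.1 - c' * H| = |(P₃.1 : ℝ)| * |(P₃.2 : ℝ) / P₃.1 - t'| := by
        rw [← abs_mul, ht']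
        congr 1
        field_simp
        ring
      rw [f5]
      have f6 : a * (|(P₃.1 : ℝ)| * |(P₃.2 : ℝ) / P₃.1 - t'|) * Δ =
        |(P₃.1 : ℝ)| * ((a * |(P₃.2 : ℝ) / P₃.1 - t'|) * Δ) := by ring
      rw [f6]
      apply mul_le_mul_of_nonneg_left _ (abs_nonneg _)
      have f7 : a * |(P₃.2 : ℝ) / P₃.1 - t'| * Δ ≤ (v + |x₃|) * Δ :=
        mul_le_mul_of_nonneg_right f3 hΔpos.le
      linarith
    · intro P₃ hP3 hl3
      obtain ⟨hn3, hs3, ht3, hp3⟩ := hfacts P₃ hP3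
      obtain ⟨f1, f2⟩ := g3 _ hs3
      have ht' : α + c' * ((H : ℝ) / P₃.1) = P₃.2 / P₃.1 := by
        rw [hl3]
        field_simp
      rw [ht'] at f2
      obtain ⟨σ₁, hσ1⟩ : ∃ σ₁, σ₁ = (H : ℝ) / P₁.1 := ⟨_, rfl⟩
      obtain ⟨σ₂, hσ2⟩ : ∃ σ₂, σ₂ = (H : ℝ) / P₂.1 := ⟨_, rfl⟩
      obtain ⟨σ₃, hσ3⟩ : ∃ σ₃, σ₃ = (H : ℝ) / P₃.1 := ⟨_, rfl⟩
      obtain ⟨x₁, hx1⟩ : ∃ x₁, x₁ = Ps A A.natDegree (nb A.natDegree b H) σ₁ (P₁.2 / P₁.1) :=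
        ⟨_, rfl⟩
      obtain ⟨x₂, hx2⟩ : ∃ x₂, x₂ = Ps A A.natDegree (nb A.natDegree b H) σ₂ (P₂.2 / P₂.1) :=
        ⟨_, rfl⟩
      obtain ⟨x₃, hx3⟩ : ∃ x₃, x₃ = Ps A A.natDegree (nb A.natDegree b H) σ₃ (P₃.2 / P₃.1) :=
        ⟨_, rfl⟩
      rw [← hσ1, ← hσ2, ← hσ3] at f2
      rw [← hσ1, ← hx1] at hp1
      rw [← hσ2, ← hx2] at hp2
      rw [← hσ3, ← hx3] at hp3
      rw [← hx1, ← hx2, ← hx3] at f2
      rw [← hσ1, ← hσ2, ← hσ3]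
      have hΔ' : |σ₂ - σ₁| = |σ₁ - σ₂| := abs_sub_comm _ _
      have k6 : |(σ₁ - σ₃) * (σ₃ - σ₂) * (σ₂ - σ₁)| = |σ₁ - σ₃| * |σ₃ - σ₂| * |σ₁ - σ₂| := by
        rw [abs_mul, abs_mul, hΔ']
      rw [k6] at f2
      have k5 : |(σ₁ - σ₃) * (σ₃ - σ₂) * (σ₂ - σ₁) * q| =
          |σ₁ - σ₃| * |σ₃ - σ₂| * |σ₁ - σ₂| * |q| := by
        rw [abs_mul, k6]
      have e' : (σ₁ - σ₃) * (σ₃ - σ₂) * (σ₂ - σ₁) * q = (x₁ * (σ₃ - σ₂) + x₃ * (σ₂ - σ₁) +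
          x₂ * (σ₁ - σ₃) + (σ₁ - σ₃) * (σ₃ - σ₂) * (σ₂ - σ₁) * q) -
          (x₁ * (σ₃ - σ₂) + x₃ * (σ₂ - σ₁) + x₂ * (σ₁ - σ₃)) := by ring
      have f3 : |σ₁ - σ₃| * |σ₃ - σ₂| * |σ₁ - σ₂| * |q| ≤
          K * r * (|σ₁ - σ₃| * |σ₃ - σ₂| * |σ₁ - σ₂|) +
          v * (|σ₃ - σ₂| + |σ₁ - σ₂| + |σ₁ - σ₃|) := by
        rw [← k5, e']
        refine (abs_sub _ _).trans ?_
        have k1 := abs_add_le (x₁ * (σ₃ - σ₂) + x₃ * (σ₂ - σ₁)) (x₂ * (σ₁ - σ₃))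
        have k2 := abs_add_le (x₁ * (σ₃ - σ₂)) (x₃ * (σ₂ - σ₁))
        have k3 : |x₁ * (σ₃ - σ₂)| ≤ v * |σ₃ - σ₂| := by
          rw [abs_mul]
          exact mul_le_mul_of_nonneg_right hp1 (abs_nonneg _)
        have k4 : |x₂ * (σ₁ - σ₃)| ≤ v * |σ₁ - σ₃| := by
          rw [abs_mul]
          exact mul_le_mul_of_nonneg_right hp2 (abs_nonneg _)
        have k7 : |x₃ * (σ₂ - σ₁)| ≤ v * |σ₁ - σ₂| := by
          rw [abs_mul, hΔ']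
          exact mul_le_mul_of_nonneg_right hp3 (abs_nonneg _)
        linarith
      linarith
  -- collinearity
  have hDt : ∀ P₁ ∈ T, ∀ P₂ ∈ T, ∀ P₃ ∈ T, ∀ α β : ℝ, P₁.1 ≠ P₂.1 → (P₁.2 : ℝ) = α * P₁.1 + β →
      (P₂.2 : ℝ) = α * P₂.1 + β → (P₃.2 : ℝ) = α * P₃.1 + β := by
    intro P₁ h1 P₂ h2 P₃ h3 α' β' hne l1' l2'
    obtain ⟨α, β, q, l1, l2, q1, q2, f3, _⟩ := hline P₁ h1 P₂ h2 hne
    have hneR : (P₁.1 : ℝ) - P₂.1 ≠ 0 := by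
      intro h
      apply hne
      have : (P₁.1 : ℝ) = P₂.1 := by linarith
      exact_mod_cast this
    have hαα : α = α' := by
      have : (α - α') * ((P₁.1 : ℝ) - P₂.1) = 0 := by linarith
      rcases mul_eq_zero.1 this with h | h
      · linarith
      · exact absurd h hneR
    have hββ : β = β' := by rw [hαα] at l1; linarith
    rw [← hαα, ← hββ]
    have F := f3 P₃ h3
    obtain ⟨E, hE⟩ : ∃ E, E = |(P₃.2 : ℝ) - α * P₃.1 - β| := ⟨_, rfl⟩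
    rw [← hE] at F
    have hE0 : 0 ≤ E := by rw [hE]; exact abs_nonneg _
    have k12 := key P₁ h1 P₂ h2
    have k13 := key P₁ h1 P₃ h3
    have k32 := key P₃ h3 P₂ h2
    obtain ⟨δ, hδ⟩ : ∃ δ, δ = H * c / M := ⟨_, rfl⟩
    have hδ0 : 0 < δ := by rw [hδ]; positivity
    have hup : ∀ P ∈ T, ∀ Q ∈ T, H * |(P.1 : ℝ) - Q.1| / M ^ 2 ≤ δ := by
      intro P hP Q hQ
      rw [hδ, div_le_div_iff₀ (by positivity) hM0]
      have := mul_le_mul_of_nonneg_left (hTc P hP Q hQ) (show 0 ≤ H * M by positivity)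
      calc _ = H * M * |(P.1 : ℝ) - Q.1| := by ring
        _ ≤ _ := this
        _ = _ := by ring
    have d12 := k12.2.trans (hup P₁ h1 P₂ h2)
    have d13 := k13.2.trans (hup P₁ h1 P₃ h3)
    have d32 := k32.2.trans (hup P₃ h3 P₂ h2)
    obtain ⟨x, hx⟩ : ∃ x, x = |(H : ℝ) / P₁.1 - H / P₂.1| := ⟨_, rfl⟩
    obtain ⟨y, hy⟩ : ∃ y, y = |(H : ℝ) / P₃.1 - H / P₂.1| := ⟨_, rfl⟩
    obtain ⟨z, hz⟩ : ∃ z, z = |(H : ℝ) / P₁.1 - H / P₃.1| := ⟨_, rfl⟩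
    rw [← hx] at F d12 k12
    rw [← hy] at F d32
    rw [← hz] at F d13
    have hx0 : 0 ≤ x := by rw [hx]; exact abs_nonneg _
    have hy0 : 0 ≤ y := by rw [hy]; exact abs_nonneg _
    have hz0 : 0 ≤ z := by rw [hz]; exact abs_nonneg _
    have hR : |(P₃.1 : ℝ)| * (v * (x + (y + z)) + z * y * x * (|q| + K * r)) ≤
        2 * M * (v * (3 * δ) + δ ^ 3 * (2 * K)) := by
      have hq0 : 0 ≤ |q| + K * r := by positivity
      apply mul_le_mul (hT P₃ h3).2.1 _ (by positivity) (by linarith)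
      apply add_le_add
      · apply mul_le_mul_of_nonneg_left _ hv0.le
        linarith
      · apply mul_le_mul _ q2 hq0 (by positivity)
        have e : δ ^ 3 = δ * δ * δ := by ring
        rw [e]
        apply mul_le_mul _ d12 hx0 (by positivity)
        exact mul_le_mul d13 d32 hy0 hδ0.le
    have hL : a * E * (H * |(P₁.1 : ℝ) - P₂.1| / (4 * M ^ 2)) ≤ a * E * x :=
      mul_le_mul_of_nonneg_left k12.1 (by positivity)
    have hLR := (hL.trans F).trans hR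
    have e1 : 2 * M * (v * (3 * δ) + δ ^ 3 * (2 * K)) =
        a * H / (4 * M ^ 2) * (24 * (v * M ^ 2) * c / a + 16 * K * H ^ 2 * c ^ 3 / a) := by
      rw [hδ]
      field_simp
      ring
    have e2 : a * E * (H * |(P₁.1 : ℝ) - P₂.1| / (4 * M ^ 2)) =
        a * H / (4 * M ^ 2) * (|(P₁.1 : ℝ) - P₂.1| * E) := by
      ring
    rw [e1, e2, hvε] at hLR
    have h5 : |(P₁.1 : ℝ) - P₂.1| * E ≤ 24 * ε * c / a + 16 * K * H ^ 2 * c ^ 3 / a :=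
      le_of_mul_le_mul_left hLR (by positivity)
    have h6 : 16 * K * H ^ 2 * c ^ 3 / a ≤ 1 / 2 := by
      rw [div_le_div_iff₀ ha (by norm_num)]
      have : 16 * K * (H : ℝ) ^ 2 * c ^ 3 ≤ 16 * K * H ^ 2 * c := by
        apply mul_le_mul_of_nonneg_left _ (by positivity)
        exact pow_le_of_le_one hc0.le hc1 (by norm_num)
      linarith
    have h7 : 24 * ε * c / a < 1 / 2 := by
      rw [div_lt_div_iff₀ ha (by norm_num)]
      have : ε * c ≤ ε * 1 := mul_le_mul_of_nonneg_left hc1 hε0.le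
      nlinarith
    have h8 : |(P₁.1 : ℝ) - P₂.1| * E < 1 := by linarith
    rw [hE, ← abs_mul] at h8
    have e : ((P₁.1 : ℝ) - P₂.1) * ((P₃.2 : ℝ) - α * P₃.1 - β) = ((Dt P₁ P₂ P₃ : ℤ) : ℝ) := by
      unfold Dt
      push_cast
      rw [l1, l2]
      ring
    rw [e] at h8
    have h9 : |Dt P₁ P₂ P₃| < 1 := by exact_mod_cast h8
    rw [Int.abs_lt_one_iff.1 h9, Int.cast_zero] at e
    rcases mul_eq_zero.1 e with h | h
    · exact absurd h hneR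
    · linarith
  rcases Nat.eq_zero_or_pos m with rfl | hm0
  · have : (0 : ℝ) ≤ C * V := by positivity
    simpa using this
  -- first and last point
  obtain ⟨s, hs⟩ : ∃ s, s = T.image Prod.fst := ⟨_, rfl⟩
  have hcard : s.card = T.card := by
    rw [hs]
    exact Finset.card_image_of_injOn hinj
  have hsne : s.Nonempty := by
    rw [← Finset.card_pos]
    omega
  have hmin := s.min'_mem hsne
  have hmax := s.max'_mem hsne
  have hlt : s.min' hsne < s.max' hsne := Finset.min'_lt_max'_of_card s (by omega)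
  obtain ⟨y, hy, hy1, hy2⟩ := mid_elt hsne (q := 1) one_pos (fun x _ y _ => one_dvd _) (hcard ▸ hm)
  obtain ⟨x, hx⟩ : ∃ x, x = s.min' hsne := ⟨_, rfl⟩
  obtain ⟨z, hz⟩ : ∃ z, z = s.max' hsne := ⟨_, rfl⟩
  rw [← hx] at hmin hlt hy1
  rw [← hz] at hmax hlt hy2
  rw [hs, Finset.mem_image] at hmin hmax hy
  obtain ⟨P₁, hP1, e1⟩ := hmin
  obtain ⟨P₂, hP2, e2⟩ := hmax
  obtain ⟨P₃, hP3, e3⟩ := hy
  have hne : P₁.1 ≠ P₂.1 := by rw [e1, e2]; exact hlt.ne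
  obtain ⟨α, β, q, l1, l2, q1, _, _, f4⟩ := hline P₁ hP1 P₂ hP2 hne
  have F := f4 P₃ hP3 (hDt P₁ hP1 P₂ hP2 P₃ hP3 α β hne l1 l2)
  have hm1 : (1 : ℝ) ≤ m := by exact_mod_cast hm0
  obtain ⟨X, hX⟩ : ∃ X : ℝ, X = (P₃.1 : ℝ) - P₁.1 := ⟨_, rfl⟩
  obtain ⟨Y, hY⟩ : ∃ Y : ℝ, Y = (P₂.1 : ℝ) - P₃.1 := ⟨_, rfl⟩
  have hXm : m ≤ X := by
    rw [hX, e3, e1]
    have : (m : ℤ) ≤ y - x := by linarith
    exact_mod_cast this
  have hYm : m ≤ Y := by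
    rw [hY, e2, e3]
    have : (m : ℤ) ≤ z - y := by linarith
    exact_mod_cast this
  have hXpos : 0 < X := by linarith
  have hYpos : 0 < Y := by linarith
  have a13 : |(P₁.1 : ℝ) - P₃.1| = X := by
    rw [abs_sub_comm, ← hX, abs_of_pos hXpos]
  have a32 : |(P₃.1 : ℝ) - P₂.1| = Y := by
    rw [abs_sub_comm, ← hY, abs_of_pos hYpos]
  have a12 : |(P₁.1 : ℝ) - P₂.1| = X + Y := by
    have : (P₂.1 : ℝ) - P₁.1 = X + Y := by rw [hX, hY]; ring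
    rw [abs_sub_comm, this, abs_of_pos (by linarith)]
  have k13 := key P₁ hP1 P₃ hP3
  have k32 := key P₃ hP3 P₂ hP2
  have k12 := key P₁ hP1 P₂ hP2
  rw [a13] at k13
  rw [a32] at k32
  rw [a12] at k12
  obtain ⟨η, hη⟩ : ∃ η, η = H / (4 * M ^ 2) := ⟨_, rfl⟩
  have hη0 : 0 < η := by rw [hη]; positivity
  have j13 : η * X ≤ |(H : ℝ) / P₁.1 - H / P₃.1| := by
    refine le_trans (le_of_eq ?_) k13.1
    rw [hη]; ring
  have j32 : η * Y ≤ |(H : ℝ) / P₃.1 - H / P₂.1| := by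
    refine le_trans (le_of_eq ?_) k32.1
    rw [hη]; ring
  have j12 : η * (X + Y) ≤ |(H : ℝ) / P₁.1 - H / P₂.1| := by
    refine le_trans (le_of_eq ?_) k12.1
    rw [hη]; ring
  have i13 : |(H : ℝ) / P₁.1 - H / P₃.1| ≤ 4 * η * X := by
    refine k13.2.trans (le_of_eq ?_)
    rw [hη]; field_simp
  have i32 : |(H : ℝ) / P₃.1 - H / P₂.1| ≤ 4 * η * Y := by
    refine k32.2.trans (le_of_eq ?_)
    rw [hη]; field_simp
  have i12 : |(H : ℝ) / P₁.1 - H / P₂.1| ≤ 4 * η * (X + Y) := by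
    refine k12.2.trans (le_of_eq ?_)
    rw [hη]; field_simp
  have hLow : (η * X) * (η * Y) * (η * (X + Y)) * (γ / 2) ≤
      |(H : ℝ) / P₁.1 - H / P₃.1| * |(H : ℝ) / P₃.1 - H / P₂.1| * |(H : ℝ) / P₁.1 - H / P₂.1| *
          (|q| - K * r) := by
    apply mul_le_mul _ q1 (by positivity) (by positivity)
    apply mul_le_mul _ j12 (by positivity) (by positivity)
    exact mul_le_mul j13 j32 (by positivity) (abs_nonneg _)
  have hHigh : v * (|(H : ℝ) / P₃.1 - H / P₂.1| + |(H : ℝ) / P₁.1 - H / P₂.1| +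
            |(H : ℝ) / P₁.1 - H / P₃.1|) ≤ v * (8 * η * (X + Y)) := by
    apply mul_le_mul_of_nonneg_left _ hv0.le
    linarith
  have hfin := (hLow.trans F).trans hHigh
  have e4 : (η * X) * (η * Y) * (η * (X + Y)) * (γ / 2) =
      (η * (X + Y)) * (η ^ 2 * (γ / 2) * (X * Y)) := by ring
  have e5 : v * (8 * η * (X + Y)) = (η * (X + Y)) * (8 * v) := by ring
  rw [e4, e5] at hfin
  have h6 : η ^ 2 * (γ / 2) * (X * Y) ≤ 8 * v := le_of_mul_le_mul_left hfin (by positivity)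
  have h7 : 1 / (16 * M ^ 4) ≤ η ^ 2 := by
    rw [hη, div_pow, div_le_div_iff₀ (by positivity) (by positivity)]
    have : (1 : ℝ) ≤ H ^ 2 := one_le_pow₀ hH1
    have h8 : (4 * M ^ 2) ^ 2 = 16 * M ^ 4 := by ring
    rw [h8]
    exact mul_le_mul_of_nonneg_right this (by positivity)
  have h8 : 1 / (16 * M ^ 4) * (γ / 2) * (X * Y) ≤ 8 * v := by
    refine le_trans ?_ h6
    apply mul_le_mul_of_nonneg_right _ (by positivity)
    exact mul_le_mul_of_nonneg_right h7 (by positivity)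
  have h9 : X * Y ≤ 256 / γ * V := by
    rw [hv] at h8
    have e6 : 1 / (16 * M ^ 4) * (γ / 2) * (X * Y) = (γ * (X * Y)) / (32 * M ^ 4) := by
      field_simp
      norm_num
    rw [e6, div_le_iff₀ (by positivity)] at h8
    have e7 : 8 * (V / M ^ 4) * (32 * M ^ 4) = 256 * V := by
      field_simp
      norm_num
    rw [e7] at h8
    rw [div_mul_eq_mul_div, le_div_iff₀ hγ0]
    linarith
  have h10 : (m : ℝ) ^ 2 ≤ X * Y := by
    rw [pow_two]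
    exact mul_le_mul hXm hYm (by linarith) hXpos.le
  have h11 : 256 / γ * V ≤ C * V := by
    apply mul_le_mul_of_nonneg_right _ (by linarith)
    rw [hC]
    linarith
  linarith

end Pool.Agent.TH728.PL
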